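import Mathlib

/-!
# The solvable radical
-/

namespace Pool.Agent.RB

/-- `R` is the solvable radical of `G`: a solvable normal subgroup which contains every solvable
normal subgroup -/
def IsRad {G : Type} [Group G] (R : Subgroup G) : Prop :=
  R.Normal ∧ Group.IsSolvable R ∧ ∀ N : Subgroup G, N.Normal → Group.IsSolvable N → N ≤ R

end Pool.Agent.RB
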