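import Pool.Agent.Work.MP_76dc41_al.Bd.B03

/-!
# RadicalBound: proofs of the items CONJ, JB, MUL, FR, OVK, YEX, STEP, STEP2, COMB, M1, M2, M3, P2, P3, RAD
-/

section

/-!
# Item CONJ: the conjugation representation on the commutant
-/

set_option autoImplicit false
set_option linter.unusedSectionVars false

open Module Representation Pool.Agent.DC7914 Pool.Agent.RadIndex

namespace Pool.Agent.RB

namespace CONJx

variable {G : Type} [Group G] {V : Type} [AddCommGroup V] [Module ℂ V]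

theorem inv_comp (ρ : Representation ℂ G V) (g : G) : ρ g⁻¹ * ρ g = 1 := by
  rw [← map_mul, inv_mul_cancel, map_one]

theorem comp_inv (ρ : Representation ℂ G V) (g : G) : ρ g * ρ g⁻¹ = 1 := by
  rw [← map_mul, mul_inv_cancel, map_one]

theorem mem_homs' {U : Subgroup G} {ρ : Representation ℂ G V} {f : End ℂ V} :
    f ∈ homs U ρ ρ ↔ ∀ u ∈ U, f * ρ u = ρ u * f := Iff.rfl

/-- conjugation keeps the commutant of a normal subgroup -/
theorem conj_mem (M : Subgroup G) [hM : M.Normal] (ρ : Representation ℂ G V) (g : G)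
    (f : End ℂ V) (hf : f ∈ homs M ρ ρ) : ρ g * f * ρ g⁻¹ ∈ homs M ρ ρ := by
  rw [mem_homs'] at hf ⊢
  intro u hu
  have h1 := hf (g⁻¹ * u * g) (by
    have := hM.conj_mem u hu g⁻¹
    rwa [inv_inv] at this)
  have h2 : ρ g⁻¹ * ρ u = ρ (g⁻¹ * u * g) * ρ g⁻¹ := by
    rw [← map_mul, ← map_mul]
    congr 1
    group
  have h3 : ρ g * ρ (g⁻¹ * u * g) = ρ u * ρ g := by
    rw [← map_mul, ← map_mul]
    congr 1
    group
  calc ρ g * f * ρ g⁻¹ * ρ u = ρ g * f * (ρ g⁻¹ * ρ u) := by noncomm_ring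
    _ = ρ g * (f * ρ (g⁻¹ * u * g)) * ρ g⁻¹ := by rw [h2]; noncomm_ring
    _ = (ρ g * ρ (g⁻¹ * u * g)) * f * ρ g⁻¹ := by rw [h1]; noncomm_ring
    _ = ρ u * (ρ g * f * ρ g⁻¹) := by rw [h3]; noncomm_ring

/-- the conjugation representation on `Hom_M(V, V)` -/
noncomputable def cj (M : Subgroup G) [hM : M.Normal] (ρ : Representation ℂ G V) :
    Representation ℂ G (homs M ρ ρ) where
  toFun g :=
    { toFun := fun f => ⟨ρ g * (f : End ℂ V) * ρ g⁻¹, conj_mem M ρ g _ f.2⟩
      map_add' := fun a b => by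
        apply Subtype.ext
        change ρ g * ((a : End ℂ V) + (b : End ℂ V)) * ρ g⁻¹ =
          ρ g * (a : End ℂ V) * ρ g⁻¹ + ρ g * (b : End ℂ V) * ρ g⁻¹
        rw [mul_add, add_mul]
      map_smul' := fun c a => by
        apply Subtype.ext
        change ρ g * (c • (a : End ℂ V)) * ρ g⁻¹ = c • (ρ g * (a : End ℂ V) * ρ g⁻¹)
        rw [mul_smul_comm, smul_mul_assoc] }
  map_one' := by
    apply LinearMap.ext
    intro f
    apply Subtype.ext
    change ρ 1 * (f : End ℂ V) * ρ 1⁻¹ = (f : End ℂ V)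
    rw [inv_one, map_one, one_mul, mul_one]
  map_mul' g h := by
    apply LinearMap.ext
    intro f
    apply Subtype.ext
    change ρ (g * h) * (f : End ℂ V) * ρ (g * h)⁻¹ =
      ρ g * (ρ h * (f : End ℂ V) * ρ h⁻¹) * ρ g⁻¹
    rw [mul_inv_rev, map_mul, map_mul]
    noncomm_ring

theorem cj_coe (M : Subgroup G) [hM : M.Normal] (ρ : Representation ℂ G V) (g : G)
    (f : homs M ρ ρ) : ((cj M ρ g f : homs M ρ ρ) : End ℂ V) = ρ g * (f : End ℂ V) * ρ g⁻¹ := rfl

theorem cj_eq_one (M : Subgroup G) [hM : M.Normal] (ρ : Representation ℂ G V) (g : G) :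
    cj M ρ g = 1 ↔ ∀ f ∈ homs M ρ ρ, f * ρ g = ρ g * f := by
  constructor
  · intro h f hf
    have h1 := congrArg (fun k => ((k ⟨f, hf⟩ : homs M ρ ρ) : End ℂ V)) h
    have h2 : ρ g * f * ρ g⁻¹ = f := h1
    calc f * ρ g = (ρ g * f * ρ g⁻¹) * ρ g := by rw [h2]
      _ = ρ g * f * (ρ g⁻¹ * ρ g) := by noncomm_ring
      _ = ρ g * f := by rw [inv_comp, mul_one]
  · intro h
    apply LinearMap.ext
    intro f
    apply Subtype.ext
    rw [cj_coe, ← h f f.2, mul_assoc, comp_inv, mul_one]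
    rfl

end CONJx

open CONJx in
theorem prf_CONJ : S_CONJ := by
  intro G _ _ M _ χ hχ
  obtain ⟨n, ρ, hρ, rfl⟩ := hχ
  have hfree : Module.Free ℂ (homs M ρ ρ) := Module.Free.of_divisionRing ℂ (homs M ρ ρ)
  have hfin : Module.Finite ℂ (homs M ρ ρ) := inferInstance
  let e : (homs M ρ ρ) ≃ₗ[ℂ] (Fin (finrank ℂ (homs M ρ ρ)) → ℂ) :=
    (Module.finBasis ℂ (homs M ρ ρ)).equivFun
  let σ : Representation ℂ G (Fin (finrank ℂ (homs M ρ ρ)) → ℂ) :=
    { toFun := fun g => e.conj (cj M ρ g)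
      map_one' := by rw [map_one]; ext; simp
      map_mul' := fun g h => by rw [map_mul]; ext; simp [LinearEquiv.conj_apply] }
  have hσ : ∀ g, σ g = 1 ↔ cj M ρ g = 1 := by
    intro g
    constructor
    · intro h
      have h1 : e.conj (cj M ρ g) = e.conj 1 := by
        have h2 : e.conj (1 : End ℂ (homs M ρ ρ)) = 1 := by ext; simp
        rw [h2]
        exact h
      exact e.conj.injective h1
    · intro h
      change e.conj (cj M ρ g) = 1
      rw [h]
      ext; simp
  refine ⟨finrank ℂ (homs M ρ ρ), σ, ?_, ?_, ?_⟩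
  · rw [finrank_eq_dg]
    refine (Submodule.finrank_le _).trans ?_
    rw [Module.finrank_linearMap]
    simp [sq]
  · intro u hu
    rw [hσ, cj_eq_one]
    intro f hf
    exact hf u hu
  · intro U hMU
    constructor
    · intro h
      rw [ip_eq_finrank, ip_eq_finrank]
      have h1 : homs M ρ ρ ≤ homs U ρ ρ := by
        intro f hf
        rw [mem_homs']
        intro u hu
        exact (cj_eq_one M ρ u).1 ((hσ u).1 (h u hu)) f hf
      rw [le_antisymm (homs_mono hMU ρ ρ) h1]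
    · intro h u hu
      rw [hσ, cj_eq_one]
      intro f hf
      rw [← homs_eq hMU ρ ρ h] at hf
      exact hf u hu

end Pool.Agent.RB

end

section

/-!
# Item JB: few of the commuting perfect sections act nontrivially
-/

set_option autoImplicit false
set_option linter.unusedSectionVars false

open Module Representation Pool.Agent.DC7914 Pool.Agent.RadIndex

namespace Pool.Agent.RB

namespace JBx

variable {G : Type} [Group G] {d : ℕ}

/-- a subgroup which is perfect modulo `M` and acts by commuting operators acts trivially -/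
theorem triv_of_comm (M T : Subgroup G) (σ : Representation ℂ G (Fin d → ℂ))
    (hM : ∀ u ∈ M, σ u = 1) (hT : T ≤ M ⊔ ⁅T, T⁆)
    (hc : ∀ x ∈ T, ∀ y ∈ T, σ x * σ y = σ y * σ x) : ∀ u ∈ T, σ u = 1 := by
  have h1 : M ⊔ ⁅T, T⁆ ≤ MonoidHom.ker σ := by
    refine sup_le (fun u hu => MonoidHom.mem_ker.2 (hM u hu)) ?_
    rw [Subgroup.commutator_le]
    intro x hx y hy
    rw [MonoidHom.mem_ker, commutatorElement_def, map_mul, map_mul, map_mul, hc x hx y hy]
    have h2 : σ x * σ x⁻¹ = 1 := by rw [← map_mul, mul_inv_cancel, map_one]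
    have h3 : σ y * σ y⁻¹ = 1 := by rw [← map_mul, mul_inv_cancel, map_one]
    calc σ y * σ x * σ x⁻¹ * σ y⁻¹ = σ y * (σ x * σ x⁻¹) * σ y⁻¹ := by noncomm_ring
      _ = 1 := by rw [h2, mul_one, h3]
  exact fun u hu => MonoidHom.mem_ker.1 (h1 (hT hu))

/-- elements with commutator in the kernel have commuting images -/
theorem comm_of_mem (M : Subgroup G) (σ : Representation ℂ G (Fin d → ℂ))
    (hM : ∀ u ∈ M, σ u = 1) (x y : G) (h : x * y * x⁻¹ * y⁻¹ ∈ M) :
    σ x * σ y = σ y * σ x := by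
  have h1 : x * y = (x * y * x⁻¹ * y⁻¹) * (y * x) := by
    group
  rw [← map_mul, h1, map_mul, hM _ h, one_mul, map_mul]

end JBx

open JBx in
theorem prf_JB (hCONJ : S_CONJ) : S_JB := by
  classical
  intro G _ _ M _ m T hMT hTp hc χ hχ
  obtain ⟨d, σ, hd, hM, hU⟩ := hCONJ G M χ hχ
  set J := Finset.univ.filter (fun i => ip (T i) χ χ ≠ ip M χ χ) with hJ
  have hex : ∀ i : J, ∃ x y : G, x ∈ T i ∧ y ∈ T i ∧ σ x * σ y - σ y * σ x ≠ 0 := by
    intro i
    by_contra hcon
    push Not at hcon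
    have hi' := (Finset.mem_filter.1 i.2).2
    apply hi'
    rw [← hU (T i) (hMT i)]
    exact triv_of_comm M (T i) σ hM (hTp i) fun x hx y hy => sub_eq_zero.1 (hcon x y hx hy)
  choose x y hx hy hxy using hex
  have hcomm : ∀ i j : J, i ≠ j → σ (x i) * σ (y j) - σ (y j) * σ (x i) = 0 := by
    intro i j hij
    rw [sub_eq_zero]
    refine comm_of_mem M σ hM _ _ (hc i j (fun h => hij (Subtype.ext h)) ?_)
    exact Subgroup.commutator_mem_commutator (hx i) (hy j)
  have hli : LinearIndependent ℂ (fun i : J => σ (x i)) := by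
    rw [Fintype.linearIndependent_iff]
    intro g hg j
    have h1 : (∑ i, g i • σ (x i)) * σ (y j) - σ (y j) * (∑ i, g i • σ (x i)) =
        g j • (σ (x j) * σ (y j) - σ (y j) * σ (x j)) := by
      rw [Finset.sum_mul, Finset.mul_sum, ← Finset.sum_sub_distrib,
        Finset.sum_eq_single_of_mem j (Finset.mem_univ j)]
      · rw [smul_mul_assoc, mul_smul_comm, smul_sub]
      · intro i _ hij
        have h3 := sub_eq_zero.1 (hcomm i j hij)
        rw [smul_mul_assoc, mul_smul_comm, h3, sub_self]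
    rw [hg, zero_mul, mul_zero, sub_zero] at h1
    exact (smul_eq_zero.1 h1.symm).resolve_right (hxy j)
  have h2 := hli.fintype_card_le_finrank
  rw [Module.finrank_linearMap, Fintype.card_coe] at h2
  simp only [Module.finrank_fintype_fun_eq_card, Fintype.card_fin] at h2
  calc J.card ≤ d * d := h2
    _ ≤ dg χ ^ 2 * dg χ ^ 2 := Nat.mul_le_mul hd hd
    _ = dg χ ^ 4 := by ring

end Pool.Agent.RB

end

section

/-! # Equality of inner products passes to joins -/

set_option autoImplicit false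

open Module Representation Pool.Agent.DC7914 Pool.Agent.RadIndex

namespace Pool.Agent.RB

namespace MULx

/-- the elements which commute with a linear map -/
def comG {G V : Type} [Group G] [AddCommGroup V] [Module ℂ V] (ρ : Representation ℂ G V)
    (f : V →ₗ[ℂ] V) : Subgroup G where
  carrier := {u | f ∘ₗ ρ u = ρ u ∘ₗ f}
  mul_mem' := by
    intro a b ha hb
    have ha' : f ∘ₗ ρ a = ρ a ∘ₗ f := ha
    have hb' : f ∘ₗ ρ b = ρ b ∘ₗ f := hb
    show f ∘ₗ ρ (a * b) = ρ (a * b) ∘ₗ f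
    have e : ρ (a * b) = ρ a ∘ₗ ρ b := map_mul ρ a b
    rw [e, ← LinearMap.comp_assoc, ha', LinearMap.comp_assoc, hb', ← LinearMap.comp_assoc]
  one_mem' := by
    show f ∘ₗ ρ 1 = ρ 1 ∘ₗ f
    have e : ρ (1 : G) = LinearMap.id := map_one ρ
    rw [e, LinearMap.comp_id, LinearMap.id_comp]
  inv_mem' := by
    intro a ha
    have ha' : f ∘ₗ ρ a = ρ a ∘ₗ f := ha
    show f ∘ₗ ρ a⁻¹ = ρ a⁻¹ ∘ₗ f
    have e1 : ρ a⁻¹ ∘ₗ ρ a = LinearMap.id := by
      have := map_mul ρ a⁻¹ a
      rw [inv_mul_cancel, map_one] at this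
      exact this.symm
    have e2 : ρ a ∘ₗ ρ a⁻¹ = LinearMap.id := by
      have := map_mul ρ a a⁻¹
      rw [mul_inv_cancel, map_one] at this
      exact this.symm
    calc f ∘ₗ ρ a⁻¹ = (ρ a⁻¹ ∘ₗ ρ a) ∘ₗ (f ∘ₗ ρ a⁻¹) := by rw [e1, LinearMap.id_comp]
      _ = ρ a⁻¹ ∘ₗ ((ρ a ∘ₗ f) ∘ₗ ρ a⁻¹) := by
        rw [LinearMap.comp_assoc, LinearMap.comp_assoc]
      _ = ρ a⁻¹ ∘ₗ (f ∘ₗ (ρ a ∘ₗ ρ a⁻¹)) := by
        rw [← ha', LinearMap.comp_assoc]
      _ = ρ a⁻¹ ∘ₗ f := by rw [e2, LinearMap.comp_id]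

end MULx

theorem prf_MUL : S_MUL := by
  intro G _ _ M M' S hM' hS χ hχ he
  obtain ⟨n, ρ, hρ, rfl⟩ := hχ
  have h1 : homs S ρ ρ = homs M ρ ρ := homs_eq hS ρ ρ he
  have h2 : homs (M' ⊔ S) ρ ρ = homs M' ρ ρ := by
    refine le_antisymm (homs_mono le_sup_left ρ ρ) ?_
    intro f hf
    have hfM : f ∈ homs M ρ ρ := homs_mono hM' ρ ρ hf
    rw [← h1] at hfM
    have hle : M' ⊔ S ≤ MULx.comG ρ f := sup_le (fun u hu => hf u hu) (fun u hu => hfM u hu)
    exact fun u hu => hle hu
  rw [ip_eq_finrank, ip_eq_finrank, h2]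

end Pool.Agent.RB

end

section

/-!
# Item FR: normalisers of Sylow subgroups of `T / M` (Frattini argument)
-/

set_option autoImplicit false
set_option linter.unusedSectionVars false

namespace Pool.Agent.RB

namespace FRx

open Subgroup
open scoped Pointwise

variable {G : Type} [Group G] (M T : Subgroup G) [M.Normal] [T.Normal]

lemma mem_ysub (N : Subgroup (T ⧸ M.subgroupOf T)) (s : T) :
    (s : G) ∈ ysub M T N ↔ QuotientGroup.mk' (M.subgroupOf T) s ∈ N := by
  unfold ysub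
  constructor
  · rintro ⟨s', hs', h⟩
    have h1 : s' = s := Subtype.ext h
    rw [← h1]
    exact hs'
  · intro h
    exact ⟨s, h, rfl⟩

lemma ysub_le (N : Subgroup (T ⧸ M.subgroupOf T)) : ysub M T N ≤ T := by
  rintro _ ⟨s, _, rfl⟩
  exact s.2

lemma le_ysub (hMT : M ≤ T) (N : Subgroup (T ⧸ M.subgroupOf T)) : M ≤ ysub M T N := by
  intro m hm
  have h1 := (mem_ysub M T N ⟨m, hMT hm⟩)
  refine h1.2 ?_
  have h2 : QuotientGroup.mk' (M.subgroupOf T) ⟨m, hMT hm⟩ = 1 := by
    rw [QuotientGroup.mk'_apply, QuotientGroup.eq_one_iff, mem_subgroupOf]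
    exact hm
  rw [h2]
  exact N.one_mem

lemma map_eq (g : G) :
    (M.subgroupOf T).map ((MulAut.conjNormal g : MulAut T) : T →* T) = M.subgroupOf T := by
  have hM : M.Normal := inferInstance
  ext x
  constructor
  · rintro ⟨y, hy, rfl⟩
    have hy' : (y : G) ∈ M := hy
    show (((MulAut.conjNormal g : MulAut T) y : T) : G) ∈ M
    rw [MulAut.conjNormal_apply]
    exact hM.conj_mem _ hy' g
  · intro hx
    have hx' : (x : G) ∈ M := hx
    refine ⟨(MulAut.conjNormal g : MulAut T).symm x, ?_, ?_⟩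
    · show (((MulAut.conjNormal g : MulAut T).symm x : T) : G) ∈ M
      rw [MulAut.conjNormal_symm_apply]
      have := hM.conj_mem _ hx' g⁻¹
      rwa [inv_inv] at this
    · show (MulAut.conjNormal g : MulAut T) ((MulAut.conjNormal g : MulAut T).symm x) = x
      exact MulEquiv.apply_symm_apply _ _

/-- the automorphism of `T / M` induced by the conjugation with `g` -/
def phi (g : G) : MulAut (T ⧸ M.subgroupOf T) :=
  QuotientGroup.congr (M.subgroupOf T) (M.subgroupOf T) (MulAut.conjNormal g : MulAut T)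
    (map_eq M T g)

lemma phi_mk (g : G) (s : T) : phi M T g (QuotientGroup.mk' (M.subgroupOf T) s) =
    QuotientGroup.mk' (M.subgroupOf T) ((MulAut.conjNormal g : MulAut T) s) := rfl

lemma norm_of (N : Subgroup (T ⧸ M.subgroupOf T)) (h : G)
    (hh : ∀ s : T, QuotientGroup.mk' (M.subgroupOf T) s ∈ N ↔
      QuotientGroup.mk' (M.subgroupOf T) ((MulAut.conjNormal h : MulAut T) s) ∈ N) :
    h ∈ normalizer (ysub M T N : Set G) := by
  have hT : T.Normal := inferInstance
  rw [mem_normalizer_iff]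
  intro x
  by_cases hx : x ∈ T
  · have h1 := hh ⟨x, hx⟩
    rw [← mem_ysub, ← mem_ysub, MulAut.conjNormal_apply] at h1
    exact h1
  · constructor
    · intro h1
      exact absurd (ysub_le M T N h1) hx
    · intro h1
      have h2 := hT.conj_mem _ (ysub_le M T N h1) h⁻¹
      have h3 : h⁻¹ * (h * x * h⁻¹) * h⁻¹⁻¹ = x := by group
      rw [h3] at h2
      exact absurd h2 hx

lemma of_norm (N : Subgroup (T ⧸ M.subgroupOf T)) (t : T)
    (ht : (t : G) ∈ normalizer (ysub M T N : Set G)) :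
    QuotientGroup.mk' (M.subgroupOf T) t ∈ normalizer (N : Set (T ⧸ M.subgroupOf T)) := by
  rw [mem_normalizer_iff] at ht ⊢
  intro k
  obtain ⟨s, rfl⟩ := QuotientGroup.mk'_surjective (M.subgroupOf T) k
  rw [← map_mul, ← map_inv, ← map_mul, ← mem_ysub, ← mem_ysub]
  exact ht s

end FRx

open FRx Subgroup in
open scoped Pointwise in
theorem prf_FR : S_FR := by
  intro G _ _ M T _ _ hMT p _ Q Y hY
  subst hY
  set N : Subgroup (T ⧸ M.subgroupOf T) := normalizer (Q : Set (T ⧸ M.subgroupOf T)) with hN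
  refine ⟨le_ysub M T hMT N, ysub_le M T N, ?_, ?_⟩
  · apply le_antisymm
    · rintro t ⟨ht1, ht2⟩
      have h1 := of_norm M T N ⟨t, ht2⟩ ht1
      have h2 : normalizer (N : Set (T ⧸ M.subgroupOf T)) = N := Sylow.normalizer_normalizer Q
      rw [h2] at h1
      exact (mem_ysub M T N ⟨t, ht2⟩).2 h1
    · exact le_inf le_normalizer (ysub_le M T N)
  · rw [eq_top_iff]
    intro g _
    obtain ⟨k, hk⟩ := MulAction.exists_smul_eq (T ⧸ M.subgroupOf T) (phi M T g • Q) Q
    obtain ⟨t, rfl⟩ := QuotientGroup.mk'_surjective (M.subgroupOf T) k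
    have hk' : (MulAut.conj (QuotientGroup.mk' (M.subgroupOf T) t) * phi M T g) • Q = Q := by
      rw [mul_smul]
      exact hk
    set ψ : MulAut (T ⧸ M.subgroupOf T) :=
      MulAut.conj (QuotientGroup.mk' (M.subgroupOf T) t) * phi M T g with hψ
    have hstab : ∀ x : T ⧸ M.subgroupOf T, x ∈ N ↔ ψ x ∈ N := by
      intro x
      rw [hN, ← Sylow.smul_eq_iff_mem_normalizer, ← Sylow.smul_eq_iff_mem_normalizer,
        Sylow.smul_def, Sylow.smul_def]
      have h1 : MulAut.conj (ψ x) = ψ * MulAut.conj x * ψ⁻¹ := by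
        ext y
        simp only [MulAut.mul_apply, MulAut.conj_apply, map_mul, map_inv, MulAut.apply_inv_self]
      have h2 : ψ⁻¹ • Q = Q := by
        rw [inv_smul_eq_iff]
        exact hk'.symm
      rw [h1, mul_smul, mul_smul, h2]
      constructor
      · intro h
        rw [h, hk']
      · intro h
        have h3 := congrArg (fun P => ψ⁻¹ • P) h
        simp only [inv_smul_smul] at h3
        rw [h3, h2]
    have hmem : (t : G) * g ∈ normalizer (ysub M T N : Set G) := by
      apply norm_of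
      intro s
      rw [hstab]
      have h1 : ψ (QuotientGroup.mk' (M.subgroupOf T) s) =
          QuotientGroup.mk' (M.subgroupOf T) ((MulAut.conjNormal ((t : G) * g) : MulAut T) s) := by
        rw [hψ, MulAut.mul_apply, phi_mk, MulAut.conj_apply, ← map_inv, ← map_mul, ← map_mul]
        congr 1
        ext
        simp only [Subgroup.coe_mul, Subgroup.coe_inv, MulAut.conjNormal_apply]
        group
      rw [h1]
    have h2 : g = (t : G)⁻¹ * ((t : G) * g) := by group
    rw [h2]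
    apply mul_mem
    · exact mem_sup_right (T.inv_mem t.2)
    · exact mem_sup_left hmem

end Pool.Agent.RB

end

section

/-! # Overlaps in a quotient (item OVK) -/

set_option autoImplicit false

namespace Pool.Agent.RB

namespace OVKx

open Finset

variable {G : Type} [Group G]

/-- sums over a group of a function of the class modulo a normal subgroup -/
lemma sum_quot {H : Type} [Group H] [Fintype H] (N : Subgroup H) [N.Normal] [Fintype (H ⧸ N)]
    (f : H ⧸ N → ℕ) : ∑ h : H, f (QuotientGroup.mk' N h) = Nat.card N * ∑ k : H ⧸ N, f k := by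
  classical
  rw [← Finset.sum_fiberwise univ (fun h => QuotientGroup.mk' N h), mul_sum]
  apply sum_congr rfl
  intro k _
  have h1 : ∑ h ∈ univ.filter (fun h => QuotientGroup.mk' N h = k), f (QuotientGroup.mk' N h) =
      ∑ h ∈ univ.filter (fun h => QuotientGroup.mk' N h = k), f k := by
    apply sum_congr rfl
    intro h hh
    rw [(mem_filter.1 hh).2]
  rw [h1, sum_const, smul_eq_mul]
  congr 1
  have h2 := MonoidHom.card_fiber_eq_of_mem_range (QuotientGroup.mk' N) (x := k) (y := 1)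
    (QuotientGroup.mk'_surjective N k) ⟨1, map_one _⟩
  rw [h2, Nat.card_eq_fintype_card, ← Fintype.card_subtype]
  apply Fintype.card_congr
  refine Equiv.subtypeEquivRight fun x => ?_
  rw [QuotientGroup.mk'_apply, QuotientGroup.eq_one_iff]

lemma card_pre {H : Type} [Group H] [Finite H] (N : Subgroup H) [N.Normal] (P : H ⧸ N → Prop) :
    Nat.card {h : H // P (QuotientGroup.mk' N h)} = Nat.card N * Nat.card {k : H ⧸ N // P k} := by
  classical
  have := Fintype.ofFinite H
  have := Fintype.ofFinite (H ⧸ N)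
  have h := sum_quot N (fun k => if P k then 1 else 0)
  rw [sum_boole, sum_boole] at h
  rw [Nat.card_eq_fintype_card, Nat.card_eq_fintype_card (α := {k : H ⧸ N // P k}),
    Fintype.card_subtype, Fintype.card_subtype]
  simpa using h

lemma mem_ysub (M T : Subgroup G) [M.Normal] (N : Subgroup (T ⧸ M.subgroupOf T)) (y : G) :
    y ∈ ysub M T N ↔ ∃ h : y ∈ T, QuotientGroup.mk' (M.subgroupOf T) ⟨y, h⟩ ∈ N := by
  unfold ysub
  rw [Subgroup.mem_map]
  constructor
  · rintro ⟨s, hs, rfl⟩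
    exact ⟨s.2, hs⟩
  · rintro ⟨h, hN⟩
    exact ⟨⟨y, h⟩, hN, rfl⟩

lemma card_M (M T : Subgroup G) (h : M ≤ T) : Nat.card (M.subgroupOf T) = Nat.card M :=
  Nat.card_congr (Subgroup.subgroupOfEquivOfLe h).toEquiv

lemma conjq (M T : Subgroup G) [M.Normal] (N : Subgroup (T ⧸ M.subgroupOf T)) (t s : T)
    (h : (QuotientGroup.mk' (M.subgroupOf T) t)⁻¹ * QuotientGroup.mk' (M.subgroupOf T) s *
      QuotientGroup.mk' (M.subgroupOf T) t ∈ N) :
    QuotientGroup.mk' (M.subgroupOf T) (t⁻¹ * s * t) ∈ N := by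
  rw [map_mul, map_mul, map_inv]
  exact h

lemma ov_ysub [Finite G] (M T : Subgroup G) [M.Normal] (hMT : M ≤ T) (N : Subgroup (T ⧸ M.subgroupOf T))
    (t : T) : ov (ysub M T N) (t : G) =
      Nat.card M * ov N (QuotientGroup.mk' (M.subgroupOf T) t) := by
  unfold ov
  rw [← card_M M T hMT, ← card_pre (M.subgroupOf T) (fun k => k ∈ N ∧
    (QuotientGroup.mk' (M.subgroupOf T) t)⁻¹ * k * QuotientGroup.mk' (M.subgroupOf T) t ∈ N)]
  apply Nat.card_congr
  refine ⟨fun y => ⟨⟨y.1, ((mem_ysub M T N y.1).1 y.2.1).1⟩, ?_, ?_⟩,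
    fun s => ⟨(s.1 : G), ?_, ?_⟩, ?_, ?_⟩
  · exact ((mem_ysub M T N y.1).1 y.2.1).2
  · obtain ⟨h, hN⟩ := (mem_ysub M T N _).1 y.2.2
    rw [← map_inv, ← map_mul, ← map_mul]
    exact hN
  · exact (mem_ysub M T N _).2 ⟨s.1.2, s.2.1⟩
  · refine (mem_ysub M T N _).2 ⟨T.mul_mem (T.mul_mem (T.inv_mem t.2) s.1.2) t.2, ?_⟩
    exact conjq M T N t s.1 s.2.2
  · intro y; rfl
  · intro s; rfl

end OVKx

open OVKx in
theorem prf_OVK : S_OVK := by
  classical
  intro G _ _ M T _ _ hMT N
  have := Fintype.ofFinite T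
  have := Fintype.ofFinite (T ⧸ M.subgroupOf T)
  refine ⟨?_, ?_, ?_⟩
  · rw [← card_M M T hMT, show Nat.card N = Nat.card {k : T ⧸ M.subgroupOf T // k ∈ N} from rfl,
      ← card_pre (M.subgroupOf T) (fun k => k ∈ N)]
    apply Nat.card_congr
    refine ⟨fun y => ⟨⟨y.1, ((mem_ysub M T N y.1).1 y.2).1⟩, ((mem_ysub M T N y.1).1 y.2).2⟩,
      fun s => ⟨(s.1 : G), (mem_ysub M T N _).2 ⟨s.1.2, s.2⟩⟩, ?_, ?_⟩
    · intro y; rfl
    · intro s; rfl
  · have h := sum_quot (M.subgroupOf T) (fun _ => 1)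
    rw [card_M M T hMT] at h
    simpa [Nat.card_eq_fintype_card] using h
  · rw [finsum_eq_sum_of_fintype, finsum_eq_sum_of_fintype]
    simp_rw [ov_ysub M T hMT N]
    rw [← Finset.mul_sum, sum_quot (M.subgroupOf T) (fun k => ov N k), card_M M T hMT]
    ring

end Pool.Agent.RB

end

section

/-!
# Existence of a proper subgroup with a supplement
-/

set_option autoImplicit false
set_option linter.unusedSectionVars false

open Module Representation Pool.Agent.DC7914 Pool.Agent.RadIndex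

namespace Pool.Agent.RB

namespace YEXx

theorem perfect {G : Type} [Group G] (M T : Subgroup G) [M.Normal]
    (hT : T ≤ M ⊔ ⁅T, T⁆) : commutator (T ⧸ M.subgroupOf T) = ⊤ := by
  rw [eq_top_iff]
  intro k _
  obtain ⟨t, rfl⟩ := QuotientGroup.mk_surjective k
  have h1 := hT t.2
  rw [Subgroup.mem_sup_of_normal_left] at h1
  obtain ⟨m, hm, c, hc, hmc⟩ := h1
  have hc' : c ∈ (commutator T).map T.subtype := by
    rw [Subgroup.map_subtype_commutator]
    exact hc
  obtain ⟨c', hc1, hc2⟩ := hc'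
  have h2 : (QuotientGroup.mk t : T ⧸ M.subgroupOf T) = QuotientGroup.mk' (M.subgroupOf T) c' := by
    symm
    rw [QuotientGroup.mk'_apply, QuotientGroup.eq]
    rw [Subgroup.mem_subgroupOf]
    have h3 : ((c'⁻¹ * t : T) : G) = c⁻¹ * m * c := by
      rw [Subgroup.coe_mul, Subgroup.coe_inv, ← hmc]
      have : (c' : G) = c := hc2
      rw [this]
      group
    rw [h3]
    have := Subgroup.Normal.conj_mem (inferInstance : M.Normal) m hm c⁻¹
    simpa using this
  rw [h2]
  have h4 : (commutator T).map (QuotientGroup.mk' (M.subgroupOf T)) ≤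
      commutator (T ⧸ M.subgroupOf T) := by
    rw [commutator_def, commutator_def, Subgroup.map_commutator]
    exact Subgroup.commutator_mono le_top le_top
  exact h4 ⟨c', hc1, rfl⟩

end YEXx

theorem prf_YEX (hFR : S_FR) : S_YEX := by
  intro G _ _ M T _ _ hMT hne hT
  have hnt : Nontrivial (T ⧸ M.subgroupOf T) := by
    rw [QuotientGroup.nontrivial_iff]
    intro h
    rw [Subgroup.subgroupOf_eq_top] at h
    exact hne (le_antisymm hMT h)
  have hperf := YEXx.perfect M T hT
  have hex : ∃ (p : ℕ) (_ : Fact p.Prime) (Q : Sylow p (T ⧸ M.subgroupOf T)),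
      ¬ (Q : Subgroup (T ⧸ M.subgroupOf T)).Normal := by
    by_contra hcon
    push Not at hcon
    have h1 : Group.IsNilpotent (T ⧸ M.subgroupOf T) :=
      ((Group.isNilpotent_of_finite_tfae (G := T ⧸ M.subgroupOf T)).out 3 0).1 hcon
    have h3 := Group.IsSolvable.commutator_lt_top_of_nontrivial (T ⧸ M.subgroupOf T)
    rw [hperf] at h3
    exact lt_irrefl _ h3
  obtain ⟨p, hp, Q, hQ⟩ := hex
  obtain ⟨h1, h2, h3, h4⟩ := hFR G M T hMT p Q _ rfl
  refine ⟨_, _, h1, h2, ?_, h3, h4⟩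
  intro h
  apply hQ
  rw [← Subgroup.normalizer_eq_top_iff]
  rw [eq_top_iff]
  intro k _
  obtain ⟨t, rfl⟩ := QuotientGroup.mk_surjective k
  have h5 : (t : G) ∈ ysub M T (Subgroup.normalizer (Q : Set (T ⧸ M.subgroupOf T))) := by
    rw [h]
    exact t.2
  obtain ⟨s, hs1, hs2⟩ := h5
  have h6 : s = t := Subtype.ext hs2
  rw [← h6]
  exact hs1

end Pool.Agent.RB

end

section

/-!
# The project `RadicalBound`, item STEP
-/

set_option autoImplicit false

open Module Representation Pool.Agent.DC7914 Pool.Agent.RadIndex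

namespace Pool.Agent.RB

theorem STEPx.index_lt {G : Type} [Group G] [Finite G] {Y T : Subgroup G} (hYT : Y ≤ T)
    (hne : Y ≠ T) : T.index < Y.index := by
  have h1 := Subgroup.relIndex_mul_index hYT
  have h2 : Y.relIndex T ≠ 1 := by
    intro h
    rw [Subgroup.relIndex_eq_one] at h
    exact hne (le_antisymm hYT h)
  have h3 : Y.relIndex T ≠ 0 := by
    intro h
    rw [h, zero_mul] at h1
    exact Subgroup.index_ne_zero_of_finite h1.symm
  have h4 : 2 ≤ Y.relIndex T := by omega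
  have h5 : 0 < T.index := Nat.pos_of_ne_zero Subgroup.index_ne_zero_of_finite
  calc T.index < 2 * T.index := by omega
    _ ≤ Y.relIndex T * T.index := Nat.mul_le_mul_right _ h4
    _ = Y.index := h1

theorem prf_STEP (hLB : S_LB) (hUNI : S_UNI) (hDEG : S_DEG) (hYEX : S_YEX) : S_STEP := by
  intro G _ _ M T _ _ hMT hne hT Λ hΛ h0
  obtain ⟨Y, L, hMY, hYT, hYne, hLT, hLT'⟩ := hYEX G M T hMT hne hT
  obtain ⟨Λ1, hΛ1, hmin⟩ := Finset.exists_min_image (cls T Λ) dg ⟨Λ, self_mem_cls T hΛ⟩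
  rw [mem_cls] at hΛ1
  obtain ⟨hΛ1, hs⟩ := hΛ1
  have hcls : cls T Λ = cls T Λ1 := cls_eq hΛ hΛ1 hs
  have h01 : ip T Λ1 Λ1 = ip M Λ1 Λ1 := (b0_congr hMT hΛ hΛ1 hs).1 h0
  rw [hcls] at hmin ⊢
  have hlt : ∑ χ ∈ irrs G, ip T Λ1 χ * dg χ < ∑ χ ∈ irrs G, ip Y Λ1 χ * dg χ := by
    rw [hDEG G T Λ1 hΛ1, hDEG G Y Λ1 hΛ1]
    exact Nat.mul_lt_mul_of_pos_right (STEPx.index_lt hYT hYne) (dg_pos hΛ1)
  obtain ⟨χ₀, hχ₀, hlt0⟩ := Finset.exists_lt_of_sum_lt hlt
  have hχ : IsIrrChar χ₀ := mem_irrs.1 hχ₀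
  have hlt1 : ip T Λ1 χ₀ < ip Y Λ1 χ₀ := Nat.lt_of_mul_lt_mul_right hlt0
  have hns : ¬ sim T Λ1 χ₀ := by
    intro h
    have := b0_ip hMY hYT hΛ1 hχ h h01
    omega
  have hY0 : ip Y Λ1 χ₀ ≠ 0 := by omega
  have hM0 : ip M Λ1 χ₀ ≠ 0 := by
    have := ip_mono hMY hΛ1 hχ
    omega
  have hsM : sim M Λ1 χ₀ := sim_of_ip hΛ1 hχ hM0
  refine ⟨χ₀, hχ, sim_trans hΛ1 (sim_mono hMT hs) hsM, ?_, ?_⟩
  · intro h
    exact hns (hUNI G M T hMT hT Λ1 χ₀ hΛ1 hχ h01 h hM0)
  · have hb := hLB G M Y T L hMY hYT hLT hLT' Λ1 χ₀ hΛ1 hχ h01 hmin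
      (by rw [ip_comm]; exact hY0)
    have h1 := sim_ip le_rfl hχ hΛ1 hΛ1 (sim_symm hsM)
    have h2 : ip Y χ₀ Λ1 ≤ ip M Λ1 Λ1 * dg χ₀ := by
      calc ip Y χ₀ Λ1 ≤ ip M χ₀ Λ1 := ip_mono hMY hχ hΛ1
        _ ≤ ip M χ₀ Λ1 * dg Λ1 := Nat.le_mul_of_pos_right _ (dg_pos hΛ1)
        _ = _ := h1
    have h3 : 0 < ip M Λ1 Λ1 * dg χ₀ := Nat.mul_pos (ip_self_pos M hΛ1) (dg_pos hχ)
    apply Nat.le_of_mul_le_mul_left _ h3
    calc ip M Λ1 Λ1 * dg χ₀ * (cls T Λ1).card
        = (cls T Λ1).card * ip M Λ1 Λ1 * dg χ₀ := by ring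
      _ ≤ ip Y χ₀ Λ1 * ∑ χ ∈ cls T χ₀, dg χ := hb
      _ ≤ _ := Nat.mul_le_mul_right _ h2

end Pool.Agent.RB

end

section

/-! Project RadicalBound, item STEP2. -/

set_option autoImplicit false
set_option linter.unusedSectionVars false

open Module Representation Pool.Agent.DC7914 Pool.Agent.RadIndex

namespace Pool.Agent.RB

theorem prf_STEP2 (hSTEP : S_STEP) (hUNI : S_UNI) : S_STEP2 := by
  classical
  intro G _ _ M T _ _ hMT hne hT E hE hEM
  obtain ⟨E0, hE0⟩ : ∃ E0, E0 = E.filter (fun χ => ip T χ χ = ip M χ χ) := ⟨_, rfl⟩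
  obtain ⟨E1, hE1⟩ : ∃ E1, E1 = E.filter (fun χ => ip T χ χ ≠ ip M χ χ) := ⟨_, rfl⟩
  have g0 : ∀ χ ∈ E0, IsIrrChar χ ∧ χ ∈ E ∧ ip T χ χ = ip M χ χ := by
    intro χ hχ
    rw [hE0, Finset.mem_filter] at hχ
    exact ⟨hE χ hχ.1, hχ.1, hχ.2⟩
  have hcls : ∀ Λ ∈ E0, ∃ χ₀ : G → ℂ, IsIrrChar χ₀ ∧ sim M Λ χ₀ ∧ ip T χ₀ χ₀ ≠ ip M χ₀ χ₀ ∧
      (cls T Λ).card ≤ ∑ χ ∈ cls T χ₀, dg χ := by
    intro Λ hΛ
    obtain ⟨h1, h2, h3⟩ := g0 Λ hΛ
    exact hSTEP G M T hMT hne hT Λ h1 h3
  have hrep : ∀ C : Finset (G → ℂ), ∃ Λ χ₀ : G → ℂ, C ∈ E0.image (fun Λ => cls T Λ) →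
      (Λ ∈ E0 ∧ cls T Λ = C ∧ IsIrrChar χ₀ ∧ sim M Λ χ₀ ∧ ip T χ₀ χ₀ ≠ ip M χ₀ χ₀ ∧
        C.card ≤ ∑ χ ∈ cls T χ₀, dg χ) := by
    intro C
    by_cases hC : C ∈ E0.image (fun Λ => cls T Λ)
    · obtain ⟨Λ, hΛ, hΛC⟩ := Finset.mem_image.1 hC
      obtain ⟨χ₀, h1, h2, h3, h4⟩ := hcls Λ hΛ
      exact ⟨Λ, χ₀, fun _ => ⟨hΛ, hΛC, h1, h2, h3, hΛC ▸ h4⟩⟩
    · exact ⟨fun _ => 0, fun _ => 0, fun h => absurd h hC⟩
  choose Λf χf hf using hrep
  have hcard : E0.card ≤ ∑ C ∈ E0.image (fun Λ => cls T Λ), ∑ χ ∈ cls T (χf C), dg χ := by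
    have h1 : E0 ⊆ (E0.image (fun Λ => cls T Λ)).biUnion id := by
      intro Λ hΛ
      rw [Finset.mem_biUnion]
      exact ⟨cls T Λ, Finset.mem_image_of_mem _ hΛ, self_mem_cls T (g0 Λ hΛ).1⟩
    refine (Finset.card_le_card h1).trans (Finset.card_biUnion_le.trans ?_)
    exact Finset.sum_le_sum (fun C hC => (hf C hC).2.2.2.2.2)
  have hdisj : ∀ C ∈ E0.image (fun Λ => cls T Λ), ∀ C' ∈ E0.image (fun Λ => cls T Λ), C ≠ C' →
      Disjoint (cls T (χf C)) (cls T (χf C')) := by
    intro C hC C' hC' hCC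
    rw [Finset.disjoint_left]
    intro θ hθ hθ'
    obtain ⟨a1, a2, a3, a4, a5, a6⟩ := hf C hC
    obtain ⟨b1, b2, b3, b4, b5, b6⟩ := hf C' hC'
    rw [mem_cls] at hθ hθ'
    have c1 : sim T (χf C) (χf C') := sim_trans hθ.1 hθ.2 (sim_symm hθ'.2)
    have c2 : sim M (χf C) (χf C') := sim_mono hMT c1
    have c3 : sim M (Λf C) (χf C') := sim_trans a3 a4 c2
    have c4 : sim M (Λf C) (Λf C') := sim_trans b3 c3 (sim_symm b4)
    have d1 := g0 _ a1
    have d2 := g0 _ b1
    have c5 : ip M (Λf C) (Λf C') ≠ 0 := ip_ne_zero_of_sim d1.1 d2.1 c4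
    have c6 : sim T (Λf C) (Λf C') :=
      hUNI G M T hMT hT (Λf C) (Λf C') d1.1 d2.1 d1.2.2 d2.2.2 c5
    apply hCC
    rw [← a2, ← b2]
    exact cls_eq d1.1 d2.1 c6
  have hsub : (E0.image (fun Λ => cls T Λ)).biUnion (fun C => cls T (χf C)) ⊆ E1 := by
    intro θ hθ
    rw [Finset.mem_biUnion] at hθ
    obtain ⟨C, hC, hθC⟩ := hθ
    obtain ⟨a1, a2, a3, a4, a5, a6⟩ := hf C hC
    have d1 := g0 _ a1
    rw [mem_cls] at hθC
    have c1 : χf C ∈ E := hEM _ d1.2.1 (mem_cls.2 ⟨a3, a4⟩)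
    have c2 : θ ∈ E := hEM _ c1 (mem_cls.2 ⟨hθC.1, sim_mono hMT hθC.2⟩)
    rw [hE1, Finset.mem_filter]
    refine ⟨c2, ?_⟩
    intro h
    exact a5 ((b0_congr hMT a3 hθC.1 hθC.2).2 h)
  rw [← hE0, ← hE1]
  calc E0.card ≤ ∑ C ∈ E0.image (fun Λ => cls T Λ), ∑ χ ∈ cls T (χf C), dg χ := hcard
    _ = ∑ χ ∈ (E0.image (fun Λ => cls T Λ)).biUnion (fun C => cls T (χf C)), dg χ := by
        rw [Finset.sum_biUnion]
        intro C hC C' hC' hCC
        exact hdisj C (Finset.mem_coe.1 hC) C' (Finset.mem_coe.1 hC') hCC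
    _ ≤ ∑ χ ∈ E1, dg χ := Finset.sum_le_sum_of_subset hsub

end Pool.Agent.RB

end

section

/-!
# Item COMB: the counting argument of Part 2
-/

set_option autoImplicit false

open Module Representation Pool.Agent.DC7914 Pool.Agent.RadIndex

namespace Pool.Agent.RB

namespace COMBx

open Finset

variable {α : Type} {m : ℕ}

/-- the pairs `(S, j)` with `j ∉ S`, `#S < L` -/
def PP (m L : ℕ) : Finset (Finset (Fin m) × Fin m) :=
  univ.filter (fun p => p.1.card < L ∧ p.2 ∉ p.1)

lemma low (L : ℕ) (hLm : L ≤ m) (T : Finset (Fin m)) (hT : T.card < L) :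
    m - L + 1 ≤ ((PP m L).filter (fun p => T = p.1)).card := by
  have h1 : (Tᶜ).card = m - T.card := by rw [card_compl, Fintype.card_fin]
  have h2 : (Tᶜ).card ≤ ((PP m L).filter (fun p => T = p.1)).card := by
    refine card_le_card_of_injOn (fun j => (T, j)) ?_ ?_
    · intro j hj
      have hj' : j ∉ T := by simpa using hj
      simp only [PP, coe_filter, mem_filter, mem_univ, true_and, Set.mem_ofPred_eq, and_true]
      exact ⟨hT, hj'⟩
    · intro j _ j' _ h
      exact (Prod.mk.inj h).2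
  have h3 : T.card ≤ m := by
    have := card_le_univ T
    simpa using this
  omega

lemma up (L : ℕ) (T : Finset (Fin m)) :
    ((PP m L).filter (fun p => T = insert p.2 p.1)).card ≤ L := by
  rcases ((PP m L).filter (fun p => T = insert p.2 p.1)).eq_empty_or_nonempty with h0 | ⟨p0, hp0⟩
  · rw [h0]; simp
  · have h1 : T.card ≤ L := by
      simp only [PP, mem_filter, mem_univ, true_and] at hp0
      obtain ⟨⟨h2, h3⟩, h4⟩ := hp0
      rw [h4, card_insert_of_notMem h3]
      omega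
    refine le_trans ?_ h1
    refine card_le_card_of_injOn (fun p => p.2) ?_ ?_
    · intro p hp
      simp only [PP, coe_filter, mem_filter, mem_univ, true_and, Set.mem_ofPred_eq] at hp
      obtain ⟨-, h4⟩ := hp
      rw [h4]
      simp
    · intro p hp p' hp' h
      simp only [PP, coe_filter, mem_filter, mem_univ, true_and, Set.mem_ofPred_eq] at hp hp'
      obtain ⟨⟨-, h3⟩, h4⟩ := hp
      obtain ⟨⟨-, h3'⟩, h4'⟩ := hp'
      have e1 : p.1 = T.erase p.2 := by rw [h4, erase_insert h3]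
      have e2 : p'.1 = T.erase p'.2 := by rw [h4', erase_insert h3']
      have h' : p.2 = p'.2 := h
      refine Prod.ext ?_ h'
      rw [e1, e2, h']

lemma double (D : Finset α) (J : α → Finset (Fin m)) (d : α → ℕ) (L : ℕ) (hLm : L ≤ m)
    (h : ∀ (S : Finset (Fin m)) (j : Fin m), j ∉ S → (D.filter (fun χ => J χ = S)).card ≤
        ∑ χ ∈ D.filter (fun χ => J χ = insert j S), d χ) :
    (m - L + 1) * (D.filter (fun χ => (J χ).card < L)).card ≤ L * ∑ χ ∈ D, d χ := by
  have h1 : ∑ p ∈ PP m L, (D.filter (fun χ => J χ = p.1)).card ≤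
      ∑ p ∈ PP m L, ∑ χ ∈ D.filter (fun χ => J χ = insert p.2 p.1), d χ := by
    refine sum_le_sum fun p hp => h p.1 p.2 ?_
    simp only [PP, mem_filter, mem_univ, true_and] at hp
    exact hp.2
  have h2 : (m - L + 1) * (D.filter (fun χ => (J χ).card < L)).card ≤
      ∑ p ∈ PP m L, (D.filter (fun χ => J χ = p.1)).card := by
    have e1 : ∑ p ∈ PP m L, (D.filter (fun χ => J χ = p.1)).card =
        ∑ χ ∈ D, ((PP m L).filter (fun p => J χ = p.1)).card := by
      simp only [card_filter]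
      exact sum_comm
    rw [e1]
    calc (m - L + 1) * (D.filter (fun χ => (J χ).card < L)).card
        = ∑ χ ∈ D.filter (fun χ => (J χ).card < L), (m - L + 1) := by
          rw [sum_const, smul_eq_mul, mul_comm]
      _ ≤ ∑ χ ∈ D.filter (fun χ => (J χ).card < L),
            ((PP m L).filter (fun p => J χ = p.1)).card := by
          refine sum_le_sum fun χ hχ => low L hLm (J χ) ?_
          rw [mem_filter] at hχ
          exact hχ.2
      _ ≤ _ := sum_le_sum_of_subset (filter_subset _ _)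
  have h3 : ∑ p ∈ PP m L, ∑ χ ∈ D.filter (fun χ => J χ = insert p.2 p.1), d χ ≤
      L * ∑ χ ∈ D, d χ := by
    have e1 : ∑ p ∈ PP m L, ∑ χ ∈ D.filter (fun χ => J χ = insert p.2 p.1), d χ =
        ∑ χ ∈ D, ((PP m L).filter (fun p => J χ = insert p.2 p.1)).card * d χ := by
      simp only [sum_filter, card_filter, sum_mul, ite_mul, one_mul, zero_mul]
      exact sum_comm
    rw [e1, mul_sum]
    exact sum_le_sum fun χ _ => Nat.mul_le_mul_right _ (up L (J χ))
  exact h2.trans (h1.trans h3)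

end COMBx

theorem prf_COMB : S_COMB := by
  intro α D m A J d hne hsum hd hJ hstep
  by_contra hm
  rw [not_lt] at hm
  obtain ⟨L, hL⟩ : ∃ L, L = (2 * A + 1) ^ 4 := ⟨_, rfl⟩
  have hL1 : 1 ≤ L := by rw [hL]; exact Nat.one_le_pow _ _ (by omega)
  have hmL : (2 * A + 1) * L ≤ m := by
    rw [hL]
    calc (2 * A + 1) * (2 * A + 1) ^ 4 = (2 * A + 1) ^ 5 := by ring
      _ ≤ m := hm
  have hLm : L ≤ m := by
    refine le_trans ?_ hmL
    exact Nat.le_mul_of_pos_left L (by omega)
  have h1 := COMBx.double D J d L hLm hstep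
  have hmL2 : 2 * A * L + 1 ≤ m - L + 1 := by
    have : 2 * A * L + L ≤ m := by
      calc 2 * A * L + L = (2 * A + 1) * L := by ring
        _ ≤ m := hmL
    omega
  set N := (D.filter (fun χ => (J χ).card < L)).card with hN
  set N' := (D.filter (fun χ => ¬ (J χ).card < L)).card with hN'
  have hcard : N + N' = D.card := Finset.card_filter_add_card_filter_not _
  have h2 : (2 * A * L + 1) * N ≤ L * (A * D.card) :=
    calc (2 * A * L + 1) * N ≤ (m - L + 1) * N := Nat.mul_le_mul_right _ hmL2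
      _ ≤ L * ∑ χ ∈ D, d χ := h1
      _ ≤ L * (A * D.card) := Nat.mul_le_mul_left _ hsum
  have h3 : (2 * A + 1) * N' ≤ A * D.card := by
    calc (2 * A + 1) * N' = ∑ χ ∈ D.filter (fun χ => ¬ (J χ).card < L), (2 * A + 1) := by
          rw [Finset.sum_const, smul_eq_mul, mul_comm]
      _ ≤ ∑ χ ∈ D.filter (fun χ => ¬ (J χ).card < L), d χ := by
          refine Finset.sum_le_sum fun χ hχ => ?_
          rw [Finset.mem_filter, not_lt] at hχ
          have h4 := hJ χ hχ.1
          have h5 : (2 * A + 1) ^ 4 ≤ d χ ^ 4 := by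
            rw [← hL]
            exact hχ.2.trans h4
          exact (Nat.pow_le_pow_iff_left (by norm_num)).1 h5
      _ ≤ ∑ χ ∈ D, d χ := Finset.sum_le_sum_of_subset (Finset.filter_subset _ _)
      _ ≤ A * D.card := hsum
  have hpos : 0 < D.card := hne.card_pos
  have h4 : L * ((2 * A + 1) * N') ≤ L * (A * D.card) := Nat.mul_le_mul_left _ h3
  have h5 : 2 * (L * (A * D.card)) + N + L * N' ≤ 2 * (L * (A * D.card)) := by
    calc 2 * (L * (A * D.card)) + N + L * N' = (2 * A * L + 1) * N + L * ((2 * A + 1) * N') := by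
          rw [← hcard]; ring
      _ ≤ L * (A * D.card) + L * (A * D.card) := Nat.add_le_add h2 h4
      _ = _ := by ring
  have h6 : N + L * N' = 0 := by omega
  have h7 : N = 0 := by omega
  have h8 : L * N' = 0 := by omega
  have h9 : N' = 0 := by
    rcases Nat.mul_eq_zero.1 h8 with h | h
    · omega
    · exact h
  omega

end Pool.Agent.RB

end

section

/-!
# Minimal normal subgroups over `M`: perfect, and without solvable normal subgroups
-/

set_option autoImplicit false
set_option linter.unusedSectionVars false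

open Module Representation Pool.Agent.DC7914 Pool.Agent.RadIndex
open scoped commutatorElement

namespace Pool.Agent.RB

namespace M1x

/-- the join of two solvable normal subgroups is solvable -/
theorem sup_solvable {K : Type} [Group K] (A B : Subgroup K) [A.Normal] [hBn : B.Normal]
    (hA : Group.IsSolvable A) (hB : Group.IsSolvable B) :
    Group.IsSolvable (A ⊔ B : Subgroup K) := by
  rw [Group.isSolvable_iff_subgroup_quotient (B.subgroupOf (A ⊔ B))]
  constructor
  · exact Group.isSolvable_of_isSolvable_injective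
      (f := (Subgroup.subgroupOfEquivOfLe (le_sup_right : B ≤ A ⊔ B)).toMonoidHom)
      (Subgroup.subgroupOfEquivOfLe (le_sup_right : B ≤ A ⊔ B)).injective
  · exact Group.isSolvable_of_surjective
      (f := (QuotientGroup.quotientInfEquivProdNormalQuotient A B).toMonoidHom)
      (QuotientGroup.quotientInfEquivProdNormalQuotient A B).surjective

/-- the solvable radical of a finite group -/
theorem exists_rad (K : Type) [Group K] [Finite K] : ∃ S : Subgroup K, S.Normal ∧
    Group.IsSolvable S ∧ ∀ N : Subgroup K, N.Normal → Group.IsSolvable N → N ≤ S := by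
  let P : Set (Subgroup K) := {S | S.Normal ∧ Group.IsSolvable S}
  have hfin : P.Finite := Set.toFinite P
  have hne : P.Nonempty := ⟨⊥, Subgroup.normal_bot, inferInstance⟩
  obtain ⟨S, hS⟩ := hfin.exists_maximal hne
  refine ⟨S, hS.1.1, hS.1.2, fun N hN hN' => ?_⟩
  have h1 := hS.1.1
  have h2 : S ⊔ N ∈ P := ⟨inferInstance, sup_solvable S N hS.1.2 hN'⟩
  exact le_sup_right.trans (hS.2 h2 le_sup_left)

/-- the image of a characteristic-like subgroup under an automorphism -/
theorem rad_map {K : Type} [Group K] {S : Subgroup K} (hS : S.Normal)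
    (hS' : Group.IsSolvable S)
    (hmax : ∀ N : Subgroup K, N.Normal → Group.IsSolvable N → N ≤ S) (φ : K ≃* K) {x : K}
    (hx : x ∈ S) : φ x ∈ S := by
  have h1 : (S.map φ.toMonoidHom).Normal := hS.map φ.toMonoidHom φ.surjective
  have h2 : Group.IsSolvable (S.map φ.toMonoidHom) :=
    Group.isSolvable_of_surjective (f := (φ.toMonoidHom.subgroupMap S))
      (φ.toMonoidHom.subgroupMap_surjective S)
  exact hmax _ h1 h2 ⟨x, hx, rfl⟩

theorem mem_ysub {G : Type} [Group G] {M T : Subgroup G} [M.Normal]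
    {N : Subgroup (T ⧸ M.subgroupOf T)} {x : G} :
    x ∈ ysub M T N ↔ ∃ h : x ∈ T, QuotientGroup.mk' (M.subgroupOf T) ⟨x, h⟩ ∈ N := by
  unfold ysub
  rw [Subgroup.mem_map]
  constructor
  · rintro ⟨t, ht, rfl⟩
    exact ⟨t.2, ht⟩
  · rintro ⟨h, h'⟩
    exact ⟨⟨x, h⟩, h', rfl⟩

theorem perfect {G : Type} [Group G] {M T : Subgroup G} [M.Normal] (hab : NoAb (G ⧸ M))
    (hm : MinOver M T) : T ≤ M ⊔ ⁅T, T⁆ := by
  obtain ⟨hT, hMT, hne, hmin⟩ := hm
  have hN : (M ⊔ ⁅T, T⁆).Normal := inferInstance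
  rcases hmin (M ⊔ ⁅T, T⁆) hN le_sup_left (sup_le hMT (Subgroup.commutator_le_left T T)) with h | h
  · exfalso
    apply hne
    have h1 : ⁅T, T⁆ ≤ M := by
      rw [← h]
      exact le_sup_right
    have h2 : (T.map (QuotientGroup.mk' M)).Normal :=
      hT.map _ (QuotientGroup.mk'_surjective M)
    have h3 := hab _ h2 (by
      rintro _ ⟨x, hx, rfl⟩ _ ⟨y, hy, rfl⟩
      rw [← map_mul, ← map_mul, QuotientGroup.mk'_eq_mk']
      refine ⟨⁅y⁻¹, x⁻¹⁆, h1 (Subgroup.commutator_mem_commutator (T.inv_mem hy) (T.inv_mem hx)),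
        ?_⟩
      rw [commutatorElement_def]
      group)
    refine le_antisymm (fun x hx => ?_) hMT
    have h4 : QuotientGroup.mk' M x ∈ T.map (QuotientGroup.mk' M) := ⟨x, hx, rfl⟩
    rw [h3, Subgroup.mem_bot] at h4
    exact (QuotientGroup.eq_one_iff x).1 h4
  · exact h.ge

end M1x

theorem prf_M1 : S_M1 := by
  intro G _ _ M T _ hab hm
  have hperf := M1x.perfect hab hm
  refine ⟨hperf, fun N hN hN' => ?_⟩
  obtain ⟨hT, hMT, hne, hmin⟩ := hm
  obtain ⟨S, hS, hS', hmax⟩ := M1x.exists_rad (T ⧸ M.subgroupOf T)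
  -- the preimage of the radical
  have hY : (ysub M T S).Normal := by
    refine ⟨fun x hx g => ?_⟩
    rw [M1x.mem_ysub] at hx ⊢
    obtain ⟨hxT, hx⟩ := hx
    refine ⟨hT.conj_mem x hxT g, ?_⟩
    have hle : (M.subgroupOf T).map (MulAut.conjNormal g : MulAut T).toMonoidHom =
        M.subgroupOf T := by
      ext y
      rw [Subgroup.mem_map, Subgroup.mem_subgroupOf]
      constructor
      · rintro ⟨z, hz, rfl⟩
        rw [Subgroup.mem_subgroupOf] at hz
        change ((MulAut.conjNormal g z : T) : G) ∈ M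
        rw [MulAut.conjNormal_apply]
        exact Subgroup.Normal.conj_mem inferInstance _ hz g
      · intro hy
        refine ⟨(MulAut.conjNormal g).symm y, ?_, ?_⟩
        · rw [Subgroup.mem_subgroupOf, MulAut.conjNormal_symm_apply]
          have := Subgroup.Normal.conj_mem (inferInstance : M.Normal) _ hy g⁻¹
          rwa [inv_inv] at this
        · exact (MulAut.conjNormal g : MulAut T).apply_symm_apply y
    have h1 := M1x.rad_map hS hS' hmax
      (QuotientGroup.congr (M.subgroupOf T) (M.subgroupOf T) (MulAut.conjNormal g : MulAut T) hle)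
      hx
    have h2 : QuotientGroup.congr (M.subgroupOf T) (M.subgroupOf T)
        (MulAut.conjNormal g : MulAut T) hle (QuotientGroup.mk' (M.subgroupOf T) ⟨x, hxT⟩) =
        QuotientGroup.mk' (M.subgroupOf T) ⟨g * x * g⁻¹, hT.conj_mem x hxT g⟩ := by
      rfl
    rw [h2] at h1
    exact h1
  have hMY : M ≤ ysub M T S := by
    intro x hx
    rw [M1x.mem_ysub]
    refine ⟨hMT hx, ?_⟩
    have : QuotientGroup.mk' (M.subgroupOf T) ⟨x, hMT hx⟩ = 1 :=
      (QuotientGroup.eq_one_iff _).2 (Subgroup.mem_subgroupOf.2 hx)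
    rw [this]
    exact S.one_mem
  have hYT : ysub M T S ≤ T := fun x hx => (M1x.mem_ysub.1 hx).1
  rcases hmin _ hY hMY hYT with h | h
  · rw [eq_bot_iff]
    intro k hk
    obtain ⟨t, rfl⟩ := QuotientGroup.mk'_surjective (M.subgroupOf T) k
    have h1 : (t : G) ∈ ysub M T S := M1x.mem_ysub.2 ⟨t.2, hmax N hN hN' hk⟩
    rw [h] at h1
    rw [Subgroup.mem_bot]
    exact (QuotientGroup.eq_one_iff _).2 (Subgroup.mem_subgroupOf.2 h1)
  · exfalso
    have hS1 : S = ⊤ := by
      rw [eq_top_iff]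
      intro k _
      obtain ⟨t, rfl⟩ := QuotientGroup.mk'_surjective (M.subgroupOf T) k
      have h1 : (t : G) ∈ ysub M T S := by
        rw [h]
        exact t.2
      exact (M1x.mem_ysub.1 h1).2
    have hsol : Group.IsSolvable (T ⧸ M.subgroupOf T) := by
      rw [hS1] at hS'
      exact Group.isSolvable_of_surjective
        (f := (Subgroup.topEquiv (G := T ⧸ M.subgroupOf T)).toMonoidHom)
        Subgroup.topEquiv.surjective
    have hnt : Nontrivial (T ⧸ M.subgroupOf T) := by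
      by_contra hcon
      rw [not_nontrivial_iff_subsingleton] at hcon
      apply hne
      refine le_antisymm (fun x hx => ?_) hMT
      have h1 : QuotientGroup.mk' (M.subgroupOf T) ⟨x, hx⟩ = 1 := Subsingleton.elim _ _
      exact Subgroup.mem_subgroupOf.1 ((QuotientGroup.eq_one_iff _).1 h1)
    have hlt := Group.IsSolvable.commutator_lt_top_of_nontrivial (T ⧸ M.subgroupOf T)
    apply hlt.ne
    rw [eq_top_iff]
    intro k _
    obtain ⟨t, rfl⟩ := QuotientGroup.mk'_surjective (M.subgroupOf T) k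
    have h1 := hperf t.2
    rw [Subgroup.mem_sup_of_normal_left] at h1
    obtain ⟨m, hm, c, hc, hmc⟩ := h1
    rw [← Subgroup.map_subtype_commutator] at hc
    obtain ⟨c', hc', rfl⟩ := hc
    have h2 : t = ⟨m, hMT hm⟩ * c' := Subtype.ext hmc.symm
    have h3 : QuotientGroup.mk' (M.subgroupOf T) ⟨m, hMT hm⟩ = 1 :=
      (QuotientGroup.eq_one_iff _).2 (Subgroup.mem_subgroupOf.2 hm)
    rw [h2, map_mul, h3, one_mul]
    have h4 : (commutator T).map (QuotientGroup.mk' (M.subgroupOf T)) ≤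
        commutator (T ⧸ M.subgroupOf T) := by
      rw [commutator_def, commutator_def, Subgroup.map_commutator]
      exact Subgroup.commutator_mono le_top le_top
    exact h4 ⟨c', hc', rfl⟩

end Pool.Agent.RB

end

section

/-!
# Item M2: different minimal normal subgroups commute
-/

set_option autoImplicit false

open Module Representation Pool.Agent.DC7914 Pool.Agent.RadIndex

namespace Pool.Agent.RB

theorem prf_M2 : S_M2 := by
  intro G _ _ M T T' _ hT hT' hne
  obtain ⟨hTn, hMT, hTM, hmin⟩ := hT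
  obtain ⟨hTn', hMT', hTM', hmin'⟩ := hT'
  have hn : (T ⊓ T').Normal := inferInstance
  have h1 := hmin (T ⊓ T') hn (le_inf hMT hMT') inf_le_left
  have h2 : T ⊓ T' = M := by
    rcases h1 with h1 | h1
    · exact h1
    · exfalso
      have h3 : T ≤ T' := by rw [← h1]; exact inf_le_right
      rcases hmin' T hTn hMT h3 with h4 | h4
      · exact hTM h4
      · exact hne h4
  calc ⁅T, T'⁆ ≤ T ⊓ T' := Subgroup.commutator_le_inf T T'
    _ = M := h2

end Pool.Agent.RB

end

section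

set_option autoImplicit false

open Module Representation Pool.Agent.DC7914 Pool.Agent.RadIndex

namespace Pool.Agent.RB

namespace M3x

lemma iSup_normal' {G : Type} [Group G] {ι : Type} (f : ι → Subgroup G)
    (h : ∀ i, (f i).Normal) : (⨆ i, f i).Normal := by
  have : (⨆ i, f i) = Subgroup.normalClosure (⋃ i, (f i : Set G)) := by
    apply le_antisymm
    · apply iSup_le
      intro i x hx
      exact Subgroup.subset_normalClosure (Set.mem_iUnion.2 ⟨i, hx⟩)
    · rw [Subgroup.normalClosure, Subgroup.closure_le]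
      intro x hx
      rw [Group.mem_conjugatesOfSet_iff] at hx
      obtain ⟨a, ha, hc⟩ := hx
      rw [Set.mem_iUnion] at ha
      obtain ⟨i, hi⟩ := ha
      obtain ⟨c, rfl⟩ := isConj_iff.1 hc
      exact Subgroup.mem_iSup_of_mem i ((h i).conj_mem _ hi c)
  rw [this]
  exact Subgroup.normalClosure_normal

/-- `⁅H, K⁆ ≤ M` in terms of the centraliser modulo `M` -/
lemma comm_iff {G : Type} [Group G] (M H K : Subgroup G) [M.Normal] :
    ⁅H, K⁆ ≤ M ↔ H ≤ (Subgroup.centralizer
      ((K.map (QuotientGroup.mk' M) : Subgroup (G ⧸ M)) : Set (G ⧸ M))).comap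
        (QuotientGroup.mk' M) := by
  rw [← Subgroup.map_le_iff_le_comap, ← Subgroup.commutator_eq_bot_iff_le_centralizer,
    ← Subgroup.map_commutator, Subgroup.map_eq_bot_iff, QuotientGroup.ker_mk']

end M3x

theorem prf_M3 (hM2 : S_M2) : S_M3 := by
  intro G _ _ M _ m T hT hinj hperf j
  have hTn : ∀ i, (T i).Normal := fun i => (hT i).1
  let S : Subgroup G := ⨆ i : {i : Fin m // i ≠ j}, T i.1
  have hSn : S.Normal := M3x.iSup_normal' _ (fun i => hTn i.1)
  have hM'n : (M ⊔ S).Normal := inferInstance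
  have hTj : (T j).Normal := hTn j
  refine ⟨M ⊔ S, (M ⊔ S) ⊔ T j, hM'n, inferInstance, le_sup_left, ?_, rfl, ?_, ?_⟩
  · intro i hi
    exact le_trans (le_iSup (fun i : {i : Fin m // i ≠ j} => T i.1) ⟨i, hi⟩) le_sup_right
  · intro he
    have h1 : T j ≤ M ⊔ S := by
      rw [he]; exact le_sup_right
    have h2 : M ⊔ S ≤ (Subgroup.centralizer
      (((T j).map (QuotientGroup.mk' M) : Subgroup (G ⧸ M)) : Set (G ⧸ M))).comap
        (QuotientGroup.mk' M) := by
      refine sup_le ?_ (iSup_le ?_)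
      · rw [← M3x.comm_iff]
        exact Subgroup.commutator_le_left M (T j)
      · intro i
        rw [← M3x.comm_iff]
        exact hM2 G M (T i.1) (T j) (hT i.1) (hT j) (fun h => i.2 (hinj h))
    have h3 : ⁅T j, T j⁆ ≤ M := (M3x.comm_iff M (T j) (T j)).2 (le_trans h1 h2)
    have h4 : T j ≤ M := by
      refine le_trans (hperf j) (sup_le le_rfl h3)
    exact (hT j).2.2.1 (le_antisymm h4 (hT j).2.1)
  · refine sup_le le_sup_left ?_
    refine le_trans (hperf j) (sup_le_sup le_sup_left ?_)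
    exact Subgroup.commutator_mono le_sup_right le_sup_right

end Pool.Agent.RB

end

section

/-!
# The project `RadicalBound`, item P2
-/

set_option autoImplicit false

open Module Representation Pool.Agent.DC7914 Pool.Agent.RadIndex

namespace Pool.Agent.RB

theorem prf_P2 (hAVG : S_AVG) (hJB : S_JB) (hMUL : S_MUL) (hSTEP2 : S_STEP2) (hCOMB : S_COMB)
    (hM2 : S_M2) (hM3 : S_M3) : S_P2 := by
  classical
  intro G _ _ M _ m A T hmin hinj hper hA
  obtain ⟨θ, hθ, hsum⟩ := hAVG G M A hA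
  let J : (G → ℂ) → Finset (Fin m) := fun χ =>
    Finset.univ.filter (fun i => ip (T i) χ χ ≠ ip M χ χ)
  have hJ : ∀ χ i, i ∈ J χ ↔ ip (T i) χ χ ≠ ip M χ χ := by
    intro χ i
    simp only [J, Finset.mem_filter, Finset.mem_univ, true_and]
  have hMT : ∀ i, M ≤ T i := fun i => (hmin i).2.1
  refine hCOMB (G → ℂ) (cls M θ) m A J dg ⟨θ, self_mem_cls M hθ⟩ hsum
    (fun χ hχ => dg_pos (mem_cls.1 hχ).1) ?_ ?_
  · intro χ hχ
    have := hJB G M m T hMT hper
      (fun i j hij => hM2 G M (T i) (T j) (hmin i) (hmin j) (fun h => hij (hinj h))) χ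
      (mem_cls.1 hχ).1
    convert this using 2
  · intro S j hj
    obtain ⟨M', T', hM'n, hT'n, hMM', hiM', hT', hne, hperf⟩ := hM3 G M m T hmin hinj hper j
    set E : Finset (G → ℂ) := (cls M θ).filter (fun χ => (J χ).erase j = S) with hE
    have hE1 : ∀ χ ∈ E, IsIrrChar χ := fun χ hχ => (mem_cls.1 (Finset.mem_filter.1 hχ).1).1
    have hM'T' : M' ≤ T' := by rw [← hT']; exact le_sup_left
    have hE2 : ∀ χ ∈ E, cls M' χ ⊆ E := by
      intro χ hχ ψ hψ
      have hχi := hE1 χ hχ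
      obtain ⟨hψi, hs⟩ := mem_cls.1 hψ
      rw [hE, Finset.mem_filter] at hχ ⊢
      refine ⟨mem_cls.2 ⟨hψi, sim_trans hχi (mem_cls.1 hχ.1).2 (sim_mono hMM' hs)⟩, ?_⟩
      rw [← hχ.2]
      ext i
      rw [Finset.mem_erase, Finset.mem_erase, hJ, hJ]
      refine and_congr_right fun hij => not_congr ?_
      exact (b0_congr (hMT i) hχi hψi (sim_mono (hiM' i hij) hs)).symm
    have hst := hSTEP2 G M' T' hM'T' hne hperf E hE1 hE2
    have hmul : ∀ χ ∈ E, j ∉ J χ → ip T' χ χ = ip M' χ χ := by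
      intro χ hχ hjn
      rw [hJ, not_not] at hjn
      have := hMUL G M M' (T j) hMM' (hMT j) χ (hE1 χ hχ) hjn
      rwa [hT'] at this
    refine le_trans (Finset.card_le_card ?_) (hst.trans (Finset.sum_le_sum_of_subset ?_))
    · intro χ hχ
      rw [Finset.mem_filter] at hχ
      have hjn : j ∉ J χ := by rw [hχ.2]; exact hj
      have hχE : χ ∈ E := by
        rw [hE, Finset.mem_filter]
        refine ⟨hχ.1, ?_⟩
        rw [Finset.erase_eq_of_notMem hjn, hχ.2]
      rw [Finset.mem_filter]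
      exact ⟨hχE, hmul χ hχE hjn⟩
    · intro χ hχ
      rw [Finset.mem_filter] at hχ
      have hjJ : j ∈ J χ := by
        by_contra h
        exact hχ.2 (hmul χ hχ.1 h)
      have hχE := hχ.1
      rw [hE, Finset.mem_filter] at hχE
      rw [Finset.mem_filter]
      refine ⟨hχE.1, ?_⟩
      rw [← hχE.2, Finset.insert_erase hjJ]

end Pool.Agent.RB

end

section

/-!
# Part 3: from the minimal normal subgroups to the group
-/

set_option autoImplicit false

open Module Representation Pool.Agent.DC7914 Pool.Agent.RadIndex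

namespace Pool.Agent.RB

namespace P3x

variable {G : Type} [Group G]

lemma card_map (M T : Subgroup G) [M.Normal] :
    Nat.card (T.map (QuotientGroup.mk' M)) = Nat.card (T ⧸ M.subgroupOf T) := by
  have h := Subgroup.relIndex_ker T (QuotientGroup.mk' M)
  rw [QuotientGroup.ker_mk'] at h
  rw [← h]
  rfl

/-- the conjugation action of `G` on `T / M` -/
def act (M T : Subgroup G) [M.Normal] (hT : T.Normal) :
    G →* MulAut (T.map (QuotientGroup.mk' M)) :=
  haveI : (T.map (QuotientGroup.mk' M)).Normal :=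
    hT.map _ (QuotientGroup.mk'_surjective M)
  (MulAut.conjNormal (H := T.map (QuotientGroup.mk' M))).comp (QuotientGroup.mk' M)

lemma act_eq_one {M T : Subgroup G} [M.Normal] {hT : T.Normal} {g : G}
    (h : act M T hT g = 1) : ∀ x ∈ T, (QuotientGroup.mk' M g) * (QuotientGroup.mk' M x) =
      (QuotientGroup.mk' M x) * (QuotientGroup.mk' M g) := by
  intro x hx
  have : (T.map (QuotientGroup.mk' M)).Normal :=
    hT.map _ (QuotientGroup.mk'_surjective M)
  have h1 := congrArg (fun f : MulAut (T.map (QuotientGroup.mk' M)) =>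
    ((f ⟨QuotientGroup.mk' M x, Subgroup.mem_map_of_mem _ hx⟩ : T.map (QuotientGroup.mk' M)) : G ⧸ M)) h
  have h2 : (QuotientGroup.mk' M g) * (QuotientGroup.mk' M x) * (QuotientGroup.mk' M g)⁻¹ =
      QuotientGroup.mk' M x := h1
  exact mul_inv_eq_iff_eq_mul.1 h2

lemma act_of_mem {M T : Subgroup G} [M.Normal] {hT : T.Normal} {g : G} (hg : g ∈ M) :
    act M T hT g = 1 := by
  have h1 : QuotientGroup.mk' M g = 1 := (QuotientGroup.eq_one_iff g).2 hg
  haveI : (T.map (QuotientGroup.mk' M)).Normal :=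
    hT.map _ (QuotientGroup.mk'_surjective M)
  show (MulAut.conjNormal (H := T.map (QuotientGroup.mk' M))) (QuotientGroup.mk' M g) = 1
  rw [h1, map_one]

lemma card_mulAut_le (H : Type) [Group H] [Finite H] : Nat.card (MulAut H) ≤ (Nat.card H).factorial := by
  rw [← Nat.card_perm]
  exact Nat.card_le_card_of_injective (fun f : MulAut H => (f.toEquiv : Equiv.Perm H))
    (fun f g h => MulEquiv.toEquiv_injective h)

end P3x

open P3x in
theorem prf_P3 : S_P3 := by
  intro G _ _ M _ hNo F m hF hm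
  let I := {T : Subgroup G // MinOver M T}
  let φ : G →* (∀ T : I, MulAut (T.1.map (QuotientGroup.mk' M))) :=
    MonoidHom.pi (fun T : I => act M T.1 T.2.1)
  have hφ : ∀ g : G, φ g = 1 ↔ ∀ T : I, act M T.1 T.2.1 g = 1 := by
    intro g
    constructor
    · intro h T
      exact congrFun h T
    · intro h
      funext T
      exact h T
  have hMC : M ≤ φ.ker := by
    intro g hg
    rw [MonoidHom.mem_ker, hφ]
    intro T
    exact act_of_mem hg
  have hC : φ.ker = M := by
    by_contra hne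
    obtain ⟨N, hN, hmin⟩ := exists_minimal_of_wellFoundedLT
      (fun N : Subgroup G => N.Normal ∧ M ≤ N ∧ N ≠ M ∧ N ≤ φ.ker)
      ⟨φ.ker, inferInstance, hMC, hne, le_rfl⟩
    obtain ⟨hNn, hMN, hNM, hNC⟩ := hN
    have hmo : MinOver M N := by
      refine ⟨hNn, hMN, hNM, ?_⟩
      intro N' hN'n hMN' hN'N
      by_cases h : N' = M
      · exact Or.inl h
      · right
        exact le_antisymm hN'N (hmin ⟨hN'n, hMN', h, hN'N.trans hNC⟩ hN'N)
    have : (N.map (QuotientGroup.mk' M)).Normal :=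
      hNn.map _ (QuotientGroup.mk'_surjective M)
    have hbot := hNo (N.map (QuotientGroup.mk' M)) inferInstance (by
      rintro _ ⟨x, hx, rfl⟩ _ ⟨y, hy, rfl⟩
      have h1 : φ x = 1 := hNC hx
      exact act_eq_one ((hφ x).1 h1 ⟨N, hmo⟩) y hy)
    have h2 : N ≤ M := by
      rw [Subgroup.map_eq_bot_iff, QuotientGroup.ker_mk'] at hbot
      exact hbot
    exact hNM (le_antisymm h2 hMN)
  have hidx : M.index = Nat.card φ.range := by
    have h1 := congrArg Subgroup.index hC
    rw [Subgroup.index_ker] at h1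
    exact h1.symm
  rw [hidx]
  have : Fintype I := Fintype.ofFinite I
  calc Nat.card φ.range ≤ Nat.card (∀ T : I, MulAut (T.1.map (QuotientGroup.mk' M))) :=
        Nat.card_le_card_of_injective _ Subtype.val_injective
    _ = ∏ T : I, Nat.card (MulAut (T.1.map (QuotientGroup.mk' M))) := Nat.card_pi
    _ ≤ ∏ T : I, F.factorial := by
        apply Finset.prod_le_prod'
        intro T _
        refine (card_mulAut_le _).trans (Nat.factorial_le ?_)
        rw [card_map]
        exact hF T.1 T.2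
    _ = F.factorial ^ Nat.card I := by
        rw [Finset.prod_const, Finset.card_univ, Nat.card_eq_fintype_card]
    _ ≤ F.factorial ^ m := Nat.pow_le_pow_right (Nat.factorial_pos F) hm

end Pool.Agent.RB

end

section

/-!
# Item RAD: the quotient by the solvable radical has no abelian normal subgroup
-/

set_option autoImplicit false

open Module Representation Pool.Agent.DC7914 Pool.Agent.RadIndex

namespace Pool.Agent.RB

theorem prf_RAD : S_RAD := by
  intro G _ _ R _ hR N hN hab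
  obtain ⟨-, hsol, hmax⟩ := hR
  set P : Subgroup G := N.comap (QuotientGroup.mk' R) with hP
  have hPn : P.Normal := hN.comap _
  have hRP : R ≤ P := by
    intro x hx
    rw [hP, Subgroup.mem_comap]
    have : QuotientGroup.mk' R x = 1 := by
      rw [QuotientGroup.mk'_apply, QuotientGroup.eq_one_iff]
      exact hx
    rw [this]
    exact N.one_mem
  -- the map `P → N`
  let f : P →* N :=
    { toFun := fun x => ⟨QuotientGroup.mk' R (x : G), x.2⟩
      map_one' := by ext; simp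
      map_mul' := by intro a b; ext; simp }
  let i : R →* P := Subgroup.inclusion hRP
  have hNs : Group.IsSolvable N := by
    apply Group.isSolvable_of_comm
    rintro ⟨a, ha⟩ ⟨b, hb⟩
    exact Subtype.ext (hab a ha b hb)
  have hPs : Group.IsSolvable P := by
    refine Group.isSolvable_of_ker_le_range i f ?_
    intro x hx
    rw [MonoidHom.mem_ker] at hx
    have h1 : QuotientGroup.mk' R (x : G) = 1 := congrArg Subtype.val hx
    rw [QuotientGroup.mk'_apply, QuotientGroup.eq_one_iff] at h1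
    exact ⟨⟨x, h1⟩, rfl⟩
  have hPR : P ≤ R := hmax P hPn hPs
  rw [eq_bot_iff]
  intro x hx
  obtain ⟨g, rfl⟩ := QuotientGroup.mk'_surjective R x
  have hg : g ∈ P := hx
  rw [Subgroup.mem_bot, QuotientGroup.mk'_apply, QuotientGroup.eq_one_iff]
  exact hPR hg

end Pool.Agent.RB

end
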