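import Mathlib.Analysis.Normed.Module.FiniteDimension
import Mathlib.MeasureTheory.Covering.BesicovitchVectorSpace
import Pool.Agent.Work.MP_76dc41_al.Bd.B03

/-!
# RadicalBound: proofs of the items G5, G1, PROD, G2, BL, NS, G4, QB, GM, JOR, P1, MAIN
-/

section

/-!
# Item G5: the normaliser of a Sylow subgroup
-/

set_option autoImplicit false
set_option linter.unusedSectionVars false

namespace Pool.Agent.RB

namespace G5x

variable {K : Type} [Group K] [Finite K]

/-- `N ∩ k N k⁻¹` -/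
def Ik (N : Subgroup K) (k : K) : Subgroup K := N ⊓ N.comap (MulAut.conj k⁻¹).toMonoidHom

theorem mem_Ik {N : Subgroup K} {k y : K} : y ∈ Ik N k ↔ y ∈ N ∧ k⁻¹ * y * k ∈ N := by
  unfold Ik
  rw [Subgroup.mem_inf, Subgroup.mem_comap]
  simp

theorem ov_eq (N : Subgroup K) (k : K) : ov N k = Nat.card (Ik N k) := by
  unfold ov
  exact Nat.card_congr (Equiv.subtypeEquivRight (fun y => (mem_Ik (N := N) (k := k)).symm))

theorem ov_mem {N : Subgroup K} {k : K} (hk : k ∈ N) : ov N k = Nat.card N := by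
  rw [ov_eq]
  have h : Ik N k = N := by
    ext y
    rw [mem_Ik]
    constructor
    · exact fun h => h.1
    · intro hy
      exact ⟨hy, N.mul_mem (N.mul_mem (N.inv_mem hk) hy) hk⟩
  rw [h]

theorem ov_le (N : Subgroup K) (k : K) : ov N k ≤ Nat.card N := by
  rw [ov_eq]
  exact Subgroup.card_le_of_le inf_le_left

theorem card_relIndex {I N : Subgroup K} (h : I ≤ N) :
    Nat.card I * I.relIndex N = Nat.card N := by
  have h1 := Subgroup.card_mul_index (I.subgroupOf N)
  rw [Nat.card_congr (Subgroup.subgroupOfEquivOfLe h).toEquiv] at h1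
  exact h1

variable {p : ℕ} [hp : Fact p.Prime]

theorem not_le (Q : Sylow p K) {k : K} (hk : k ∉ Subgroup.normalizer (Q : Set K)) :
    ¬ (Q : Subgroup K) ≤ Ik (Subgroup.normalizer (Q : Set K)) k := by
  intro hle
  apply hk
  obtain ⟨P, hP⟩ : ∃ P : Subgroup K,
    P = (Q : Subgroup K).map (MulAut.conj k⁻¹).toMonoidHom := ⟨_, rfl⟩
  have hPN : P ≤ Subgroup.normalizer (Q : Set K) := by
    rw [hP]
    rintro _ ⟨q, hq, rfl⟩
    have h1 := (mem_Ik.mp (hle hq)).2
    simpa using h1
  have hPp : IsPGroup p P := by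
    rw [hP]
    exact Q.isPGroup'.map _
  have h2 := hPp.inf_normalizer_sylow Q
  rw [inf_eq_left.mpr hPN] at h2
  have hPQ : P ≤ Q := by
    rw [h2]
    exact inf_le_right
  have hcard : Nat.card (Q : Subgroup K) ≤ Nat.card P := by
    rw [hP, Subgroup.card_map_of_injective (MulAut.conj k⁻¹).injective]
  have h3 : P = (Q : Subgroup K) := Subgroup.eq_of_le_of_card_ge hPQ hcard
  have h4 : k⁻¹ ∈ Subgroup.normalizer ((Q : Subgroup K) : Set K) := by
    rw [Subgroup.mem_normalizer_iff_map_conj_eq]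
    rw [← h3] at hP ⊢
    nth_rewrite 2 [hP]
    rw [h3]
    rfl
  have h5 := Subgroup.inv_mem _ h4
  rw [inv_inv] at h5
  exact h5

theorem ov_not_mem (Q : Sylow p K) {k : K} (hk : k ∉ Subgroup.normalizer (Q : Set K)) :
    p * ov (Subgroup.normalizer (Q : Set K)) k ≤
      Nat.card (Subgroup.normalizer (Q : Set K)) := by
  obtain ⟨N, hN⟩ : ∃ N : Subgroup K, N = Subgroup.normalizer (Q : Set K) := ⟨_, rfl⟩
  have hnle := not_le Q hk
  rw [← hN] at hnle ⊢
  have hIN : Ik N k ≤ N := inf_le_left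
  have hQN : (Q : Subgroup K) ≤ N := by
    rw [hN]
    exact Subgroup.le_normalizer
  have hne : (Ik N k).relIndex N ≠ 0 := by
    intro h0
    have h1 := card_relIndex hIN
    rw [h0, mul_zero] at h1
    exact Nat.card_pos.ne h1
  have h2 : (Ik N k).relIndex (Q : Subgroup K) ≤ (Ik N k).relIndex N :=
    Subgroup.relIndex_le_of_le_right hQN hne
  have h3 : (Ik N k).relIndex (Q : Subgroup K) ≠ 1 := by
    rw [Ne, Subgroup.relIndex_eq_one]
    exact hnle
  obtain ⟨j, hj⟩ := (IsPGroup.iff_card).mp Q.isPGroup'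
  have h4 : (Ik N k).relIndex (Q : Subgroup K) ∣ p ^ j := by
    rw [← hj]
    exact Subgroup.relIndex_dvd_card _ _
  obtain ⟨i, _, hi⟩ := (Nat.dvd_prime_pow hp.out).mp h4
  have hi0 : i ≠ 0 := by
    rintro rfl
    exact h3 (by rw [hi, pow_zero])
  have h5 : p ≤ (Ik N k).relIndex (Q : Subgroup K) := by
    rw [hi]
    exact Nat.le_self_pow hi0 p
  rw [ov_eq, ← card_relIndex hIN, mul_comm]
  exact Nat.mul_le_mul_left _ (h5.trans h2)

end G5x

open G5x in
theorem prf_G5 : S_G5 := by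
  classical
  intro K _ _ p hp Q a hne hHK
  have hfin := Fintype.ofFinite K
  obtain ⟨N, hN⟩ : ∃ N : Subgroup K, N = Subgroup.normalizer (Q : Set K) := ⟨_, rfl⟩
  unfold HK at hHK
  have hout : ∀ k : K, k ∉ N → p * ov N k ≤ Nat.card N := by
    rw [hN]
    exact fun k hk => ov_not_mem Q hk
  rw [← hN] at hne hHK
  rw [finsum_eq_sum_of_fintype] at hHK
  have hsum : p * ∑ k : K, ov N k ≤
      ∑ k : K, if k ∈ N then p * Nat.card N else Nat.card N := by
    rw [Finset.mul_sum]
    apply Finset.sum_le_sum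
    intro k _
    split_ifs with h
    · rw [ov_mem h]
    · exact hout k h
  have hcN : (Finset.univ.filter (fun k : K => k ∈ N)).card = Nat.card N := by
    rw [Nat.card_eq_fintype_card, ← Fintype.card_subtype]
  have hcK : (Finset.univ.filter (fun k : K => k ∈ N)).card +
      (Finset.univ.filter (fun k : K => ¬ k ∈ N)).card = Nat.card K := by
    rw [Finset.card_filter_add_card_filter_not, Finset.card_univ, Nat.card_eq_fintype_card]
  obtain ⟨c, hc⟩ : ∃ c, c = (Finset.univ.filter (fun k : K => ¬ k ∈ N)).card := ⟨_, rfl⟩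
  rw [Finset.sum_ite, Finset.sum_const, Finset.sum_const, smul_eq_mul, smul_eq_mul, hcN,
    ← hc] at hsum
  rw [hcN, ← hc] at hcK
  have hc0 : 0 < c := by
    rcases Nat.eq_zero_or_pos c with h | h
    · exfalso
      apply hne
      rw [Subgroup.eq_top_iff']
      intro x
      by_contra hx
      have h1 : 0 < c := by
        rw [hc]
        exact Finset.card_pos.mpr ⟨x, by simp [hx]⟩
      omega
    · exact h
  have hn0 : 0 < Nat.card N := Nat.card_pos
  obtain ⟨n, hn⟩ : ∃ n, n = Nat.card N := ⟨_, rfl⟩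
  obtain ⟨S, hS⟩ : ∃ S, S = ∑ k : K, ov N k := ⟨_, rfl⟩
  rw [← hcK, ← hn, ← hS] at hHK
  rw [← hn, ← hS] at hsum
  rw [← hn] at hn0
  have h1 : n * c + a * n ^ 2 ≤ a * S := by nlinarith [hHK]
  have h2 : p * (n * c + a * n ^ 2) ≤ a * (p * S) := by
    calc p * (n * c + a * n ^ 2) ≤ p * (a * S) := Nat.mul_le_mul_left _ h1
      _ = a * (p * S) := by ring
  have h3 : a * (p * S) ≤ a * (n * (p * n) + c * n) := Nat.mul_le_mul_left _ hsum
  have h4 : p * (n * c) ≤ a * (n * c) := by nlinarith [h2, h3]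
  exact Nat.le_of_mul_le_mul_right h4 (Nat.mul_pos hn0 hc0)

end Pool.Agent.RB

end

section

/-!
# From the normaliser of a Sylow subgroup to the Sylow subgroup
-/

set_option autoImplicit false
set_option linter.unusedSectionVars false

open Pool.Agent.DC7914 Pool.Agent.RadIndex

namespace Pool.Agent.RB

namespace G1x

/-- `N ∩ k N k⁻¹` -/
def dsub {K : Type} [Group K] (N : Subgroup K) (k : K) : Subgroup K :=
  N ⊓ N.comap (MulAut.conj k⁻¹).toMonoidHom

lemma mem_dsub {K : Type} [Group K] (N : Subgroup K) (k y : K) :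
    y ∈ dsub N k ↔ y ∈ N ∧ k⁻¹ * y * k ∈ N := by
  unfold dsub
  rw [Subgroup.mem_inf, Subgroup.mem_comap]
  simp

lemma ov_eq {K : Type} [Group K] (N : Subgroup K) (k : K) : ov N k = Nat.card (dsub N k) :=
  Nat.card_congr (Equiv.subtypeEquivRight fun y => (mem_dsub N k y).symm)

lemma sylow_conj {K : Type} [Group K] [Finite K] (p : ℕ) [Fact p.Prime] (Q : Sylow p K) (k y : K)
    (hy : y ∈ (Q : Subgroup K)) (hk : k⁻¹ * y * k ∈ Subgroup.normalizer (Q : Set K)) :
    k⁻¹ * y * k ∈ (Q : Subgroup K) := by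
  have hP : IsPGroup p ((Q : Subgroup K).map (MulAut.conj k⁻¹).toMonoidHom) :=
    Q.isPGroup'.map _
  have h := hP.inf_normalizer_sylow Q
  have hz : k⁻¹ * y * k ∈ (Q : Subgroup K).map (MulAut.conj k⁻¹).toMonoidHom := by
    refine ⟨y, hy, ?_⟩
    simp
  have h2 : k⁻¹ * y * k ∈ (Q : Subgroup K).map (MulAut.conj k⁻¹).toMonoidHom ⊓
      (Q : Subgroup K) := by
    rw [← h]
    exact ⟨hz, hk⟩
  exact h2.2

lemma relIndex_ne {K : Type} [Group K] [Finite K] (H L : Subgroup K) : H.relIndex L ≠ 0 :=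
  ne_zero_of_dvd_ne_zero Nat.card_pos.ne' (Subgroup.relIndex_dvd_card H L)

lemma card_mul_rel {K : Type} [Group K] {H L : Subgroup K} (h : H ≤ L) :
    Nat.card H * H.relIndex L = Nat.card L := by
  rw [← Subgroup.relIndex_bot_left H, ← Subgroup.relIndex_bot_left L]
  exact Subgroup.relIndex_mul_relIndex ⊥ H L bot_le h

lemma step {K : Type} [Group K] [Finite K] (p : ℕ) [Fact p.Prime] (Q : Sylow p K) (k : K) :
    ov (Subgroup.normalizer (Q : Set K)) k * Nat.card Q ≤
      ov (Q : Subgroup K) k * Nat.card (Subgroup.normalizer (Q : Set K)) := by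
  set N := Subgroup.normalizer (Q : Set K) with hN
  have hQN : (Q : Subgroup K) ≤ N := Subgroup.le_normalizer
  set D := dsub N k with hD
  have h1 : D ⊓ (Q : Subgroup K) ≤ dsub (Q : Subgroup K) k := by
    rintro y ⟨hy, hyQ⟩
    have hy' := ((mem_dsub N k y).1 hy).2
    exact (mem_dsub _ _ _).2 ⟨hyQ, sylow_conj p Q k y hyQ hy'⟩
  have h2 : D.relIndex (Q : Subgroup K) ≤ D.relIndex N :=
    Subgroup.relIndex_le_of_le_right hQN (relIndex_ne D N)
  have h3 : Nat.card (D ⊓ (Q : Subgroup K) : Subgroup K) * D.relIndex (Q : Subgroup K) =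
      Nat.card (Q : Subgroup K) := by
    rw [← Subgroup.inf_relIndex_right, card_mul_rel inf_le_right]
  have h4 : Nat.card D * D.relIndex N = Nat.card N :=
    card_mul_rel inf_le_left
  have h5 : Nat.card (D ⊓ (Q : Subgroup K) : Subgroup K) ≤
      Nat.card (dsub (Q : Subgroup K) k) :=
    Nat.card_le_card_of_injective _ (Subgroup.inclusion_injective h1)
  rw [ov_eq, ov_eq, ← hD]
  change Nat.card D * Nat.card (Q : Subgroup K) ≤ _
  rw [← h3, ← h4]
  calc Nat.card D * (Nat.card (D ⊓ (Q : Subgroup K) : Subgroup K) * D.relIndex (Q : Subgroup K))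
      ≤ Nat.card D * (Nat.card (dsub (Q : Subgroup K) k) * D.relIndex N) :=
        Nat.mul_le_mul_left _ (Nat.mul_le_mul h5 h2)
    _ = _ := by ring

end G1x

open G1x in
theorem prf_G1 : S_G1 := by
  intro K _ _ p _ Q a ha h
  have := Fintype.ofFinite K
  set N := Subgroup.normalizer (Q : Set K) with hN
  unfold HK at h
  rw [finsum_eq_sum_of_fintype] at h ⊢
  have h1 : Nat.card N * Nat.card K ≤ a * ∑ k : K, ov N k := by
    have : Nat.card N ^ 2 ≤ a * Nat.card N ^ 2 := Nat.le_mul_of_pos_left _ ha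
    omega
  have h2 : (∑ k : K, ov N k) * Nat.card Q ≤ (∑ k : K, ov (Q : Subgroup K) k) * Nat.card N := by
    rw [Finset.sum_mul, Finset.sum_mul]
    exact Finset.sum_le_sum fun k _ => step p Q k
  have hpos : 0 < Nat.card N := Nat.card_pos
  have h3 : Nat.card N * (Nat.card Q * Nat.card K) ≤
      Nat.card N * (a * ∑ k : K, ov (Q : Subgroup K) k) := by
    calc Nat.card N * (Nat.card Q * Nat.card K) = (Nat.card N * Nat.card K) * Nat.card Q := by ring
      _ ≤ (a * ∑ k : K, ov N k) * Nat.card Q := Nat.mul_le_mul_right _ h1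
      _ = a * ((∑ k : K, ov N k) * Nat.card Q) := by ring
      _ ≤ a * ((∑ k : K, ov (Q : Subgroup K) k) * Nat.card N) := Nat.mul_le_mul_left _ h2
      _ = _ := by ring
  exact Nat.le_of_mul_le_mul_left h3 hpos

end Pool.Agent.RB

end

section

set_option autoImplicit false

namespace Pool.Agent.RB

namespace PRODx

variable {K : Type} [Group K]

/-- products of at most `n` elements of `X` -/
def P (X : Set K) (n : ℕ) : Set K :=
  {g | ∃ l : List K, l.length ≤ n ∧ (∀ x ∈ l, x ∈ X) ∧ l.prod = g}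

lemma P_mono (X : Set K) {m n : ℕ} (h : m ≤ n) : P X m ⊆ P X n := by
  rintro g ⟨l, h1, h2, h3⟩
  exact ⟨l, h1.trans h, h2, h3⟩

lemma P_mul (X : Set K) (n : ℕ) {g x : K} (hg : g ∈ P X n) (hx : x ∈ X) : g * x ∈ P X (n + 1) := by
  obtain ⟨l, h1, h2, h3⟩ := hg
  refine ⟨l ++ [x], ?_, ?_, ?_⟩
  · simp only [List.length_append, List.length_singleton]
    omega
  · intro y hy
    rcases List.mem_append.1 hy with h | h
    · exact h2 y h
    · rw [List.mem_singleton.1 h]; exact hx
  · rw [List.prod_append, h3, List.prod_singleton]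

lemma step (X : Set K) [Finite K] (hinv : ∀ x ∈ X, x⁻¹ ∈ X) (n : ℕ)
    (h : P X (n + 1) ≠ P X (n + 2)) :
    Nat.card (P X n) + Nat.card X ≤ Nat.card (P X (n + 3)) := by
  have hsub : P X (n + 1) ⊆ P X (n + 2) := P_mono X (by omega)
  obtain ⟨g, hg, hg'⟩ := Set.exists_of_ssubset (hsub.ssubset_of_ne h)
  have himg : (fun x => g * x) '' X ⊆ P X (n + 3) := by
    rintro _ ⟨x, hx, rfl⟩
    exact P_mul X (n + 2) hg hx
  have hdis : Disjoint (P X n) ((fun x => g * x) '' X) := by
    rw [Set.disjoint_left]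
    rintro y hy ⟨x, hx, rfl⟩
    apply hg'
    have := P_mul X n hy (hinv x hx)
    simpa using this
  have h1 : Nat.card ((fun x => g * x) '' X) = Nat.card X :=
    Nat.card_image_of_injective (mul_right_injective g) X
  rw [← h1, Nat.card_coe_set_eq, Nat.card_coe_set_eq, Nat.card_coe_set_eq,
    ← Set.ncard_union_eq hdis (Set.toFinite _) (Set.toFinite _)]
  exact Set.ncard_le_ncard (Set.union_subset (P_mono X (by omega)) himg) (Set.toFinite _)

end PRODx

open PRODx in
theorem prf_PROD : S_PROD := by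
  intro K _ _ X c h1 hinv hc g hg
  have hXpos : 0 < Nat.card X := by
    rw [Nat.card_coe_set_eq]
    exact (Set.ncard_pos (Set.toFinite _)).2 ⟨1, h1⟩
  have hex : ∃ j < c, P X (3 * j + 2) = P X (3 * j + 3) := by
    by_contra hcon
    push Not at hcon
    have hind : ∀ j ≤ c, (j + 1) * Nat.card X ≤ Nat.card (P X (3 * j + 1)) := by
      intro j
      induction j with
      | zero =>
        intro _
        have : X ⊆ P X (3 * 0 + 1) := fun x hx => ⟨[x], by simp, by simpa using hx, by simp⟩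
        rw [Nat.card_coe_set_eq, Nat.card_coe_set_eq]
        simpa using Set.ncard_le_ncard this (Set.toFinite _)
      | succ j ih =>
        intro hj
        have h2 := ih (by omega)
        have h3 := step X hinv (3 * j + 1) (hcon j (by omega))
        have e : 3 * (j + 1) + 1 = 3 * j + 1 + 3 := by ring
        rw [e]
        calc (j + 1 + 1) * Nat.card X = (j + 1) * Nat.card X + Nat.card X := by ring
          _ ≤ _ := by omega
    have h4 := hind c le_rfl
    have h5 : Nat.card (P X (3 * c + 1)) ≤ Nat.card K := Finite.card_subtype_le _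
    have h6 : (c + 1) * Nat.card X = c * Nat.card X + Nat.card X := by ring
    omega
  obtain ⟨j, hj, hP⟩ := hex
  have hmem : g ∈ P X (3 * j + 2) := by
    induction hg using Subgroup.closure_induction_right with
    | one => exact ⟨[], by simp, by simp, by simp⟩
    | mul_right x hx y hy ih =>
      rw [hP]
      exact P_mul X _ ih hy
    | mul_inv_cancel x hx y hy ih =>
      rw [hP]
      exact P_mul X _ ih (hinv y hy)
  obtain ⟨l, h2, h3, h4⟩ := hmem
  exact ⟨l, by omega, h3, h4⟩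

end Pool.Agent.RB

end

section

/-!
# Item G2: a subgroup of bounded index in which all overlaps are large
-/

set_option autoImplicit false
set_option linter.unusedSectionVars false

namespace Pool.Agent.RB

namespace G2x

variable {K : Type} [Group K] [Finite K]

/-- `g N g⁻¹` -/
def cj (g : K) (N : Subgroup K) : Subgroup K := N.comap (MulAut.conj g⁻¹).toMonoidHom

theorem mem_cj {N : Subgroup K} {g y : K} : y ∈ cj g N ↔ g⁻¹ * y * g ∈ N := by
  unfold cj
  rw [Subgroup.mem_comap]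
  simp

theorem card_cj (g : K) (N : Subgroup K) : Nat.card (cj g N) = Nat.card N := by
  refine Nat.card_congr
    { toFun := fun y => ⟨g⁻¹ * y.1 * g, mem_cj.1 y.2⟩
      invFun := fun y => ⟨g * y.1 * g⁻¹, mem_cj.2 (by
        have h := y.2
        convert h using 1
        group)⟩
      left_inv := fun y => by
        apply Subtype.ext
        simp only
        group
      right_inv := fun y => by
        apply Subtype.ext
        simp only
        group }

theorem ov_eq (N : Subgroup K) (k : K) : ov N k = Nat.card (N ⊓ cj k N : Subgroup K) := by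
  unfold ov
  refine Nat.card_congr (Equiv.subtypeEquivRight (fun y => ?_))
  rw [Subgroup.mem_inf, mem_cj]

theorem ov_mem {N : Subgroup K} {k : K} (hk : k ∈ N) : ov N k = Nat.card N := by
  rw [ov_eq]
  have h : N ⊓ cj k N = N := by
    apply inf_eq_left.2
    intro y hy
    exact mem_cj.2 (N.mul_mem (N.mul_mem (N.inv_mem hk) hy) hk)
  rw [h]

theorem ov_le (N : Subgroup K) (k : K) : ov N k ≤ Nat.card N := by
  rw [ov_eq]
  exact Subgroup.card_le_of_le inf_le_left

theorem ov_inv (N : Subgroup K) (k : K) : ov N k⁻¹ = ov N k := by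
  unfold ov
  refine Nat.card_congr
    { toFun := fun y => ⟨k * y.1 * k⁻¹, by
        have h := y.2.2
        simpa using h, by
        have h := y.2.1
        convert h using 1
        group⟩
      invFun := fun y => ⟨k⁻¹ * y.1 * k, y.2.2, by
        have h := y.2.1
        convert h using 1
        group⟩
      left_inv := fun y => by
        apply Subtype.ext
        simp only
        group
      right_inv := fun y => by
        apply Subtype.ext
        simp only
        group }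

theorem card_relIndex {I N : Subgroup K} (h : I ≤ N) :
    Nat.card I * I.relIndex N = Nat.card N := by
  have h1 := Subgroup.card_mul_index (I.subgroupOf N)
  rw [Nat.card_congr (Subgroup.subgroupOfEquivOfLe h).toEquiv] at h1
  exact h1

theorem inf_card {A B L : Subgroup K} (hA : A ≤ L) (hB : B ≤ L) :
    Nat.card A * Nat.card B ≤ Nat.card L * Nat.card (A ⊓ B : Subgroup K) := by
  have h1 := Subgroup.relIndex_inf_le (H := A) (K := B) (L := L)
  have h2 := card_relIndex hA
  have h3 := card_relIndex hB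
  have h4 := card_relIndex (inf_le_left.trans hA : A ⊓ B ≤ L)
  have hL : 0 < Nat.card L := Nat.card_pos
  refine Nat.le_of_mul_le_mul_left ?_ hL
  calc Nat.card L * (Nat.card A * Nat.card B)
      = (Nat.card (A ⊓ B : Subgroup K) * (A ⊓ B).relIndex L) * (Nat.card A * Nat.card B) := by
        rw [h4]
    _ ≤ (Nat.card (A ⊓ B : Subgroup K) * (A.relIndex L * B.relIndex L)) *
          (Nat.card A * Nat.card B) :=
        Nat.mul_le_mul_right _ (Nat.mul_le_mul_left _ h1)
    _ = (Nat.card A * A.relIndex L) * ((Nat.card B * B.relIndex L) *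
          Nat.card (A ⊓ B : Subgroup K)) := by ring
    _ = Nat.card L * (Nat.card L * Nat.card (A ⊓ B : Subgroup K)) := by rw [h2, h3]

theorem ov_mul (N : Subgroup K) (g h : K) :
    ov N g * ov N h ≤ Nat.card N * ov N (g * h) := by
  have h1 : ov N h = Nat.card (cj g (N ⊓ cj h N) : Subgroup K) := by
    rw [card_cj, ov_eq]
  have hA : N ⊓ cj g N ≤ cj g N := inf_le_right
  have hB : cj g (N ⊓ cj h N) ≤ cj g N := by
    intro y hy
    exact mem_cj.2 (mem_cj.1 hy).1
  have h2 := inf_card hA hB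
  rw [card_cj g N] at h2
  rw [h1, ov_eq N g, ov_eq N (g * h)]
  have hle : N ⊓ cj g N ⊓ cj g (N ⊓ cj h N) ≤ N ⊓ cj (g * h) N := by
    rintro y ⟨hy1, hy2⟩
    refine ⟨hy1.1, mem_cj.2 ?_⟩
    have h3 := mem_cj.1 (mem_cj.1 hy2).2
    convert h3 using 1
    group
  exact h2.trans (Nat.mul_le_mul_left _ (Subgroup.card_le_of_le hle))

theorem list_bound (N : Subgroup K) (c : ℕ) (l : List K)
    (hl : ∀ x ∈ l, Nat.card N ≤ c * ov N x) :
    Nat.card N ≤ c ^ l.length * ov N l.prod := by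
  induction l with
  | nil =>
    rw [List.length_nil, pow_zero, one_mul, List.prod_nil, ov_mem N.one_mem]
  | cons x l ih =>
    have h1 := hl x (List.mem_cons_self)
    have h2 := ih (fun y hy => hl y (List.mem_cons_of_mem _ hy))
    have h3 := ov_mul N x l.prod
    rw [List.length_cons, List.prod_cons, pow_succ]
    have hN : 0 < Nat.card N := Nat.card_pos
    refine Nat.le_of_mul_le_mul_left ?_ hN
    calc Nat.card N * Nat.card N ≤ (c * ov N x) * (c ^ l.length * ov N l.prod) :=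
          Nat.mul_le_mul h1 h2
      _ = (c ^ l.length * c) * (ov N x * ov N l.prod) := by ring
      _ ≤ (c ^ l.length * c) * (Nat.card N * ov N (x * l.prod)) :=
          Nat.mul_le_mul_left _ h3
      _ = Nat.card N * (c ^ l.length * c * ov N (x * l.prod)) := by ring

end G2x

open G2x in
theorem prf_G2 (hPROD : S_PROD) : S_G2 := by
  classical
  intro K _ _ Q a ha hsum
  have hfin := Fintype.ofFinite K
  rw [finsum_eq_sum_of_fintype] at hsum
  obtain ⟨X, hX⟩ : ∃ X : Set K, X = {k | Nat.card Q ≤ 2 * a * ov Q k} := ⟨_, rfl⟩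
  have hmem : ∀ k, k ∈ X ↔ Nat.card Q ≤ 2 * a * ov Q k := by
    intro k
    rw [hX]
    rfl
  have hQX : ∀ k ∈ Q, k ∈ X := by
    intro k hk
    rw [hmem, ov_mem hk]
    exact Nat.le_mul_of_pos_left _ (by omega)
  have hQ : 0 < Nat.card Q := Nat.card_pos
  obtain ⟨s, hs⟩ : ∃ s : Finset K, s = Finset.univ.filter (fun k => k ∈ X) := ⟨_, rfl⟩
  have hsX : s.card = Nat.card X := by
    rw [hs, Nat.card_eq_fintype_card, ← Fintype.card_subtype]
  have hcard : Nat.card K ≤ 2 * a * Nat.card X := by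
    have h1 : ∀ k : K, 2 * a * ov Q k ≤ (if k ∈ X then 2 * a * Nat.card Q else 0) + Nat.card Q := by
      intro k
      split_ifs with h
      · exact (Nat.mul_le_mul_left _ (ov_le Q k)).trans (Nat.le_add_right _ _)
      · rw [hmem] at h
        omega
    have h2 : 2 * a * ∑ k : K, ov Q k ≤
        ∑ k : K, ((if k ∈ X then 2 * a * Nat.card Q else 0) + Nat.card Q) := by
      rw [Finset.mul_sum]
      exact Finset.sum_le_sum (fun k _ => h1 k)
    rw [Finset.sum_add_distrib, ← Finset.sum_filter, ← hs, Finset.sum_const, Finset.sum_const,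
      Finset.card_univ, ← Nat.card_eq_fintype_card, smul_eq_mul, smul_eq_mul, hsX] at h2
    have h3 : 2 * (Nat.card Q * Nat.card K) ≤
        Nat.card X * (2 * a * Nat.card Q) + Nat.card K * Nat.card Q := by
      refine le_trans (Nat.mul_le_mul_left 2 hsum) (le_trans (le_of_eq ?_) h2)
      ring
    refine Nat.le_of_mul_le_mul_left ?_ hQ
    have h4 : Nat.card K * Nat.card Q = Nat.card Q * Nat.card K := mul_comm _ _
    have h5 : Nat.card X * (2 * a * Nat.card Q) = Nat.card Q * (2 * a * Nat.card X) := by ring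
    omega
  refine ⟨Subgroup.closure X, fun k hk => Subgroup.subset_closure (hQX k hk), ?_, ?_⟩
  · have h1 : Nat.card X ≤ Nat.card (Subgroup.closure X) := by
      exact Nat.card_mono (Set.toFinite _) (Subgroup.subset_closure)
    have h2 := Subgroup.card_mul_index (Subgroup.closure X)
    have h3 : 0 < Nat.card (Subgroup.closure X) := Nat.card_pos
    refine Nat.le_of_mul_le_mul_left ?_ h3
    rw [h2]
    refine hcard.trans ?_
    rw [mul_comm (Nat.card (Subgroup.closure X))]
    exact Nat.mul_le_mul_left _ h1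
  · intro g hg
    obtain ⟨l, hl1, hl2, hl3⟩ := hPROD K X (2 * a) (hQX 1 Q.one_mem)
      (fun x hx => by rw [hmem, ov_inv, ← hmem]; exact hx) hcard g hg
    have h1 := list_bound Q (2 * a) l (fun x hx => (hmem x).1 (hl2 x hx))
    rw [hl3] at h1
    refine h1.trans (Nat.mul_le_mul_right _ (Nat.pow_le_pow_right (by omega) ?_))
    omega

end Pool.Agent.RB

end

section

/-!
# Item BL: subgroups commensurable with all their conjugates (Bergman and Lenstra)
-/

set_option autoImplicit false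
set_option linter.unusedSectionVars false

open Pointwise

namespace Pool.Agent.RB

namespace BLx

variable {H : Type} [Group H]

/-- the conjugate `g Q g⁻¹` -/
def cj (g : H) (Q : Subgroup H) : Subgroup H := MulAut.conj g • Q

theorem mem_cj {g : H} {Q : Subgroup H} {x : H} : x ∈ cj g Q ↔ g⁻¹ * x * g ∈ Q := by
  rw [cj, Subgroup.mem_pointwise_smul_iff_inv_smul_mem, ← map_inv, MulAut.smul_def,
    MulAut.conj_apply, inv_inv]

theorem cj_one (Q : Subgroup H) : cj 1 Q = Q := by
  ext x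
  rw [mem_cj]
  simp

theorem relIndex_cj (g h : H) (J K : Subgroup H) :
    (cj h J).relIndex (cj g K) = (cj (g⁻¹ * h) J).relIndex K := by
  have e : cj h J = cj g (cj (g⁻¹ * h) J) := by
    ext x
    rw [mem_cj, mem_cj, mem_cj]
    have : h⁻¹ * x * h = (g⁻¹ * h)⁻¹ * (g⁻¹ * x * g) * (g⁻¹ * h) := by group
    rw [this]
  rw [e]
  exact Subgroup.relIndex_pointwise_smul _ _ _

theorem card_cj (g : H) (Q : Subgroup H) : Nat.card (cj g Q) = Nat.card Q := by
  refine Nat.card_congr ⟨fun x => ⟨g⁻¹ * x * g, mem_cj.1 x.2⟩,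
    fun x => ⟨g * x * g⁻¹, mem_cj.2 ?_⟩, fun x => ?_, fun x => ?_⟩
  · have : g⁻¹ * (g * (x : H) * g⁻¹) * g = x := by group
    rw [this]
    exact x.2
  · apply Subtype.ext
    change g * (g⁻¹ * (x : H) * g) * g⁻¹ = x
    group
  · apply Subtype.ext
    change g⁻¹ * (g * (x : H) * g⁻¹) * g = x
    group

theorem ov_eq (Q : Subgroup H) (h : H) : ov Q h = Nat.card (cj h Q ⊓ Q : Subgroup H) := by
  unfold ov
  refine Nat.card_congr (Equiv.subtypeEquivRight fun x => ?_)
  rw [Subgroup.mem_inf, mem_cj]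
  exact and_comm

theorem card_rel (K L : Subgroup H) :
    K.relIndex L * Nat.card (K ⊓ L : Subgroup H) = Nat.card L := by
  have h1 := (K.subgroupOf L).card_mul_index
  have h2 : Nat.card (K.subgroupOf L) = Nat.card (K ⊓ L : Subgroup H) := by
    refine Nat.card_congr ⟨fun x => ⟨x.1.1, Subgroup.mem_subgroupOf.1 x.2, x.1.2⟩,
      fun x => ⟨⟨x.1, x.2.2⟩, Subgroup.mem_subgroupOf.2 x.2.1⟩, fun x => rfl, fun x => rfl⟩
  rw [← h1, h2, mul_comm]
  rfl

/-- the intersection of the conjugates -/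
def IS (Q : Subgroup H) (S : Finset H) : Subgroup H := ⨅ g ∈ S, cj g Q

theorem mem_IS {Q : Subgroup H} {S : Finset H} {x : H} :
    x ∈ IS Q S ↔ ∀ g ∈ S, g⁻¹ * x * g ∈ Q := by
  unfold IS
  simp only [Subgroup.mem_iInf, mem_cj]

/-- the group generated by the conjugates -/
def JS (Q : Subgroup H) (S : Finset H) : Subgroup H := ⨆ g ∈ S, cj g Q

theorem le_JS (Q : Subgroup H) {S : Finset H} {g : H} (h : g ∈ S) : cj g Q ≤ JS Q S :=
  le_iSup₂_of_le g h le_rfl

variable [Finite H]

theorem rel_ne (K L : Subgroup H) : K.relIndex L ≠ 0 := by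
  intro h
  have h1 := card_rel K L
  rw [h, zero_mul] at h1
  exact Nat.card_pos.ne h1

/-- the coset orbit -/
def orb (R A : Subgroup H) : Set (H ⧸ R) := (fun a : H => (a : H ⧸ R)) '' (A : Set H)

theorem ncard_orb (R A : Subgroup H) : (orb R A).ncard = R.relIndex A := by
  have h1 := MulAction.index_stabilizer A ((1 : H) : H ⧸ R)
  have h2 : MulAction.stabilizer A ((1 : H) : H ⧸ R) = R.subgroupOf A := by
    ext a
    rw [MulAction.mem_stabilizer_iff, Subgroup.mem_subgroupOf]
    change (((a : H) * 1 : H) : H ⧸ R) = ((1 : H) : H ⧸ R) ↔ _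
    rw [mul_one, eq_comm, QuotientGroup.eq, inv_one, one_mul]
  have h3 : MulAction.orbit A ((1 : H) : H ⧸ R) = orb R A := by
    ext z
    constructor
    · rintro ⟨a, rfl⟩
      refine ⟨a, a.2, ?_⟩
      change ((a : H) : H ⧸ R) = (((a : H) * 1 : H) : H ⧸ R)
      rw [mul_one]
    · rintro ⟨a, ha, rfl⟩
      refine ⟨⟨a, ha⟩, ?_⟩
      change ((a * 1 : H) : H ⧸ R) = ((a : H) : H ⧸ R)
      rw [mul_one]
  rw [← h3, ← h1, h2]
  rfl

theorem cover {R A I : Subgroup H} (hIA : I ≤ A) (h : R.relIndex A ≤ R.relIndex I) :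
    ∀ a ∈ A, ∃ i ∈ I, i⁻¹ * a ∈ R := by
  intro a ha
  have h1 : orb R I = orb R A := by
    refine Set.eq_of_subset_of_ncard_le (Set.image_mono hIA) ?_ (Set.toFinite _)
    rw [ncard_orb, ncard_orb]
    exact h
  have h2 : ((a : H) : H ⧸ R) ∈ orb R I := by
    rw [h1]
    exact ⟨a, ha, rfl⟩
  obtain ⟨i, hi, h3⟩ := h2
  exact ⟨i, hi, QuotientGroup.eq.1 h3⟩

theorem rel_le_of_cover {R J I : Subgroup H} (h : ∀ a ∈ J, ∃ i ∈ I, i⁻¹ * a ∈ R) :
    R.relIndex J ≤ R.relIndex I := by
  rw [← ncard_orb, ← ncard_orb]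
  refine Set.ncard_le_ncard ?_ (Set.toFinite _)
  rintro _ ⟨a, ha, rfl⟩
  obtain ⟨i, hi, h3⟩ := h a ha
  exact ⟨i, hi, QuotientGroup.eq.2 h3⟩

/-- the stabilizer of a set -/
def stab (B : Set H) : Subgroup H where
  carrier := {x | (∀ y ∈ B, x * y ∈ B) ∧ ∀ y ∈ B, x⁻¹ * y ∈ B}
  mul_mem' := by
    rintro a b ⟨ha, ha'⟩ ⟨hb, hb'⟩
    refine ⟨fun y hy => ?_, fun y hy => ?_⟩
    · rw [mul_assoc]
      exact ha _ (hb _ hy)
    · rw [mul_inv_rev, mul_assoc]
      exact hb' _ (ha' _ hy)
  one_mem' := by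
    refine ⟨fun y hy => ?_, fun y hy => ?_⟩
    · rwa [one_mul]
    · rwa [inv_one, one_mul]
  inv_mem' := by
    rintro a ⟨ha, ha'⟩
    refine ⟨ha', ?_⟩
    rw [inv_inv]
    exact ha

theorem gen_bound (Q : Subgroup H) (m : ℕ) (S F : Finset H) (hF : F.Nonempty)
    (hSm : ∀ h, (cj h Q).relIndex (IS Q S) ≤ m) (g : H)
    (hg : ∀ (I : Subgroup H), (∀ x, x ∈ I ↔ ∀ h ∈ F, h⁻¹ * x * h ∈ IS Q S) →
      m ≤ (cj g Q).relIndex I) :
    Nat.card (JS (IS Q S) F) ≤ m * Nat.card Q := by
  set R := cj g Q with hR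
  set I : Subgroup H := IS (IS Q S) F with hI
  have hIm : m ≤ R.relIndex I := hg I fun x => mem_IS
  have hA : ∀ h ∈ F, ∀ a ∈ cj h (IS Q S), ∃ i ∈ I, i⁻¹ * a ∈ R := by
    intro h hh
    apply cover
    · intro x hx
      rw [mem_cj]
      exact mem_IS.1 hx h hh
    · rw [hR, relIndex_cj]
      exact (hSm _).trans hIm
  set B : Set H := {x | ∃ i ∈ I, i⁻¹ * x ∈ R} with hB
  have hst : ∀ h ∈ F, ∀ a ∈ cj h (IS Q S), ∀ y ∈ B, a * y ∈ B := by
    rintro h hh a ha y ⟨i, hi, hiy⟩
    have hia : a * i ∈ cj h (IS Q S) := by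
      refine Subgroup.mul_mem _ ha ?_
      rw [mem_cj]
      exact mem_IS.1 hi h hh
    obtain ⟨i', hi', h1⟩ := hA h hh _ hia
    refine ⟨i', hi', ?_⟩
    have : i'⁻¹ * (a * y) = (i'⁻¹ * (a * i)) * (i⁻¹ * y) := by group
    rw [this]
    exact R.mul_mem h1 hiy
  have hJ : JS (IS Q S) F ≤ stab B := by
    refine iSup₂_le fun h hh a ha => ⟨hst h hh a ha, hst h hh a⁻¹ (Subgroup.inv_mem _ ha)⟩
  have hJB : ∀ a ∈ JS (IS Q S) F, ∃ i ∈ I, i⁻¹ * a ∈ R := by
    intro a ha
    have h1 : (1 : H) ∈ B := ⟨1, I.one_mem, by simp [R.one_mem]⟩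
    have h2 := (hJ ha).1 1 h1
    rwa [mul_one] at h2
  obtain ⟨h0, hh0⟩ := hF
  have hIA : I ≤ cj h0 (IS Q S) := fun x hx => by
    rw [mem_cj]
    exact mem_IS.1 hx h0 hh0
  have h1 : R.relIndex (JS (IS Q S) F) ≤ m := by
    refine (rel_le_of_cover hJB).trans ?_
    refine (Subgroup.relIndex_le_of_le_right hIA (rel_ne _ _)).trans ?_
    rw [hR, relIndex_cj]
    exact hSm _
  rw [← card_rel R (JS (IS Q S) F)]
  refine Nat.mul_le_mul h1 ?_
  rw [← card_cj g Q]
  exact Subgroup.card_le_of_le inf_le_left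

theorem chain (I0 : Subgroup H) (n : ℕ) : ∃ F : Finset H, F.Nonempty ∧ F.card ≤ n + 1 ∧
    ((∀ h, cj h I0 ≤ JS I0 F) ∨ 2 ^ n * Nat.card I0 ≤ Nat.card (JS I0 F)) := by
  classical
  induction n with
  | zero =>
    refine ⟨{1}, Finset.singleton_nonempty _, by simp, Or.inr ?_⟩
    rw [pow_zero, one_mul]
    refine Subgroup.card_le_of_le ?_
    have := le_JS I0 (Finset.mem_singleton_self (1 : H))
    rwa [cj_one] at this
  | succ n ih =>
    obtain ⟨F, hF, hFc, h | h⟩ := ih
    · exact ⟨F, hF, hFc.trans (Nat.le_succ _), Or.inl h⟩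
    by_cases hall : ∀ h, cj h I0 ≤ JS I0 F
    · exact ⟨F, hF, hFc.trans (Nat.le_succ _), Or.inl hall⟩
    push Not at hall
    obtain ⟨g, hg⟩ := hall
    refine ⟨insert g F, Finset.insert_nonempty _ _,
      (Finset.card_insert_le _ _).trans (Nat.succ_le_succ hFc), Or.inr ?_⟩
    have hle : JS I0 F ≤ JS I0 (insert g F) :=
      iSup₂_le fun h hh => le_JS I0 (Finset.mem_insert_of_mem hh)
    have h1 := card_rel (JS I0 F) (JS I0 (insert g F))
    rw [inf_of_le_left hle] at h1
    have h2 : (JS I0 F).relIndex (JS I0 (insert g F)) ≠ 1 := by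
      rw [Ne, Subgroup.relIndex_eq_one]
      intro h3
      exact hg ((le_JS I0 (Finset.mem_insert_self _ _)).trans h3)
    have h3 := rel_ne (JS I0 F) (JS I0 (insert g F))
    have h4 : 2 ≤ (JS I0 F).relIndex (JS I0 (insert g F)) := by omega
    calc 2 ^ (n + 1) * Nat.card I0 = 2 * (2 ^ n * Nat.card I0) := by ring
      _ ≤ 2 * Nat.card (JS I0 F) := Nat.mul_le_mul_left _ h
      _ ≤ (JS I0 F).relIndex (JS I0 (insert g F)) * Nat.card (JS I0 F) :=
        Nat.mul_le_mul_right _ h4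
      _ = _ := h1

theorem rel_W {W : ℕ} {Q : Subgroup H} (hQ : ∀ h : H, Nat.card Q ≤ W * ov Q h) (h g : H) :
    (cj h Q).relIndex (cj g Q) ≤ W := by
  rw [relIndex_cj]
  have h1 := hQ (g⁻¹ * h)
  rw [ov_eq, ← card_rel (cj (g⁻¹ * h) Q) Q] at h1
  exact Nat.le_of_mul_le_mul_right h1 Nat.card_pos

theorem rel_IS_W {W : ℕ} {Q : Subgroup H} (hQ : ∀ h : H, Nat.card Q ≤ W * ov Q h)
    {S : Finset H} (hS : S.Nonempty) (h : H) : (cj h Q).relIndex (IS Q S) ≤ W := by
  obtain ⟨g, hg⟩ := hS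
  refine (Subgroup.relIndex_le_of_le_right (L := cj g Q) ?_ (rel_ne _ _)).trans (rel_W hQ h g)
  intro x hx
  rw [mem_cj]
  exact mem_IS.1 hx g hg

theorem card_IS {W : ℕ} {Q : Subgroup H} (hQ : ∀ h : H, Nat.card Q ≤ W * ov Q h) (hW : 1 ≤ W)
    {S : Finset H} (hS : S.Nonempty) : Nat.card Q ≤ W ^ S.card * Nat.card (IS Q S) := by
  classical
  induction S using Finset.induction_on with
  | empty => exact absurd hS Finset.not_nonempty_empty
  | insert g S hg ih =>
    rw [Finset.card_insert_of_notMem hg]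
    have he : IS Q (insert g S) = cj g Q ⊓ IS Q S := by
      unfold IS
      rw [Finset.iInf_insert]
    by_cases hS' : S.Nonempty
    · refine (ih hS').trans ?_
      rw [he, pow_succ, mul_assoc]
      refine Nat.mul_le_mul_left _ ?_
      rw [← card_rel (cj g Q) (IS Q S)]
      exact Nat.mul_le_mul_right _ (rel_IS_W hQ hS' g)
    · rw [Finset.not_nonempty_iff_eq_empty] at hS'
      subst hS'
      have h2 : IS Q (∅ : Finset H) = ⊤ := by
        unfold IS
        simp
      rw [he, h2, inf_top_eq, card_cj]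
      exact Nat.le_mul_of_pos_left _ (pow_pos hW _)

theorem key {W : ℕ} {Q : Subgroup H} (hQ : ∀ h : H, Nat.card Q ≤ W * ov Q h) (hW : 1 ≤ W)
    (k c m : ℕ) (hc : W ^ (k + 1) < 2 ^ c) (hm : m ≤ W) (S : Finset H) (hS : S.Nonempty)
    (hSk : S.card ≤ k) (hSm : ∀ h, (cj h Q).relIndex (IS Q S) ≤ m)
    (hmin : ∀ S' : Finset H, S'.Nonempty → S'.card ≤ (c + 1) * k →
      ∃ h, m ≤ (cj h Q).relIndex (IS Q S')) :
    ∃ I : Subgroup H, I ≤ Q ∧ Nat.card Q ≤ W ^ k * Nat.card I ∧
      Nat.card (Subgroup.normalClosure (I : Set H)) ≤ W * Nat.card Q := by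
  classical
  obtain ⟨F, hF, hFc, hor⟩ := chain (IS Q S) c
  have hQI : Nat.card Q ≤ W ^ k * Nat.card (IS Q S) :=
    (card_IS hQ hW hS).trans (Nat.mul_le_mul_right _ (Nat.pow_le_pow_right hW hSk))
  have hbd : Nat.card (JS (IS Q S) F) ≤ m * Nat.card Q := by
    obtain ⟨g, hg⟩ := hmin ((F ×ˢ S).image fun p => p.1 * p.2)
      ((Finset.Nonempty.product hF hS).image _) (by
        refine Finset.card_image_le.trans ?_
        rw [Finset.card_product]
        exact Nat.mul_le_mul hFc hSk)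
    refine gen_bound Q m S F hF hSm g fun I hI => ?_
    have he : I = IS Q ((F ×ˢ S).image fun p => p.1 * p.2) := by
      ext x
      rw [hI, mem_IS]
      constructor
      · intro h g hg
        obtain ⟨⟨a, b⟩, hab, rfl⟩ := Finset.mem_image.1 hg
        rw [Finset.mem_product] at hab
        have := mem_IS.1 (h a hab.1) b hab.2
        have e : (a * b)⁻¹ * x * (a * b) = b⁻¹ * (a⁻¹ * x * a) * b := by group
        change (a * b)⁻¹ * x * (a * b) ∈ Q
        rw [e]
        exact this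
      · intro h a ha
        rw [mem_IS]
        intro b hb
        have := h (a * b) (Finset.mem_image.2 ⟨(a, b), Finset.mem_product.2 ⟨ha, hb⟩, rfl⟩)
        have e : (a * b)⁻¹ * x * (a * b) = b⁻¹ * (a⁻¹ * x * a) * b := by group
        rwa [e] at this
    rw [he]
    exact hg
  have hbd' : Nat.card (JS (IS Q S) F) ≤ W * Nat.card Q :=
    hbd.trans (Nat.mul_le_mul_right _ hm)
  have hall : ∀ h, cj h (IS Q S) ≤ JS (IS Q S) F := by
    rcases hor with h | h
    · exact h
    · exfalso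
      have h1 : 2 ^ c * Nat.card (IS Q S) ≤ W ^ (k + 1) * Nat.card (IS Q S) := by
        refine h.trans (hbd'.trans ?_)
        rw [pow_succ']
        rw [mul_assoc]
        exact Nat.mul_le_mul_left _ hQI
      exact absurd (Nat.le_of_mul_le_mul_right h1 Nat.card_pos) (not_le.2 hc)
  obtain ⟨s, hs⟩ := hS
  refine ⟨cj s⁻¹ (IS Q S), ?_, ?_, ?_⟩
  · intro x hx
    rw [mem_cj, inv_inv] at hx
    have := mem_IS.1 hx s hs
    have e : s⁻¹ * (s * x * s⁻¹) * s = x := by group
    rwa [e] at this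
  · rw [card_cj]
    exact hQI
  · refine le_trans (Subgroup.card_le_of_le ?_) hbd'
    refine (Subgroup.closure_le _).2 ?_
    intro x hx
    obtain ⟨a, ha, hax⟩ := Group.mem_conjugatesOfSet_iff.1 hx
    obtain ⟨h, rfl⟩ := isConj_iff.1 hax
    have ha' : a ∈ cj s⁻¹ (IS Q S) := ha
    rw [mem_cj, inv_inv] at ha'
    refine hall (h * s⁻¹) ?_
    rw [mem_cj]
    have e : (h * s⁻¹)⁻¹ * (h * a * h⁻¹) * (h * s⁻¹) = s * a * s⁻¹ := by group
    rw [e]
    exact ha'

/-- the sequence of the numbers of conjugates -/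
def seq (W : ℕ) : ℕ → ℕ
  | 0 => 1
  | i + 1 => (W ^ (seq W i + 1) + 1) * seq W i

theorem seq_mono (W : ℕ) : Monotone (seq W) := by
  refine monotone_nat_of_le_succ fun i => ?_
  change seq W i ≤ (W ^ (seq W i + 1) + 1) * seq W i
  exact Nat.le_mul_of_pos_left _ (Nat.succ_pos _)

theorem seq_pos (W : ℕ) (i : ℕ) : 1 ≤ seq W i := seq_mono W (Nat.zero_le i)

/-- `k` conjugates suffice for the bound `m` -/
def Bd (Q : Subgroup H) (k m : ℕ) : Prop := ∃ S : Finset H, S.Nonempty ∧ S.card ≤ k ∧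
  ∀ h, (cj h Q).relIndex (IS Q S) ≤ m

theorem step {W : ℕ} (f : ℕ → ℕ) (h0 : f 0 ≤ W) (h1 : ∀ i, 1 ≤ f i) :
    ∃ i < W, f i ≤ f (i + 1) := by
  by_contra hcon
  push Not at hcon
  have : ∀ i ≤ W, f i + i ≤ f 0 := by
    intro i
    induction i with
    | zero => intro _; simp
    | succ i ih =>
      intro hi
      have := ih (by omega)
      have := hcon i (by omega)
      omega
  have h2 := this W le_rfl
  have h3 := h1 W
  omega

end BLx

open BLx in
theorem prf_BL : S_BL := by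
  intro W
  refine ⟨seq W W, ?_⟩
  intro H _ _ Q hQ
  classical
  have hW : 1 ≤ W := by
    rcases Nat.eq_zero_or_pos W with h | h
    · have := hQ 1
      rw [h, zero_mul] at this
      exact absurd this (not_le.2 Nat.card_pos)
    · exact h
  have hB : ∀ k, 1 ≤ k → Bd Q k W := fun k hk =>
    ⟨{1}, Finset.singleton_nonempty _, by simpa using hk,
      fun h => rel_IS_W hQ (Finset.singleton_nonempty _) h⟩
  have hex : ∀ i, ∃ m, Bd Q (seq W i) m := fun i => ⟨W, hB _ (seq_pos W i)⟩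
  obtain ⟨i, hiW, hi⟩ := step (fun i => Nat.find (hex i))
    (Nat.find_min' _ (hB _ (seq_pos W 0)))
    (fun i => by
      obtain ⟨S, _, _, h⟩ := Nat.find_spec (hex i)
      exact (Nat.one_le_iff_ne_zero.2 (rel_ne _ _)).trans (h 1))
  obtain ⟨S, hS, hc, h⟩ := Nat.find_spec (hex i)
  obtain ⟨I, hI, hQI, hN⟩ := key hQ hW (seq W i) (W ^ (seq W i + 1)) (Nat.find (hex i))
    Nat.lt_two_pow_self (Nat.find_min' _ (hB _ (seq_pos W i))) S hS hc h (by
      intro S' hS' hc'
      by_contra hcon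
      push Not at hcon
      have hpos : 1 ≤ Nat.find (hex i) := Nat.one_le_of_lt (hcon 1)
      have h2 : Nat.find (hex (i + 1)) ≤ Nat.find (hex i) - 1 :=
        Nat.find_min' _ ⟨S', hS', hc', fun g => by have := hcon g; omega⟩
      have h3 : Nat.find (hex i) ≤ Nat.find (hex (i + 1)) := hi
      omega)
  exact ⟨I, hI, hQI.trans (Nat.mul_le_mul_right _
    (Nat.pow_le_pow_right hW (seq_mono W hiW.le))), hN⟩

end Pool.Agent.RB

end

section

/-!
# Normal subgroups of groups without solvable normal subgroups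
-/

set_option autoImplicit false

namespace Pool.Agent.RB

namespace NSx

theorem map_solvable {H K : Type} [Group H] [Group K] (f : H →* K) (N : Subgroup H)
    (hN : Group.IsSolvable N) : Group.IsSolvable (N.map f) :=
  Group.isSolvable_of_surjective (f := f.subgroupMap N) (f.subgroupMap_surjective N)

theorem sup_solvable {H : Type} [Group H] (N S : Subgroup H) [S.Normal]
    (hN : Group.IsSolvable N) (hS : Group.IsSolvable S) :
    Group.IsSolvable (N ⊔ S : Subgroup H) := by
  have hmem : ∀ x : (N ⊔ S : Subgroup H), QuotientGroup.mk' S (x : H) ∈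
      N.map (QuotientGroup.mk' S) := by
    intro x
    have h1 : (N ⊔ S).map (QuotientGroup.mk' S) = N.map (QuotientGroup.mk' S) := by
      rw [Subgroup.map_sup]
      have h2 : S.map (QuotientGroup.mk' S) = ⊥ := by
        rw [Subgroup.map_eq_bot_iff, QuotientGroup.ker_mk']
      rw [h2, sup_bot_eq]
    rw [← h1]
    exact Subgroup.mem_map_of_mem _ x.2
  let g : (N ⊔ S : Subgroup H) →* N.map (QuotientGroup.mk' S) :=
    ((QuotientGroup.mk' S).comp (N ⊔ S).subtype).codRestrict _ hmem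
  let f : S →* (N ⊔ S : Subgroup H) := Subgroup.inclusion le_sup_right
  have : Group.IsSolvable (N.map (QuotientGroup.mk' S)) := map_solvable _ N hN
  refine Group.isSolvable_of_ker_le_range f g ?_
  intro x hx
  have h1 : QuotientGroup.mk' S (x : H) = 1 := by
    have := congrArg Subtype.val (MonoidHom.mem_ker.1 hx)
    exact this
  have h2 : (x : H) ∈ S := by
    have h3 : (x : H) ∈ (QuotientGroup.mk' S).ker := h1
    rwa [QuotientGroup.ker_mk'] at h3
  exact ⟨⟨x, h2⟩, rfl⟩

end NSx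

open NSx in
theorem prf_NS : S_NS := by
  intro K _ _ hK H hH N hN hNs
  obtain ⟨S, ⟨hSn, hSs⟩, hmax⟩ := Set.exists_max_image
    {S : Subgroup H | S.Normal ∧ Group.IsSolvable S} (fun S => Nat.card S) (Set.toFinite _)
    ⟨N, hN, hNs⟩
  have hle : ∀ M : Subgroup H, M.Normal → Group.IsSolvable M → M ≤ S := by
    intro M hM hMs
    have h1 : (M ⊔ S).Normal := Subgroup.sup_normal M S
    have h2 : Group.IsSolvable (M ⊔ S : Subgroup H) := sup_solvable M S hMs hSs
    have h3 := hmax (M ⊔ S) ⟨h1, h2⟩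
    have h4 : S = M ⊔ S := Subgroup.eq_of_le_of_card_ge le_sup_right h3
    rw [h4]
    exact le_sup_left
  have hconj : ∀ (k : K) (x : H), x ∈ S → MulAut.conjNormal k x ∈ S := by
    intro k x hx
    have h1 : (S.map (MulAut.conjNormal k : MulAut H).toMonoidHom).Normal :=
      Subgroup.Normal.map hSn _ (MulAut.conjNormal k : MulAut H).surjective
    have h2 := hle _ h1 (map_solvable _ S hSs)
    exact h2 (Subgroup.mem_map_of_mem _ hx)
  have hnorm : (S.map H.subtype).Normal := by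
    constructor
    rintro _ ⟨x, hx, rfl⟩ k
    refine ⟨MulAut.conjNormal k x, hconj k x hx, ?_⟩
    simp [MulAut.conjNormal_apply]
  have hbot := hK _ hnorm (map_solvable _ S hSs)
  rw [Subgroup.map_eq_bot_iff_of_injective _ H.subtype_injective] at hbot
  have := hle N hN hNs
  rw [hbot] at this
  exact le_bot_iff.1 this

end Pool.Agent.RB

end

section

/-!
# A normal subgroup with a solvable subgroup of small index is small
-/

set_option autoImplicit false

namespace Pool.Agent.RB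

theorem prf_G4 (hNS : S_NS) : S_G4 := by
  intro H _ _ hH w T I hT hIT hI hc
  have hTS := hNS H hH T hT
  have hJs : Group.IsSolvable (I.subgroupOf T) :=
    Group.isSolvable_of_isSolvable_injective (f := (Subgroup.subgroupOfEquivOfLe hIT).toMonoidHom)
      (Subgroup.subgroupOfEquivOfLe hIT).injective
  have hcs : Group.IsSolvable (I.subgroupOf T).normalCore :=
    Group.isSolvable_of_isSolvable_injective
      (f := Subgroup.inclusion (Subgroup.normalCore_le (I.subgroupOf T)))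
      (Subgroup.inclusion_injective _)
  have hbot := hTS _ (Subgroup.normalCore_normal _) hcs
  have hcI : Nat.card (I.subgroupOf T) = Nat.card I :=
    Nat.card_congr (Subgroup.subgroupOfEquivOfLe hIT).toEquiv
  have hidx : (I.subgroupOf T).index ≤ w := by
    have h1 := Subgroup.card_mul_index (I.subgroupOf T)
    rw [hcI] at h1
    have h2 : 0 < Nat.card I := Nat.card_pos
    rw [← h1, mul_comm w] at hc
    exact Nat.le_of_mul_le_mul_left hc h2
  rw [Subgroup.normalCore_eq_ker] at hbot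
  have hinj := (MonoidHom.ker_eq_bot_iff _).1 hbot
  have h3 := Nat.card_le_card_of_injective _ hinj
  rw [Nat.card_perm] at h3
  exact h3.trans (Nat.factorial_le hidx)

end Pool.Agent.RB

end

section

/-!
# Item QB: the bound for a solvable subgroup with many large intersections
-/

set_option autoImplicit false
set_option linter.unusedSectionVars false

namespace Pool.Agent.RB

namespace QBx

variable {H : Type} [Group H]

theorem card_sub (K L : Subgroup H) :
    Nat.card (K.subgroupOf L) = Nat.card (K ⊓ L : Subgroup H) :=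
  Nat.card_congr ⟨fun x => ⟨x.1.1, Subgroup.mem_subgroupOf.1 x.2, x.1.2⟩,
    fun x => ⟨⟨x.1, x.2.2⟩, Subgroup.mem_subgroupOf.2 x.2.1⟩, fun _ => rfl, fun _ => rfl⟩

theorem card_rel (K L : Subgroup H) :
    K.relIndex L * Nat.card (K ⊓ L : Subgroup H) = Nat.card L := by
  have h1 := (K.subgroupOf L).card_mul_index
  rw [← h1, card_sub, mul_comm]
  rfl

variable [Finite H]

theorem rel_ne (K L : Subgroup H) : K.relIndex L ≠ 0 := by
  intro h
  have h1 := card_rel K L
  rw [h, zero_mul] at h1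
  exact Nat.card_pos.ne h1

theorem core_index (L : Subgroup H) : L.normalCore.index ≤ L.index.factorial := by
  rw [Subgroup.normalCore_eq_ker, Subgroup.index_ker]
  refine (Subgroup.card_le_card_group _).trans ?_
  rw [Nat.card_perm]
  rfl

theorem ov_sub {K₀ Q : Subgroup H} (hQ : Q ≤ K₀) (h : K₀) :
    ov (Q.subgroupOf K₀) h = ov Q (h : H) := by
  unfold ov
  refine Nat.card_congr ⟨fun y => ⟨y.1.1, Subgroup.mem_subgroupOf.1 y.2.1,
    Subgroup.mem_subgroupOf.1 y.2.2⟩, fun y => ⟨⟨y.1, hQ y.2.1⟩,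
    Subgroup.mem_subgroupOf.2 y.2.1, Subgroup.mem_subgroupOf.2 y.2.2⟩, fun _ => rfl, fun _ => rfl⟩

/-- intersecting with `K₁` -/
theorem inter {T I K₁ : Subgroup H} (hIT : I ≤ T) (w : ℕ) (h : Nat.card T ≤ w * Nat.card I) :
    Nat.card (T.subgroupOf K₁) ≤ w * Nat.card (I.subgroupOf K₁) := by
  rw [card_sub, card_sub]
  have h1 := card_rel I T
  rw [inf_of_le_left hIT] at h1
  rw [← h1] at h
  have h2 : I.relIndex T ≤ w := Nat.le_of_mul_le_mul_right h Nat.card_pos
  have h3 := card_rel I (T ⊓ K₁)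
  rw [← inf_assoc, inf_of_le_left hIT] at h3
  rw [← h3]
  refine Nat.mul_le_mul_right _ ?_
  exact (Subgroup.relIndex_le_of_le_right inf_le_left (rel_ne _ _)).trans h2

theorem main {W k w : ℕ} (hNS : S_NS) (hG4 : S_G4) (hK : NoSol H) (Q K₀ : Subgroup H)
    (hQs : Group.IsSolvable Q) (I : Subgroup K₀)
    (hi : K₀.index ≤ w) (hIQ : I ≤ Q.subgroupOf K₀)
    (h1 : Nat.card Q ≤ W ^ k * Nat.card I)
    (h2 : Nat.card (Subgroup.normalClosure (I : Set K₀)) ≤ W * Nat.card Q) :
    Nat.card Q ≤ W ^ k * (w.factorial * (W ^ (k + 1)).factorial) := by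
  set T₀ : Subgroup K₀ := Subgroup.normalClosure (I : Set K₀) with hT₀
  set I' : Subgroup H := I.map K₀.subtype with hI'
  set T' : Subgroup H := T₀.map K₀.subtype with hT'
  have cI : Nat.card I' = Nat.card I :=
    Nat.card_congr (I.equivMapOfInjective K₀.subtype K₀.subtype_injective).toEquiv.symm
  have cT : Nat.card T' = Nat.card T₀ :=
    Nat.card_congr (T₀.equivMapOfInjective K₀.subtype K₀.subtype_injective).toEquiv.symm
  have hIT : I' ≤ T' := Subgroup.map_mono Subgroup.subset_normalClosure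
  have hI'Q : I' ≤ Q := by
    rintro _ ⟨x, hx, rfl⟩
    exact Subgroup.mem_subgroupOf.1 (hIQ hx)
  have hT'I : Nat.card T' ≤ W ^ (k + 1) * Nat.card I' := by
    rw [cT, cI]
    refine h2.trans ?_
    rw [pow_succ', mul_assoc]
    exact Nat.mul_le_mul_left _ h1
  set K₁ : Subgroup H := K₀.normalCore with hK₁
  have hK₁n : K₁.Normal := Subgroup.normalCore_normal _
  have hK₁₀ : K₁ ≤ K₀ := Subgroup.normalCore_le _
  have hNS1 : NoSol K₁ := hNS H hK K₁ hK₁n
  have hT1n : (T'.subgroupOf K₁).Normal := by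
    constructor
    intro x hx g
    rw [Subgroup.mem_subgroupOf] at hx ⊢
    obtain ⟨y, hy, hyx⟩ := hx
    have hy' : y ∈ T₀ := hy
    have hn : T₀.Normal := Subgroup.normalClosure_normal
    refine ⟨⟨g, hK₁₀ g.2⟩ * y * (⟨g, hK₁₀ g.2⟩ : K₀)⁻¹, hn.conj_mem y hy' _, ?_⟩
    have hyx' : (y : H) = (x : H) := hyx
    change (g : H) * (y : H) * (g : H)⁻¹ = (g : H) * (x : H) * (g : H)⁻¹
    rw [hyx']
  have hI1s : Group.IsSolvable (I'.subgroupOf K₁) := by
    let f' : (I'.subgroupOf K₁) →* Q := (K₁.subtype.comp (I'.subgroupOf K₁).subtype).codRestrict Q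
      (fun x => hI'Q (Subgroup.mem_subgroupOf.1 x.2))
    have hf : Function.Injective f' := by
      intro x y hxy
      have : ((x : K₁) : H) = ((y : K₁) : H) := congrArg (fun z : Q => (z : H)) hxy
      exact Subtype.ext (Subtype.ext this)
    exact Group.isSolvable_of_isSolvable_injective hf
  have h3 := hG4 K₁ hNS1 (W ^ (k + 1)) (T'.subgroupOf K₁) (I'.subgroupOf K₁) hT1n
    (fun x hx => hIT hx) hI1s (inter hIT _ hT'I)
  rw [card_sub] at h3
  have h4 := card_rel K₁ T'
  have h5 : K₁.relIndex T' ≤ w.factorial := by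
    refine (Nat.le_of_dvd (Nat.pos_of_ne_zero ?_) (Subgroup.relIndex_dvd_index_of_normal K₁ T')).trans
      ((core_index K₀).trans (Nat.factorial_le hi))
    exact Subgroup.index_ne_zero_of_finite
  calc Nat.card Q ≤ W ^ k * Nat.card I := h1
    _ = W ^ k * Nat.card I' := by rw [cI]
    _ ≤ W ^ k * Nat.card T' := Nat.mul_le_mul_left _ (Subgroup.card_le_of_le hIT)
    _ ≤ _ := by
      refine Nat.mul_le_mul_left _ ?_
      rw [← h4, inf_comm]
      exact Nat.mul_le_mul h5 h3

end QBx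

open QBx in
theorem prf_QB (hG2 : S_G2) (hBL : S_BL) (hNS : S_NS) (hG4 : S_G4) : S_QB := by
  intro a ha
  obtain ⟨k, hk⟩ := hBL ((2 * a) ^ (6 * a))
  refine ⟨((2 * a) ^ (6 * a)) ^ k *
    ((2 * a).factorial * (((2 * a) ^ (6 * a)) ^ (k + 1)).factorial), ?_⟩
  intro K _ _ hK Q hQs hQ
  obtain ⟨K₀, hQK, hi, hov⟩ := hG2 K Q a ha hQ
  have hc : Nat.card (Q.subgroupOf K₀) = Nat.card Q := by
    rw [card_sub, inf_of_le_left hQK]
  obtain ⟨I, hI, h1, h2⟩ := hk K₀ (Q.subgroupOf K₀) (fun h => by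
    rw [hc, ov_sub hQK]
    exact hov h h.2)
  rw [hc] at h1 h2
  exact main hNS hG4 hK Q K₀ hQs I hi hI h1 h2

end Pool.Agent.RB

end

section

/-!
# The order of `K` is bounded by the Sylow subgroups
-/

set_option autoImplicit false

namespace Pool.Agent.RB

theorem prf_GM (hG5 : S_G5) (hG1 : S_G1) (hQB : S_QB) : S_GM := by
  intro a ha
  obtain ⟨F₀, hF₀⟩ := hQB a ha
  refine ⟨(F₀ + 1) ^ (a + 1), ?_⟩
  intro K _ _ hK hHK
  have key : ∀ p ∈ (Nat.card K).primeFactors,
      p ≤ a ∧ p ^ (Nat.card K).factorization p ≤ F₀ := by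
    intro p hp
    have hpp : p.Prime := Nat.prime_of_mem_primeFactors hp
    have : Fact p.Prime := ⟨hpp⟩
    obtain ⟨Q⟩ := (inferInstance : Nonempty (Sylow p K))
    have hnil : Group.IsNilpotent (Q : Subgroup K) := Q.isPGroup'.isNilpotent
    have hsol : Group.IsSolvable (Q : Subgroup K) := inferInstance
    have hne : (Q : Subgroup K) ≠ ⊥ := by
      have h1 : p ∣ Nat.card Q := Q.dvd_card_of_dvd_card (Nat.dvd_of_mem_primeFactors hp)
      intro h2
      have h3 : Nat.card Q = 1 := by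
        have h4 : Nat.card (Q : Subgroup K) = 1 := by rw [h2]; exact Subgroup.card_bot
        exact h4
      rw [h3] at h1
      exact hpp.one_lt.ne' (Nat.dvd_one.1 h1)
    have hN : Subgroup.normalizer (Q : Set K) ≠ ⊤ := by
      intro h1
      exact hne (hK _ (Subgroup.normalizer_eq_top_iff.1 h1) hsol)
    refine ⟨hG5 K p Q a hN (hHK p Q), ?_⟩
    rw [← Q.card_eq_multiplicity]
    exact hF₀ K hK Q hsol (hG1 K p Q a ha (hHK p Q))
  have h0 : Nat.card K ≠ 0 := Nat.card_pos.ne'
  have hsub : (Nat.card K).primeFactors ⊆ Finset.range (a + 1) := by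
    intro p hp
    rw [Finset.mem_range]
    exact Nat.lt_succ_of_le (key p hp).1
  have hcard : (Nat.card K).primeFactors.card ≤ a + 1 := by
    have := Finset.card_le_card hsub
    rwa [Finset.card_range] at this
  calc Nat.card K = ∏ p ∈ (Nat.card K).primeFactors, p ^ (Nat.card K).factorization p := by
        conv_lhs => rw [← Nat.prod_factorization_pow_eq_self h0]
        rfl
    _ ≤ ∏ _p ∈ (Nat.card K).primeFactors, (F₀ + 1) :=
        Finset.prod_le_prod' fun p hp => (key p hp).2.trans (Nat.le_succ _)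
    _ = (F₀ + 1) ^ (Nat.card K).primeFactors.card := by
        rw [Finset.prod_const]
    _ ≤ (F₀ + 1) ^ (a + 1) := Nat.pow_le_pow_right (Nat.succ_pos _) hcard

end Pool.Agent.RB

end

section

/-!
# A weak form of Jordan's theorem

A finite group without nontrivial abelian normal subgroups which acts faithfully on `ℂ ^ d` has
bounded order.
-/

set_option autoImplicit false

open Module

namespace Pool.Agent.RB

namespace JORx

section

variable {K : Type} [Group K] {E : Type} [NormedRing E]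

theorem norm_mul_left (φ : K →* E) (h1 : ∀ g, ‖φ g‖ ≤ 1) (g : K) (a : E) : ‖φ g * a‖ ≤ ‖a‖ :=
  (norm_mul_le _ _).trans (by
    have := mul_le_mul_of_nonneg_right (h1 g) (norm_nonneg a)
    rwa [one_mul] at this)

theorem norm_mul_right (φ : K →* E) (h1 : ∀ g, ‖φ g‖ ≤ 1) (g : K) (a : E) : ‖a * φ g‖ ≤ ‖a‖ :=
  (norm_mul_le _ _).trans (by
    have := mul_le_mul_of_nonneg_left (h1 g) (norm_nonneg a)
    rwa [mul_one] at this)

theorem conj_le (φ : K →* E) (h1 : ∀ g, ‖φ g‖ ≤ 1) (g x : K) :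
    ‖φ (x * g * x⁻¹) - 1‖ ≤ ‖φ g - 1‖ := by
  have h : φ (x * g * x⁻¹) - 1 = φ x * (φ g - 1) * φ x⁻¹ := by
    rw [mul_sub, sub_mul, mul_one, ← map_mul, ← map_mul, ← map_mul, mul_inv_cancel, map_one]
  rw [h]
  exact (norm_mul_right φ h1 _ _).trans (norm_mul_left φ h1 _ _)

theorem comm_le (φ : K →* E) (h1 : ∀ g, ‖φ g‖ ≤ 1) (g h : K) :
    ‖φ (g * h * g⁻¹ * h⁻¹) - 1‖ ≤ 2 * ‖φ g - 1‖ * ‖φ h - 1‖ := by
  have e : φ (g * h * g⁻¹ * h⁻¹) - 1 =
      ((φ g - 1) * (φ h - 1) - (φ h - 1) * (φ g - 1)) * φ (g⁻¹ * h⁻¹) := by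
    have e1 : (φ g - 1) * (φ h - 1) - (φ h - 1) * (φ g - 1) = φ g * φ h - φ h * φ g := by
      noncomm_ring
    rw [e1, sub_mul, ← map_mul, ← map_mul, ← map_mul, ← map_mul]
    have e2 : h * g * (g⁻¹ * h⁻¹) = 1 := by group
    rw [e2, map_one]
    congr 2
    group
  rw [e]
  refine (norm_mul_right φ h1 _ _).trans ((norm_sub_le _ _).trans ?_)
  have t1 := norm_mul_le (φ g - 1) (φ h - 1)
  have t2 := norm_mul_le (φ h - 1) (φ g - 1)
  nlinarith

theorem sep (φ : K →* E) [Finite K] (hK : NoAb K) (h1 : ∀ g, ‖φ g‖ ≤ 1)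
    (hinj : Function.Injective φ) (g : K) (hg : g ≠ 1) : 1 / 2 ≤ ‖φ g - 1‖ := by
  by_contra hlt
  push Not at hlt
  obtain ⟨g₀, ⟨hg₀, hg₀'⟩, hmin⟩ := Set.exists_min_image
    {g : K | g ≠ 1 ∧ ‖φ g - 1‖ < 1 / 2} (fun g => ‖φ g - 1‖) (Set.toFinite _) ⟨g, hg, hlt⟩
  have hpos : 0 < ‖φ g₀ - 1‖ := by
    rw [norm_pos_iff, sub_ne_zero]
    intro h
    exact hg₀ (hinj (h.trans (map_one φ).symm))
  have hcomm : ∀ a b : K, ‖φ a - 1‖ ≤ ‖φ g₀ - 1‖ → ‖φ b - 1‖ < 1 / 2 → a * b = b * a := by
    intro a b ha hb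
    by_contra hne
    have hc : a * b * a⁻¹ * b⁻¹ ≠ 1 := by
      intro h
      apply hne
      rw [mul_inv_eq_one, mul_inv_eq_iff_eq_mul] at h
      exact h
    rcases eq_or_ne a 1 with h | h
    · exact hne (by rw [h]; simp)
    have hpa : 0 < ‖φ a - 1‖ := by
      rw [norm_pos_iff, sub_ne_zero]
      intro h'
      exact h (hinj (h'.trans (map_one φ).symm))
    have h2 := comm_le φ h1 a b
    have h3 : 2 * ‖φ a - 1‖ * ‖φ b - 1‖ < ‖φ a - 1‖ := by nlinarith
    have h4 : ‖φ (a * b * a⁻¹ * b⁻¹) - 1‖ < ‖φ g₀ - 1‖ := by linarith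
    have h5 := hmin (a * b * a⁻¹ * b⁻¹) ⟨hc, h4.trans hg₀'⟩
    exact absurd h4 (not_lt.2 h5)
  have hS : ∀ a ∈ Group.conjugatesOfSet {g₀}, ‖φ a - 1‖ ≤ ‖φ g₀ - 1‖ := by
    intro a ha
    rw [Group.mem_conjugatesOfSet_iff] at ha
    obtain ⟨b, hb, hab⟩ := ha
    rw [Set.mem_singleton_iff] at hb
    subst hb
    obtain ⟨c, rfl⟩ := isConj_iff.1 hab
    exact conj_le φ h1 _ _
  have hpair : ∀ a ∈ Group.conjugatesOfSet {g₀}, ∀ b ∈ Group.conjugatesOfSet {g₀},
      a * b = b * a := fun a ha b hb => hcomm a b (hS a ha) ((hS b hb).trans_lt hg₀')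
  have hab : ∀ x ∈ Subgroup.normalClosure {g₀}, ∀ y ∈ Subgroup.normalClosure {g₀},
      x * y = y * x := by
    have s1 : Subgroup.normalClosure {g₀} ≤ Subgroup.centralizer (Group.conjugatesOfSet {g₀}) := by
      unfold Subgroup.normalClosure
      rw [Subgroup.closure_le]
      intro a ha
      rw [SetLike.mem_coe, Subgroup.mem_centralizer_iff]
      intro b hb
      exact hpair b hb a ha
    have s2 : Subgroup.normalClosure {g₀} ≤
        Subgroup.centralizer (Subgroup.normalClosure {g₀} : Set K) := by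
      conv_lhs => unfold Subgroup.normalClosure
      rw [Subgroup.closure_le]
      intro a ha
      rw [SetLike.mem_coe, Subgroup.mem_centralizer_iff]
      intro b hb
      exact ((Subgroup.mem_centralizer_iff.1 (s1 hb)) a ha).symm
    intro x hx y hy
    exact ((Subgroup.mem_centralizer_iff.1 (s2 hx)) y hy).symm
  have hbot := hK (Subgroup.normalClosure {g₀}) Subgroup.normalClosure_normal hab
  have hmem : g₀ ∈ Subgroup.normalClosure {g₀} :=
    Subgroup.subset_normalClosure (Set.mem_singleton g₀)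
  rw [hbot, Subgroup.mem_bot] at hmem
  exact hg₀ hmem

theorem card_le [NormedSpace ℝ E] [FiniteDimensional ℝ E] [Finite K] (hK : NoAb K)
    (φ : K →* E) (h1 : ∀ g, ‖φ g‖ ≤ 1) (hinj : Function.Injective φ) :
    Nat.card K ≤ 5 ^ finrank ℝ E := by
  classical
  have := Fintype.ofFinite K
  have hinj2 : Function.Injective (fun g : K => (2 : ℝ) • φ g) := by
    intro g h hgh
    have hgh' : (2 : ℝ) • φ g = (2 : ℝ) • φ h := hgh
    exact hinj (smul_right_injective E (two_ne_zero) hgh')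
  have hc : (Finset.univ.image (fun g : K => (2 : ℝ) • φ g)).card = Nat.card K := by
    rw [Finset.card_image_of_injective _ hinj2, Finset.card_univ, Nat.card_eq_fintype_card]
  rw [← hc]
  refine Besicovitch.card_le_of_separated _ ?_ ?_
  · intro c hcm
    obtain ⟨g, -, rfl⟩ := Finset.mem_image.1 hcm
    rw [norm_smul, Real.norm_ofNat]
    have := h1 g
    linarith
  · intro c hcm d hdm hcd
    obtain ⟨g, -, rfl⟩ := Finset.mem_image.1 hcm
    obtain ⟨h, -, rfl⟩ := Finset.mem_image.1 hdm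
    have hne : g * h⁻¹ ≠ 1 := by
      intro h'
      apply hcd
      rw [mul_inv_eq_one] at h'
      rw [h']
    have h2 := sep φ hK h1 hinj _ hne
    have h3 : φ (g * h⁻¹) - 1 = (φ g - φ h) * φ h⁻¹ := by
      rw [sub_mul, ← map_mul, ← map_mul, mul_inv_cancel, map_one]
    rw [h3] at h2
    have h4 := h2.trans (norm_mul_right φ h1 h⁻¹ (φ g - φ h))
    rw [← smul_sub, norm_smul, Real.norm_ofNat]
    linarith

theorem card_le' [NormedSpace ℂ E] [FiniteDimensional ℂ E] [Finite K] (hK : NoAb K)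
    (φ : K →* E) (h1 : ∀ g, ‖φ g‖ ≤ 1) (hinj : Function.Injective φ) :
    Nat.card K ≤ 5 ^ (2 * finrank ℂ E) := by
  have : FiniteDimensional ℝ E := FiniteDimensional.complexToReal E
  rw [← finrank_real_of_complex]
  exact card_le hK φ h1 hinj

end

section

variable {K : Type} [Group K] {d : ℕ}

/-- the orbit map -/
noncomputable def orb (ρ : Representation ℂ K (Fin d → ℂ)) :
    (Fin d → ℂ) →ₗ[ℂ] (K → Fin d → ℂ) := LinearMap.pi (fun k => ρ k)

/-- the translation -/
def tr (K : Type) [Group K] (d : ℕ) (g : K) : (K → Fin d → ℂ) →ₗ[ℂ] (K → Fin d → ℂ) :=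
  LinearMap.funLeft ℂ (Fin d → ℂ) (fun k => k * g)

theorem tr_apply (g : K) (f : K → Fin d → ℂ) (k : K) : tr K d g f k = f (k * g) := rfl

theorem tr_orb (ρ : Representation ℂ K (Fin d → ℂ)) (g : K) (x : Fin d → ℂ) :
    tr K d g (orb ρ x) = orb ρ (ρ g x) := by
  funext k
  rw [tr_apply]
  change ρ (k * g) x = ρ k (ρ g x)
  rw [map_mul]
  rfl

theorem tr_mem (ρ : Representation ℂ K (Fin d → ℂ)) (g : K) :
    ∀ w ∈ LinearMap.range (orb ρ), tr K d g w ∈ LinearMap.range (orb ρ) := by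
  rintro _ ⟨x, rfl⟩
  exact ⟨ρ g x, (tr_orb ρ g x).symm⟩

variable [Fintype K]

/-- the action on the orbit space -/
noncomputable def act (ρ : Representation ℂ K (Fin d → ℂ)) (g : K) :
    LinearMap.range (orb ρ) →L[ℂ] LinearMap.range (orb ρ) :=
  LinearMap.toContinuousLinearMap ((tr K d g).restrict (tr_mem ρ g))

omit [Fintype K] in
theorem act_coe (ρ : Representation ℂ K (Fin d → ℂ)) (g : K) (w : LinearMap.range (orb ρ)) :
    ((act ρ g w : LinearMap.range (orb ρ)) : K → Fin d → ℂ) = tr K d g w := rfl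

theorem act_norm (ρ : Representation ℂ K (Fin d → ℂ)) (g : K) : ‖act ρ g‖ ≤ 1 := by
  refine ContinuousLinearMap.opNorm_le_bound _ zero_le_one fun w => ?_
  rw [one_mul, ← Submodule.norm_coe, ← Submodule.norm_coe, act_coe]
  rw [pi_norm_le_iff_of_nonneg (norm_nonneg _)]
  intro k
  rw [tr_apply]
  exact norm_le_pi_norm _ _

/-- the homomorphism -/
noncomputable def hom (ρ : Representation ℂ K (Fin d → ℂ)) :
    K →* (LinearMap.range (orb ρ) →L[ℂ] LinearMap.range (orb ρ)) where
  toFun := act ρ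
  map_one' := by
    ext w k i
    rw [act_coe, tr_apply, mul_one]
    rfl
  map_mul' := by
    intro g h
    ext w k i
    rw [act_coe, tr_apply]
    change _ = ((act ρ g (act ρ h w) : LinearMap.range (orb ρ)) : K → Fin d → ℂ) k i
    rw [act_coe, tr_apply, act_coe, tr_apply, mul_assoc]

omit [Fintype K] in
theorem hom_injective (ρ : Representation ℂ K (Fin d → ℂ)) (hρ : Function.Injective ρ) :
    Function.Injective (hom ρ) := by
  intro g h hgh
  apply hρ
  refine LinearMap.ext fun x => ?_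
  have h1 : act ρ g ⟨orb ρ x, x, rfl⟩ = act ρ h ⟨orb ρ x, x, rfl⟩ :=
    congrArg (fun f : LinearMap.range (orb ρ) →L[ℂ] LinearMap.range (orb ρ) =>
      f ⟨orb ρ x, x, rfl⟩) hgh
  have h2 := congrArg (fun w : LinearMap.range (orb ρ) => (w : K → Fin d → ℂ) 1) h1
  have h3 : tr K d g (orb ρ x) 1 = tr K d h (orb ρ x) 1 := h2
  rw [tr_orb, tr_orb] at h3
  have h4 : ρ 1 (ρ g x) = ρ 1 (ρ h x) := h3
  rw [map_one] at h4
  exact h4

theorem finrank_le (ρ : Representation ℂ K (Fin d → ℂ)) :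
    finrank ℂ (LinearMap.range (orb ρ) →L[ℂ] LinearMap.range (orb ρ)) ≤ d * d := by
  rw [← (LinearMap.toContinuousLinearMap (𝕜 := ℂ) (E := LinearMap.range (orb ρ))
      (F' := LinearMap.range (orb ρ))).finrank_eq, finrank_linearMap]
  have h : finrank ℂ (LinearMap.range (orb ρ)) ≤ d := by
    have := LinearMap.finrank_range_le (orb ρ)
    rwa [finrank_fin_fun] at this
  exact Nat.mul_le_mul h h

end

end JORx

open JORx in
theorem prf_JOR : S_JOR := by
  intro d
  refine ⟨5 ^ (2 * (d * d)), ?_⟩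
  intro K _ _ hK ρ hρ
  have := Fintype.ofFinite K
  refine (card_le' (E := LinearMap.range (orb ρ) →L[ℂ] LinearMap.range (orb ρ)) hK (hom ρ)
    (act_norm ρ) (hom_injective ρ hρ)).trans ?_
  exact Nat.pow_le_pow_right (by norm_num) (Nat.mul_le_mul_left 2 (finrank_le ρ))

end Pool.Agent.RB

end

section

set_option autoImplicit false
set_option linter.unusedSectionVars false

open Module Representation Pool.Agent.DC7914 Pool.Agent.RadIndex

namespace Pool.Agent.RB

namespace P1x

/-- abelian normal subgroups are solvable -/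
theorem noAb_of_noSol {K : Type} [Group K] (h : NoSol K) : NoAb K := by
  intro N hN hc
  apply h N hN
  apply Group.isSolvable_of_comm
  intro x y
  exact Subtype.ext (hc x x.2 y y.2)

/-- Case A: a representation of small degree -/
theorem caseA (hCONJ : S_CONJ) (J : ℕ → ℕ)
    (hJ : ∀ (d : ℕ) (K : Type) [Group K] [Finite K], NoAb K →
      ∀ ρ : Representation ℂ K (Fin d → ℂ), Function.Injective ρ → Nat.card K ≤ J d)
    (G : Type) [Group G] [Finite G] (M T : Subgroup G) [M.Normal] [T.Normal]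
    (hMT : MinOver M T) (hns : NoSol (T ⧸ M.subgroupOf T)) (χ : G → ℂ) (hχ : IsIrrChar χ)
    (hne : ip T χ χ ≠ ip M χ χ) :
    ∃ d, d ≤ dg χ ^ 2 ∧ Nat.card (T ⧸ M.subgroupOf T) ≤ J d := by
  obtain ⟨d, σ, hd, hM, hU⟩ := hCONJ G M χ hχ
  refine ⟨d, hd, ?_⟩
  obtain ⟨hTn, hle, hneq, hmin⟩ := hMT
  set N : Subgroup G := T ⊓ MonoidHom.ker (σ : G →* End ℂ (Fin d → ℂ)) with hN
  have hNn : N.Normal := by
    rw [hN]
    infer_instance
  have hMN : M ≤ N := by
    intro u hu
    rw [hN, Subgroup.mem_inf, MonoidHom.mem_ker]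
    exact ⟨hle hu, hM u hu⟩
  have hNT : N ≤ T := inf_le_left
  have hNM : N = M := by
    rcases hmin N hNn hMN hNT with h | h
    · exact h
    · exfalso
      apply hne
      rw [← hU T hle]
      intro u hu
      rw [← h, hN, Subgroup.mem_inf, MonoidHom.mem_ker] at hu
      exact hu.2
  let τ : T →* End ℂ (Fin d → ℂ) := (σ : G →* End ℂ (Fin d → ℂ)).comp T.subtype
  let ρ : Representation ℂ (T ⧸ M.subgroupOf T) (Fin d → ℂ) :=
    QuotientGroup.lift (M.subgroupOf T) τ (by
      intro x hx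
      rw [Subgroup.mem_subgroupOf] at hx
      exact hM x hx)
  refine hJ d (T ⧸ M.subgroupOf T) (noAb_of_noSol hns) ρ ?_
  have hinj : Function.Injective (ρ : (T ⧸ M.subgroupOf T) →* End ℂ (Fin d → ℂ)) := by
    rw [← MonoidHom.ker_eq_bot_iff, eq_bot_iff]
    intro x
    induction x using QuotientGroup.induction_on with
    | _ t =>
      intro hx
      rw [MonoidHom.mem_ker] at hx
      have h1 : σ (t : G) = 1 := hx
      rw [Subgroup.mem_bot, QuotientGroup.eq_one_iff, Subgroup.mem_subgroupOf, ← hNM, hN,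
        Subgroup.mem_inf, MonoidHom.mem_ker]
      exact ⟨t.2, h1⟩
  exact hinj

/-- Case B: the inequality for the normalisers of the Sylow subgroups -/
theorem caseB (hCB : S_CB) (hFR : S_FR) (hOVK : S_OVK) (G : Type) [Group G] [Finite G]
    (M T : Subgroup G) [M.Normal] [T.Normal] (hMT : M ≤ T) (hT : T ≤ M ⊔ ⁅T, T⁆) (A : ℕ)
    (hA : acd G ≤ A)
    (hB : ∀ χ : G → ℂ, IsIrrChar χ → ip T χ χ ≠ ip M χ χ → 2 * A < dg χ)
    (p : ℕ) [Fact p.Prime] (Q : Sylow p (T ⧸ M.subgroupOf T)) :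
    HK (2 * A) (Subgroup.normalizer (Q : Set (T ⧸ M.subgroupOf T))) := by
  set N := Subgroup.normalizer (Q : Set (T ⧸ M.subgroupOf T)) with hN
  obtain ⟨h1, h2, h3, h4⟩ := hFR G M T hMT p Q (ysub M T N) rfl
  have h5 := hCB G M (ysub M T N) T _ h1 h2 h3 h4 hT A hA hB
  obtain ⟨e1, e2, e3⟩ := hOVK G M T hMT N
  rw [e1, e2, e3] at h5
  unfold HK
  have hm : 0 < Nat.card M := Nat.card_pos
  have hm2 : 0 < Nat.card M ^ 2 := pow_pos hm 2
  apply Nat.le_of_mul_le_mul_left _ hm2
  calc Nat.card M ^ 2 * (Nat.card N * Nat.card (T ⧸ M.subgroupOf T) + 2 * A * Nat.card N ^ 2)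
      = Nat.card M * Nat.card N * (Nat.card M * Nat.card (T ⧸ M.subgroupOf T)) +
        2 * A * (Nat.card M * Nat.card N) ^ 2 := by ring
    _ ≤ _ := h5
    _ = _ := by ring

end P1x

theorem prf_P1 (hAVG : S_AVG) (hCONJ : S_CONJ) (hJOR : S_JOR) (hCB : S_CB) (hFR : S_FR)
    (hOVK : S_OVK) (hGM : S_GM) : S_P1 := by
  intro A
  rcases Nat.eq_zero_or_pos A with rfl | hA
  · refine ⟨0, ?_⟩
    intro G _ _ M T _ _ _ _ _ hacd
    exfalso
    obtain ⟨θ, hθ, hle⟩ := hAVG G M 0 hacd
    rw [zero_mul, Nat.le_zero, Finset.sum_eq_zero_iff] at hle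
    have := hle θ (self_mem_cls M hθ)
    exact (dg_pos hθ).ne' this
  · obtain ⟨F, hF⟩ := hGM (2 * A) (by omega)
    choose J hJ using hJOR
    refine ⟨F + ∑ d ∈ Finset.range (4 * A ^ 2 + 1), J d, ?_⟩
    intro G _ _ M T _ _ hmin hperf hns hacd
    by_cases hcase : ∃ χ : G → ℂ, IsIrrChar χ ∧ ip T χ χ ≠ ip M χ χ ∧ dg χ ≤ 2 * A
    · obtain ⟨χ, hχ, hne, hdg⟩ := hcase
      obtain ⟨d, hd, hc⟩ := P1x.caseA hCONJ J (fun d K _ _ => hJ d K) G M T hmin hns χ hχ hne
      have hd' : d ∈ Finset.range (4 * A ^ 2 + 1) := by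
        rw [Finset.mem_range, Nat.lt_succ_iff]
        calc d ≤ dg χ ^ 2 := hd
          _ ≤ (2 * A) ^ 2 := Nat.pow_le_pow_left hdg 2
          _ = 4 * A ^ 2 := by ring
      have := Finset.single_le_sum (f := J) (fun i _ => Nat.zero_le _) hd'
      omega
    · push Not at hcase
      have := hF (T ⧸ M.subgroupOf T) hns (fun p _ Q =>
        P1x.caseB hCB hFR hOVK G M T hmin.2.1 hperf A hacd hcase p Q)
      omega

end Pool.Agent.RB

end

section

/-!
# The project `RadicalBound`, item MAIN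
-/

set_option autoImplicit false

open Module Representation Pool.Agent.DC7914 Pool.Agent.RadIndex

namespace Pool.Agent.RB

theorem prf_MAIN (hM1 : S_M1) (hP1 : S_P1) (hP2 : S_P2) (hP3 : S_P3) : S_MAIN := by
  intro A
  obtain ⟨F, hF⟩ := hP1 ⌈A⌉₊
  refine ⟨F.factorial ^ ((2 * ⌈A⌉₊ + 1) ^ 5), ?_⟩
  intro G _ _ M _ hM hA
  have hA' : acd G ≤ (⌈A⌉₊ : ℝ) := hA.trans (Nat.le_ceil A)
  refine hP3 G M hM F _ ?_ ?_
  · intro T hT
    have := hT.1
    obtain ⟨h1, h2⟩ := hM1 G M T hM hT
    exact hF G M T hT h1 h2 hA'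
  · have e := Finite.equivFin {T : Subgroup G // MinOver M T}
    refine (hP2 G M (Nat.card {T : Subgroup G // MinOver M T}) ⌈A⌉₊
      (fun i => (e.symm i).1) ?_ ?_ ?_ hA').le
    · intro i
      exact (e.symm i).2
    · intro i j hij
      exact e.symm.injective (Subtype.ext hij)
    · intro i
      exact (hM1 G M _ hM (e.symm i).2).1

end Pool.Agent.RB

end
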