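import Pool.Agent.Work.MP_76dc41_al.RB.ItemsA
import Pool.Agent.Work.MP_76dc41_al.RB.ItemsB
import Pool.Agent.Work.MP_76dc41_al.RB.ItemsC

/-!
# Assembly: the index of the solvable radical is bounded in terms of the average character degree
-/

set_option autoImplicit false

namespace Pool.Agent.RB

open Pool.Agent.RadIndex

theorem thm_LB : S_LB := prf_LB prf_L3 (prf_L4 (prf_STAR prf_COL)) prf_L5

theorem thm_CB : S_CB := prf_CB thm_LB prf_UNI (prf_SQ prf_COL) prf_OVG prf_DEG prf_AVG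

theorem thm_QB : S_QB := prf_QB (prf_G2 prf_PROD) prf_BL prf_NS (prf_G4 prf_NS)

theorem thm_P1 : S_P1 :=
  prf_P1 prf_AVG prf_CONJ prf_JOR thm_CB prf_FR prf_OVK (prf_GM prf_G5 prf_G1 thm_QB)

theorem thm_STEP2 : S_STEP2 :=
  prf_STEP2 (prf_STEP thm_LB prf_UNI prf_DEG (prf_YEX prf_FR)) prf_UNI

theorem thm_P2 : S_P2 :=
  prf_P2 prf_AVG (prf_JB prf_CONJ) prf_MUL thm_STEP2 prf_COMB prf_M2 (prf_M3 prf_M2)

theorem thm_MAIN : S_MAIN := prf_MAIN prf_M1 thm_P1 thm_P2 prf_P3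

/-- the index of the solvable radical is bounded in terms of the average character degree -/
theorem radical_bound : ∀ A : ℝ, ∃ B : ℕ, ∀ (G : Type) [Group G] [Finite G] (R : Subgroup G),
    IsRad R → acd G ≤ A → R.index ≤ B := by
  intro A
  obtain ⟨B, hB⟩ := thm_MAIN A
  refine ⟨B, ?_⟩
  intro G _ _ R hR hA
  have : R.Normal := hR.1
  exact hB G R (prf_RAD G R hR) hA

end Pool.Agent.RB
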