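import Pool.Agent.Work.MP_76dc41_al.Bd.B03

/-!
# RadicalBound: proofs of the items COL, STAR, DEG, L3, L4, L5, LB, UNI, SQ, OVG, AVG, CB
-/

section

set_option autoImplicit false
set_option linter.unusedSectionVars false

open Module Representation Pool.Agent.DC7914 Pool.Agent.RadIndex

namespace Pool.Agent.RB

theorem prf_COL : S_COL := by
  intro G _ _ x y
  classical
  have := Fintype.ofFinite G
  -- the class function `z ↦ ∑ χ(z⁻¹) χ(y⁻¹) - #{g : g z⁻¹ g⁻¹ = y}`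
  let F : G → ℂ := fun z => ∑ χ ∈ irrs G, χ z⁻¹ * χ y⁻¹ -
    ∑ g : G, if g * z⁻¹ * g⁻¹ = y then (1 : ℂ) else 0
  have hF : IsClassFn F := by
    intro g t
    have e1 : ∀ χ ∈ irrs G, χ (t * g * t⁻¹)⁻¹ * χ y⁻¹ = χ g⁻¹ * χ y⁻¹ := by
      intro χ hχ
      have h1 : (t * g * t⁻¹)⁻¹ = t * g⁻¹ * t⁻¹ := by group
      rw [h1, (mem_irrs.1 hχ).conj]
    have e2 : ∑ s : G, (if s * (t * g * t⁻¹)⁻¹ * s⁻¹ = y then (1 : ℂ) else 0) =
        ∑ s : G, if s * g⁻¹ * s⁻¹ = y then (1 : ℂ) else 0 := by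
      refine Fintype.sum_equiv (Equiv.mulRight t) _ _ fun s => ?_
      have h1 : s * (t * g * t⁻¹)⁻¹ * s⁻¹ = (Equiv.mulRight t s) * g⁻¹ * (Equiv.mulRight t s)⁻¹ := by
        simp only [Equiv.coe_mulRight]
        group
      rw [h1]
    simp only [F, Finset.sum_congr rfl e1, e2]
  have h0 : F = 0 := by
    apply class_eq_zero F hF
    intro θ hθ
    have h1 : ∑ z, F z * θ z = 0 := by
      have e1 : ∀ z, F z * θ z = ∑ χ ∈ irrs G, χ y⁻¹ * (θ z * χ z⁻¹) -
          ∑ g : G, (if g * z⁻¹ * g⁻¹ = y then θ z else 0) := by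
        intro z
        simp only [F, sub_mul, Finset.sum_mul, ite_mul, one_mul, zero_mul]
        congr 1
        refine Finset.sum_congr rfl fun χ _ => ?_
        ring
      simp only [e1, Finset.sum_sub_distrib]
      rw [Finset.sum_comm, Finset.sum_comm (s := Finset.univ) (t := Finset.univ)]
      have e2 : ∀ χ ∈ irrs G, ∑ z, χ y⁻¹ * (θ z * χ z⁻¹) =
          if θ = χ then θ y⁻¹ * Nat.card G else 0 := by
        intro χ hχ
        rw [← Finset.mul_sum, hθ.orthonormal (mem_irrs.1 hχ)]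
        split_ifs with h
        · rw [h]
        · rw [mul_zero]
      rw [Finset.sum_congr rfl e2, Finset.sum_ite_eq, if_pos (mem_irrs.2 hθ)]
      have e3 : ∀ g : G, ∑ z : G, (if g * z⁻¹ * g⁻¹ = y then θ z else 0) = θ y⁻¹ := by
        intro g
        rw [Finset.sum_eq_single (g⁻¹ * y⁻¹ * g)]
        · rw [if_pos (by group)]
          have := hθ.conj y⁻¹ g⁻¹
          rwa [inv_inv] at this
        · intro z _ hz
          rw [if_neg]
          intro h
          apply hz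
          rw [← h]
          group
        · intro h
          exact absurd (Finset.mem_univ _) h
      simp only [e3, Finset.sum_const, Finset.card_univ, nsmul_eq_mul, Nat.card_eq_fintype_card]
      ring
    rw [om, h1, zero_div]
  have h1 := congrFun h0 x⁻¹
  simp only [F, inv_inv, Pi.zero_apply, sub_eq_zero] at h1
  rw [h1, Finset.sum_boole, Nat.card_eq_fintype_card, Fintype.card_subtype]

end Pool.Agent.RB

end

section

/-!
# Item STAR: the character `∑ [χ₀, χ]_T χ`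
-/

set_option autoImplicit false

open Module Representation Pool.Agent.DC7914 Pool.Agent.RadIndex

namespace Pool.Agent.RB

namespace STARx

variable {G : Type} [Group G] [Finite G]

theorem base (hCOL : S_COL) (T : Subgroup G) {χ₀ : G → ℂ} (h₀ : IsIrrChar χ₀) (x : G)
    [Fintype T] :
    (∑ χ ∈ irrs G, (ip T χ₀ χ : ℂ) * χ x) * Nat.card T =
      ∑ t : T, χ₀ (t : G) * (Nat.card {g : G // g * x * g⁻¹ = (t : G)} : ℂ) := by
  have h1 : ∀ χ ∈ irrs G, (ip T χ₀ χ : ℂ) * χ x * Nat.card T =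
      ∑ t : T, χ₀ (t : G) * (χ x * χ (t : G)⁻¹) := by
    intro χ hχ
    have h2 := ip_spec T h₀ (mem_irrs.1 hχ)
    rw [finsum_eq_sum_of_fintype] at h2
    calc (ip T χ₀ χ : ℂ) * χ x * Nat.card T = ((ip T χ₀ χ : ℂ) * Nat.card T) * χ x := by ring
      _ = (∑ t : T, χ₀ (t : G) * χ (t : G)⁻¹) * χ x := by rw [h2]
      _ = ∑ t : T, χ₀ (t : G) * (χ x * χ (t : G)⁻¹) := by
          rw [Finset.sum_mul]
          refine Finset.sum_congr rfl fun t _ => ?_
          ring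
  rw [Finset.sum_mul, Finset.sum_congr rfl h1, Finset.sum_comm]
  refine Finset.sum_congr rfl fun t _ => ?_
  rw [← Finset.mul_sum, hCOL G x (t : G)]

end STARx

theorem prf_STAR (hCOL : S_COL) : S_STAR := by
  intro G _ _ T hT χ₀ h₀ x
  have := Fintype.ofFinite G
  have := Fintype.ofFinite T
  have hb := STARx.base hCOL T h₀ x
  have hT0 : (Nat.card T : ℂ) ≠ 0 := by exact_mod_cast Nat.card_pos.ne'
  constructor
  · intro hx
    have hsum : ∑ t : T, χ₀ (t : G) * (Nat.card {g : G // g * x * g⁻¹ = (t : G)} : ℂ) =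
        ∑ g : G, χ₀ (g * x * g⁻¹) := by
      classical
      have h1 : ∀ t : T, χ₀ (t : G) * (Nat.card {g : G // g * x * g⁻¹ = (t : G)} : ℂ) =
          ∑ g ∈ Finset.univ.filter (fun g : G => (⟨g * x * g⁻¹, hT.conj_mem x hx g⟩ : T) = t),
            χ₀ (g * x * g⁻¹) := by
        intro t
        have h2 : ∀ g ∈ Finset.univ.filter
            (fun g : G => (⟨g * x * g⁻¹, hT.conj_mem x hx g⟩ : T) = t),
            χ₀ (g * x * g⁻¹) = χ₀ (t : G) := by
          intro g hg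
          rw [← (Finset.mem_filter.1 hg).2]
        rw [Finset.sum_congr rfl h2, Finset.sum_const, nsmul_eq_mul, mul_comm]
        congr 2
        rw [Nat.card_eq_fintype_card, Fintype.card_subtype]
        congr 1
        ext g
        simp [Subtype.ext_iff]
      rw [Finset.sum_congr rfl (fun t _ => h1 t)]
      exact Finset.sum_fiberwise _ _ _
    rw [hsum, Finset.sum_congr rfl (fun g _ => h₀.conj x g), Finset.sum_const, nsmul_eq_mul,
      Finset.card_univ, ← Nat.card_eq_fintype_card, ← T.card_mul_index] at hb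
    push_cast at hb
    apply mul_right_cancel₀ hT0
    rw [hb]
    ring
  · intro hx
    have h1 : ∀ t : T, χ₀ (t : G) * (Nat.card {g : G // g * x * g⁻¹ = (t : G)} : ℂ) = 0 := by
      intro t
      have h2 : IsEmpty {g : G // g * x * g⁻¹ = (t : G)} := by
        constructor
        rintro ⟨g, hg⟩
        apply hx
        have h3 := hT.conj_mem (t : G) t.2 g⁻¹
        rw [← hg] at h3
        have h4 : g⁻¹ * (g * x * g⁻¹) * g⁻¹⁻¹ = x := by group
        rwa [h4] at h3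
      rw [Nat.card_of_isEmpty, Nat.cast_zero, mul_zero]
    rw [Finset.sum_congr rfl (fun t _ => h1 t), Finset.sum_const_zero] at hb
    exact (mul_eq_zero.1 hb).resolve_right hT0

end Pool.Agent.RB

end

section

/-!
# Item DEG: the degree of an induced character
-/

set_option autoImplicit false
set_option linter.unusedSectionVars false

open Module Representation Pool.Agent.DC7914 Pool.Agent.RadIndex

namespace Pool.Agent.RB

theorem prf_DEG : S_DEG := by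
  classical
  intro G _ _ U Λ hΛ
  have := Fintype.ofFinite G
  have hU : (Nat.card U : ℂ) ≠ 0 := by exact_mod_cast Nat.card_pos.ne'
  have key : ((∑ χ ∈ irrs G, ip U Λ χ * dg χ : ℕ) : ℂ) * Nat.card U =
      ((U.index * dg Λ : ℕ) : ℂ) * Nat.card U := by
    have h1 : ((∑ χ ∈ irrs G, ip U Λ χ * dg χ : ℕ) : ℂ) * Nat.card U =
        ∑ χ ∈ irrs G, (∑ u : U, Λ (u : G) * χ (u : G)⁻¹) * χ 1 := by
      rw [Nat.cast_sum, Finset.sum_mul]
      refine Finset.sum_congr rfl fun χ hχ => ?_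
      have hχ' := mem_irrs.1 hχ
      have h2 := ip_spec U hΛ hχ'
      rw [finsum_eq_sum_of_fintype] at h2
      rw [h2, ← dg_spec hχ', Nat.cast_mul]
      ring
    have h3 : ∑ χ ∈ irrs G, (∑ u : U, Λ (u : G) * χ (u : G)⁻¹) * χ 1 =
        ∑ u : U, Λ (u : G) * ∑ χ ∈ irrs G, χ 1 * χ (u : G)⁻¹ := by
      simp only [Finset.sum_mul, Finset.mul_sum]
      rw [Finset.sum_comm]
      refine Finset.sum_congr rfl fun u _ => Finset.sum_congr rfl fun χ _ => ?_
      ring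
    have h4 : ∑ u : U, Λ (u : G) * ∑ χ ∈ irrs G, χ 1 * χ (u : G)⁻¹ =
        Λ 1 * (Fintype.card G : ℂ) := by
      rw [Finset.sum_eq_single (1 : U)]
      · rw [sum_deg, if_pos (by simp)]
        simp
      · intro u _ hu
        rw [sum_deg, if_neg, mul_zero]
        intro h
        apply hu
        rw [inv_eq_one] at h
        exact Subtype.ext h
      · intro h
        exact absurd (Finset.mem_univ _) h
    rw [h1, h3, h4, ← dg_spec hΛ, ← Nat.card_eq_fintype_card, ← U.card_mul_index]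
    push_cast
    ring
  exact_mod_cast mul_right_cancel₀ hU key

end Pool.Agent.RB

end

section

/-!
# Item L3: a supplement of a normal subgroup
-/

set_option autoImplicit false

open Module Representation Pool.Agent.DC7914

namespace Pool.Agent.RB

namespace L3x

variable {G : Type} [Group G] {V W : Type} [AddCommGroup V] [Module ℂ V] [AddCommGroup W]
  [Module ℂ W]

/-- the elements which commute with `f` -/
def stab (ρ : Representation ℂ G V) (σ : Representation ℂ G W) (f : V →ₗ[ℂ] W) : Subgroup G where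
  carrier := {u | f ∘ₗ ρ u = σ u ∘ₗ f}
  one_mem' := by
    change f ∘ₗ ρ 1 = σ 1 ∘ₗ f
    rw [map_one, map_one]
    rfl
  mul_mem' := by
    intro a b ha hb
    change f ∘ₗ ρ a = σ a ∘ₗ f at ha
    change f ∘ₗ ρ b = σ b ∘ₗ f at hb
    change f ∘ₗ ρ (a * b) = σ (a * b) ∘ₗ f
    rw [map_mul, map_mul, Module.End.mul_eq_comp, Module.End.mul_eq_comp, ← LinearMap.comp_assoc,
      ha, LinearMap.comp_assoc, hb, LinearMap.comp_assoc]
  inv_mem' := by
    intro a ha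
    change f ∘ₗ ρ a = σ a ∘ₗ f at ha
    change f ∘ₗ ρ a⁻¹ = σ a⁻¹ ∘ₗ f
    have h1 : ρ a ∘ₗ ρ a⁻¹ = LinearMap.id := by
      have h := map_mul ρ a a⁻¹
      rw [mul_inv_cancel, map_one] at h
      exact h.symm
    have h2 : σ a⁻¹ ∘ₗ σ a = LinearMap.id := by
      have h := map_mul σ a⁻¹ a
      rw [inv_mul_cancel, map_one] at h
      exact h.symm
    calc f ∘ₗ ρ a⁻¹ = (σ a⁻¹ ∘ₗ σ a) ∘ₗ (f ∘ₗ ρ a⁻¹) := by rw [h2, LinearMap.id_comp]
      _ = σ a⁻¹ ∘ₗ ((σ a ∘ₗ f) ∘ₗ ρ a⁻¹) := by simp only [LinearMap.comp_assoc]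
      _ = σ a⁻¹ ∘ₗ (f ∘ₗ (ρ a ∘ₗ ρ a⁻¹)) := by rw [← ha, LinearMap.comp_assoc]
      _ = σ a⁻¹ ∘ₗ f := by rw [h1, LinearMap.comp_id]

lemma homs_sup {L T : Subgroup G} {ρ : Representation ℂ G V} {σ : Representation ℂ G W}
    {f : V →ₗ[ℂ] W} (hL : f ∈ homs L ρ σ) (hT : f ∈ homs T ρ σ) : f ∈ homs (L ⊔ T) ρ σ := by
  have h1 : L ≤ stab ρ σ f := fun u hu => hL u hu
  have h2 : T ≤ stab ρ σ f := fun u hu => hT u hu
  exact fun u hu => (sup_le h1 h2) hu

end L3x

theorem prf_L3 : S_L3 := by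
  intro G _ _ M T L _ _ hMT hML hLT Λ Λ' hΛ hΛ' he
  obtain ⟨n, ρ, hρ, rfl⟩ := hΛ
  obtain ⟨m, σ, hσ, rfl⟩ := hΛ'
  have h1 : homs T σ ρ = homs M σ ρ := homs_eq hMT σ ρ he
  have h2 : homs L σ ρ = homs ⊤ σ ρ := by
    apply le_antisymm
    · intro f hf
      have h3 : f ∈ homs T σ ρ := by
        rw [h1]
        exact homs_mono hML σ ρ hf
      rw [← hLT]
      exact L3x.homs_sup hf h3
    · exact homs_mono le_top σ ρ
  rw [ip_eq_finrank, ip_eq_finrank, h2]

end Pool.Agent.RB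

end

section

/-!
# Item L4: a character over `χ₀` which is not orthogonal to `Λ` on `L`
-/

set_option autoImplicit false

open Module Representation Pool.Agent.DC7914 Pool.Agent.RadIndex

namespace Pool.Agent.RB

namespace L4x

variable {G : Type} [Group G] [Finite G]

open Classical in
theorem fs [Fintype G] (U : Subgroup G) (F : G → ℂ) :
    ∑ᶠ u : U, F (u : G) = ∑ g : G, if g ∈ U then F g else 0 := by
  have := Fintype.ofFinite U
  rw [finsum_eq_sum_of_fintype, ← Finset.sum_filter]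
  exact (Finset.sum_subtype _ (fun g => by simp) F).symm

end L4x

theorem prf_L4 (hSTAR : S_STAR) : S_L4 := by
  intro G _ _ Y T L hT hY _ Λ χ₀ hΛ h₀ hne
  classical
  have := Fintype.ofFinite G
  by_contra hcon
  push Not at hcon
  have hz : ∀ χ ∈ irrs G, (ip T χ₀ χ : ℂ) * (ip L Λ χ : ℂ) = 0 := by
    intro χ hχ
    by_cases h1 : ip T χ₀ χ = 0
    · rw [h1, Nat.cast_zero, zero_mul]
    · have h2 : χ ∈ cls T χ₀ := mem_cls.2 ⟨mem_irrs.1 hχ, sim_of_ip h₀ (mem_irrs.1 hχ) h1⟩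
      rw [hcon χ h2, Nat.cast_zero, mul_zero]
  -- the double sum
  have hA : ∑ g : G, (if g ∈ L then Λ g * ∑ χ ∈ irrs G, (ip T χ₀ χ : ℂ) * χ g⁻¹ else 0) = 0 := by
    have h1 : ∀ g : G, (if g ∈ L then Λ g * ∑ χ ∈ irrs G, (ip T χ₀ χ : ℂ) * χ g⁻¹ else 0) =
        ∑ χ ∈ irrs G, (ip T χ₀ χ : ℂ) * (if g ∈ L then Λ g * χ g⁻¹ else 0) := by
      intro g
      by_cases hg : g ∈ L
      · simp only [if_pos hg]
        rw [Finset.mul_sum]
        exact Finset.sum_congr rfl fun χ _ => by ring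
      · simp only [if_neg hg, mul_zero, Finset.sum_const_zero]
    rw [Finset.sum_congr rfl (fun g _ => h1 g), Finset.sum_comm]
    refine Finset.sum_eq_zero fun χ hχ => ?_
    rw [← Finset.mul_sum, ← L4x.fs L (fun g => Λ g * χ g⁻¹), ip_spec L hΛ (mem_irrs.1 hχ),
      ← mul_assoc, hz χ hχ, zero_mul]
  have hB : ∑ g : G, (if g ∈ L then Λ g * ∑ χ ∈ irrs G, (ip T χ₀ χ : ℂ) * χ g⁻¹ else 0) =
      (T.index : ℂ) * ((ip Y Λ χ₀ : ℂ) * Nat.card Y) := by
    rw [← ip_spec Y hΛ h₀, L4x.fs Y (fun g => Λ g * χ₀ g⁻¹), Finset.mul_sum]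
    refine Finset.sum_congr rfl fun g _ => ?_
    by_cases hg : g ∈ L
    · rw [if_pos hg]
      by_cases hg' : g ∈ T
      · have h3 : g ∈ Y := by
          rw [← hY]
          exact ⟨hg, hg'⟩
        rw [if_pos h3, (hSTAR G T χ₀ h₀ g⁻¹).1 (T.inv_mem hg')]
        ring
      · have h3 : g ∉ Y := by
          rw [← hY]
          exact fun h4 => hg' h4.2
        have h5 : g⁻¹ ∉ T := fun h4 => hg' (by simpa using T.inv_mem h4)
        rw [if_neg h3, (hSTAR G T χ₀ h₀ g⁻¹).2 h5]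
        ring
    · have h3 : g ∉ Y := by
        rw [← hY]
        exact fun h4 => hg h4.1
      rw [if_neg hg, if_neg h3, mul_zero]
  rw [hA] at hB
  have i1 : (T.index : ℂ) ≠ 0 := by exact_mod_cast Subgroup.FiniteIndex.index_ne_zero
  have i2 : (ip Y Λ χ₀ : ℂ) ≠ 0 := by exact_mod_cast hne
  have i3 : (Nat.card Y : ℂ) ≠ 0 := by exact_mod_cast Nat.card_pos.ne'
  exact mul_ne_zero i1 (mul_ne_zero i2 i3) hB.symm

end Pool.Agent.RB

end

section

set_option autoImplicit false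
set_option linter.unusedSectionVars false

open Module Representation Pool.Agent.DC7914 Pool.Agent.RadIndex

namespace Pool.Agent.RB

namespace L5x

variable {G : Type} [Group G] [Finite G]

/-- restriction of a function to a subgroup -/
def rs (L : Subgroup G) (χ : G → ℂ) : L → ℂ := fun l => χ (l : G)

/-- restriction of a representation -/
def rr {n : ℕ} (L : Subgroup G) (ρ : Representation ℂ G (Fin n → ℂ)) :
    Representation ℂ L (Fin n → ℂ) := ρ.comp L.subtype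

theorem rs_char {n : ℕ} (L : Subgroup G) (ρ : Representation ℂ G (Fin n → ℂ)) :
    rs L ρ.character = (rr L ρ).character := rfl

/-- sums over `Y` and over `Y` as a subgroup of `L` -/
theorem sum_sub {Y L : Subgroup G} (h : Y ≤ L) (F : G → ℂ) :
    ∑ᶠ u : Y.subgroupOf L, F ((u : L) : G) = ∑ᶠ y : Y, F (y : G) :=
  finsum_eq_of_bijective (Subgroup.subgroupOfEquivOfLe h) (Subgroup.subgroupOfEquivOfLe h).bijective
    fun _ => rfl

theorem card_sub {Y L : Subgroup G} (h : Y ≤ L) :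
    Nat.card (Y.subgroupOf L) = Nat.card Y :=
  Nat.card_congr (Subgroup.subgroupOfEquivOfLe h).toEquiv

theorem spec (L : Subgroup G) (Y' : Subgroup L) {ψ : L → ℂ} {Λ : G → ℂ} (hψ : IsIrrChar ψ)
    (hΛ : IsIrrChar Λ) :
    ∑ᶠ u : Y', ψ (u : L) * rs L Λ (u : L)⁻¹ = (ip Y' ψ (rs L Λ) : ℂ) * Nat.card Y' := by
  obtain ⟨n, ρ, hρ, rfl⟩ := hψ
  obtain ⟨m, σ, hσ, rfl⟩ := hΛ
  rw [rs_char, ip_eq_finrank, finrank_homs]

/-- the sum over `L` -/
theorem sum_L (L : Subgroup G) [Fintype L] {χ ψ : G → ℂ} (hχ : IsIrrChar χ) (hψ : IsIrrChar ψ) :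
    ∑ l : L, rs L χ l * rs L ψ l⁻¹ = (ip L χ ψ : ℂ) * Nat.card L := by
  rw [← ip_spec L hχ hψ, finsum_eq_sum_of_fintype]
  rfl

theorem restrict_irr (L : Subgroup G) {θ : G → ℂ} (hθ : IsIrrChar θ)
    (h : ip L θ θ = ip ⊤ θ θ) : IsIrrChar (rs L θ) := by
  classical
  have := Fintype.ofFinite L
  have hL : (Nat.card L : ℂ) ≠ 0 := by exact_mod_cast Nat.card_pos.ne'
  rw [ip_top hθ hθ, if_pos rfl] at h
  have h1 := sum_L L hθ hθ
  rw [h] at h1
  obtain ⟨n, ρ, hρ, rfl⟩ := hθ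
  obtain ⟨s, hs, hsum⟩ := decomp (rr L ρ)
  rw [rs_char, hsum] at h1
  have h2 : ∀ t : Multiset (L → ℂ), (∀ ψ ∈ t, IsIrrChar ψ) →
      ∑ l : L, t.sum l * s.sum l⁻¹ = (((t.map fun ψ => s.count ψ).sum : ℕ) : ℂ) * Nat.card L := by
    intro t
    induction t using Multiset.induction_on with
    | empty => intro _; simp
    | cons ψ t ih =>
      intro ht
      have h3 := ih fun φ hφ => ht φ (Multiset.mem_cons_of_mem hφ)
      have h4 := inner_sum s (fun φ hφ => (hs φ hφ).1) ψ (ht ψ (Multiset.mem_cons_self ψ t))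
      rw [Multiset.sum_cons, Multiset.map_cons, Multiset.sum_cons]
      simp only [Pi.add_apply, add_mul, Finset.sum_add_distrib]
      rw [h3, h4]
      push_cast
      ring
  have h5 := h2 s fun ψ hψ => (hs ψ hψ).1
  rw [h5] at h1
  have h6 : (s.map fun ψ => s.count ψ).sum = 1 := by
    have := mul_right_cancel₀ hL h1
    exact_mod_cast this
  have h7 : s.card ≤ (s.map fun ψ => s.count ψ).sum := by
    have h8 : (s.map fun _ => 1).sum ≤ (s.map fun ψ => s.count ψ).sum :=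
      Multiset.sum_map_le_sum_map _ _ fun ψ hψ => Multiset.one_le_count_iff_mem.2 hψ
    simpa using h8
  rw [h6] at h7
  have h9 : s ≠ 0 := by
    rintro rfl
    simp at h6
  have h10 : s.card = 1 := by
    have := Multiset.card_pos.2 h9
    omega
  obtain ⟨ψ, rfl⟩ := Multiset.card_eq_one.1 h10
  rw [rs_char, hsum, Multiset.sum_singleton]
  exact (hs ψ (Multiset.mem_singleton_self ψ)).1

end L5x

open L5x in
theorem prf_L5 : S_L5 := by
  intro G _ _ Y L hYL S hS hSL χ Λ hχ hΛ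
  classical
  have := Fintype.ofFinite L
  have hL : (Nat.card L : ℂ) ≠ 0 := by exact_mod_cast Nat.card_pos.ne'
  have hY : (Nat.card Y : ℂ) ≠ 0 := by exact_mod_cast Nat.card_pos.ne'
  obtain ⟨s, hs, hsum⟩ : ∃ s : Multiset (L → ℂ), (∀ ψ ∈ s, IsIrrChar ψ) ∧ rs L χ = s.sum := by
    obtain ⟨n, ρ, hρ, rfl⟩ := hχ
    obtain ⟨s, hs, hsum⟩ := decomp (rr L ρ)
    exact ⟨s, fun ψ hψ => (hs ψ hψ).1, hsum⟩
  set Nf : (L → ℂ) → ℕ := fun ψ => ip (Y.subgroupOf L) ψ (rs L Λ) with hNf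
  -- the total
  have htot : ip Y χ Λ = (s.map Nf).sum := by
    have h1 := ip_spec Y hχ hΛ
    rw [← sum_sub hYL (fun g => χ g * Λ g⁻¹)] at h1
    have h2 : ∀ t : Multiset (L → ℂ), (∀ ψ ∈ t, IsIrrChar ψ) →
        ∑ᶠ u : Y.subgroupOf L, t.sum (u : L) * rs L Λ (u : L)⁻¹ =
          ((t.map Nf).sum : ℕ) * (Nat.card Y : ℂ) := by
      intro t
      have := Fintype.ofFinite (Y.subgroupOf L)
      induction t using Multiset.induction_on with
      | empty => intro _; simp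
      | cons ψ t ih =>
        intro ht
        have h3 := ih fun φ hφ => ht φ (Multiset.mem_cons_of_mem hφ)
        have h4 := spec L (Y.subgroupOf L) (ht ψ (Multiset.mem_cons_self ψ t)) hΛ
        rw [card_sub hYL] at h4
        rw [Multiset.sum_cons, Multiset.map_cons, Multiset.sum_cons]
        rw [finsum_eq_sum_of_fintype] at h3 h4 ⊢
        simp only [Pi.add_apply, add_mul, Finset.sum_add_distrib]
        rw [h3, h4]
        push_cast
        ring
    have h5 := h2 s hs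
    rw [← hsum] at h5
    have h6 : (∑ᶠ u : Y.subgroupOf L, χ ((u : L) : G) * Λ ((u : L) : G)⁻¹) =
        ∑ᶠ u : Y.subgroupOf L, rs L χ (u : L) * rs L Λ (u : L)⁻¹ := rfl
    rw [h6, h5] at h1
    have h7 := mul_right_cancel₀ hY h1
    exact_mod_cast h7.symm
  have hcount : ∀ θ ∈ S, ip L χ θ = s.count (rs L θ) := by
    intro θ hθ
    have hθi := hS θ hθ
    have h1 := sum_L L hθi hχ
    have h2 := inner_sum s hs (rs L θ) (restrict_irr L hθi (hSL θ hθ θ hθ))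
    rw [hsum, h2] at h1
    have h3 := mul_right_cancel₀ hL h1
    rw [ip_comm]
    exact_mod_cast h3.symm
  have hN : ∀ θ ∈ S, ip Y θ Λ = Nf (rs L θ) := by
    intro θ hθ
    have hθi := hS θ hθ
    have h1 := ip_spec Y hθi hΛ
    rw [← sum_sub hYL (fun g => θ g * Λ g⁻¹)] at h1
    have h4 := spec L (Y.subgroupOf L) (restrict_irr L hθi (hSL θ hθ θ hθ)) hΛ
    rw [card_sub hYL] at h4
    have h6 : (∑ᶠ u : Y.subgroupOf L, θ ((u : L) : G) * Λ ((u : L) : G)⁻¹) =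
        ∑ᶠ u : Y.subgroupOf L, rs L θ (u : L) * rs L Λ (u : L)⁻¹ := rfl
    rw [h6, h4] at h1
    have h7 := mul_right_cancel₀ hY h1
    exact_mod_cast h7.symm
  have hinj : Set.InjOn (rs L) (S : Set (G → ℂ)) := by
    intro θ hθ θ' hθ' he
    by_contra hne
    have hθi := hS θ hθ
    have hθi' := hS θ' hθ'
    have h1 := hSL θ hθ θ' hθ'
    rw [ip_top hθi hθi', if_neg hne] at h1
    have h2 := hSL θ hθ θ hθ
    rw [ip_top hθi hθi, if_pos rfl] at h2
    have h3 := sum_L L hθi hθi'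
    have h4 := sum_L L hθi hθi
    rw [← he, h4, h1, h2] at h3
    have h5 := mul_right_cancel₀ hL h3
    norm_num at h5
  calc ∑ θ ∈ S, ip L χ θ * ip Y θ Λ = ∑ θ ∈ S, s.count (rs L θ) * Nf (rs L θ) :=
        Finset.sum_congr rfl fun θ hθ => by rw [hcount θ hθ, hN θ hθ]
    _ = ∑ ψ ∈ S.image (rs L), s.count ψ * Nf ψ := by rw [Finset.sum_image hinj]
    _ ≤ ∑ ψ ∈ S.image (rs L) ∪ s.toFinset, s.count ψ * Nf ψ :=
        Finset.sum_le_sum_of_subset Finset.subset_union_left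
    _ = ∑ ψ ∈ s.toFinset, s.count ψ * Nf ψ := by
        symm
        apply Finset.sum_subset Finset.subset_union_right
        intro ψ _ hψ
        rw [Multiset.mem_toFinset] at hψ
        rw [Multiset.count_eq_zero_of_notMem hψ, zero_mul]
    _ = (s.map Nf).sum := by
        rw [Finset.sum_multiset_map_count]
        simp
    _ = ip Y χ Λ := htot.symm

end Pool.Agent.RB

end

section

/-!
# The lower bound for the sum of the degrees in a class
-/

set_option autoImplicit false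
set_option linter.unusedSectionVars false

open Module Representation Pool.Agent.DC7914 Pool.Agent.RadIndex

namespace Pool.Agent.RB

theorem prf_LB (hL3 : S_L3) (hL4 : S_L4) (hL5 : S_L5) : S_LB := by
  intro G _ _ M Y T L _ _ hMY hYT hLT hLT' Λ χ₀ hΛ hχ₀ h0 hmin hne
  have hML : M ≤ L := hMY.trans (hLT ▸ inf_le_left)
  have hYL : Y ≤ L := hLT ▸ inf_le_left
  have hMT : M ≤ T := hMY.trans hYT
  have hθ : ∀ θ ∈ cls T Λ, IsIrrChar θ := fun θ h => (mem_cls.1 h).1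
  have hs : ∀ θ ∈ cls T Λ, sim T Λ θ := fun θ h => (mem_cls.1 h).2
  have hpL : 0 < dg Λ := dg_pos hΛ
  have hY0 : ip Y Λ Λ = ip M Λ Λ :=
    (b0_ip hMY hYT hΛ hΛ (sim_refl T Λ) h0).trans h0
  -- the inner products on `L`
  have hS : ∀ θ ∈ cls T Λ, ∀ θ' ∈ cls T Λ, ip L θ θ' = ip ⊤ θ θ' := by
    intro θ h θ' h'
    refine hL3 G M T L hMT hML hLT' θ θ' (hθ θ h) (hθ θ' h') ?_
    have e : ip T θ θ = ip M θ θ := (b0_congr hMT hΛ (hθ θ h) (hs θ h)).1 h0
    exact (b0_ip le_rfl hMT (hθ θ h) (hθ θ' h')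
      (sim_trans hΛ (sim_symm (hs θ h)) (hs θ' h')) e).symm
  -- the inner products on `Y`
  have hq : ∀ θ ∈ cls T Λ, ip M Λ Λ ≤ ip Y θ Λ := by
    intro θ h
    have e := sim_ip hYT (hθ θ h) hΛ hΛ (sim_symm (hs θ h))
    rw [hY0] at e
    have e2 : ip M Λ Λ * dg Λ ≤ ip Y θ Λ * dg Λ := by
      rw [e]
      exact Nat.mul_le_mul_left _ (hmin θ h)
    exact Nat.le_of_mul_le_mul_right e2 hpL
  have h5 : ∀ χ ∈ cls T χ₀, ip M Λ Λ * ∑ θ ∈ cls T Λ, ip L χ θ ≤ ip Y χ Λ := by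
    intro χ h
    refine le_trans ?_ (hL5 G Y L hYL (cls T Λ) hθ hS χ Λ (mem_cls.1 h).1 hΛ)
    rw [Finset.mul_sum]
    refine Finset.sum_le_sum fun θ h' => ?_
    rw [mul_comm]
    exact Nat.mul_le_mul_left _ (hq θ h')
  have h6 : ∀ θ ∈ cls T Λ, 1 ≤ ∑ χ ∈ cls T χ₀, ip L χ θ := by
    intro θ h
    have e := sim_ip hYT (hθ θ h) hΛ hχ₀ (sim_symm (hs θ h))
    have e2 : ip Y θ χ₀ ≠ 0 := by
      intro e3
      rw [e3, zero_mul, ip_comm Y Λ χ₀] at e
      rcases Nat.mul_eq_zero.1 e.symm with e4 | e4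
      · exact hne e4
      · exact (dg_pos (hθ θ h)).ne' e4
    obtain ⟨χ, hχ, hχ'⟩ := hL4 G Y T L hLT hLT' θ χ₀ (hθ θ h) hχ₀ e2
    have e5 : 1 ≤ ip L χ θ := by
      rw [ip_comm]
      exact Nat.one_le_iff_ne_zero.2 hχ'
    exact e5.trans (Finset.single_le_sum (f := fun χ => ip L χ θ) (fun _ _ => Nat.zero_le _) hχ)
  have h7 : (cls T Λ).card ≤ ∑ χ ∈ cls T χ₀, ∑ θ ∈ cls T Λ, ip L χ θ := by
    rw [Finset.sum_comm]
    calc (cls T Λ).card = ∑ θ ∈ cls T Λ, 1 := by simp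
      _ ≤ _ := Finset.sum_le_sum h6
  have h8 : (cls T Λ).card * ip M Λ Λ ≤ ∑ χ ∈ cls T χ₀, ip Y χ Λ := by
    calc (cls T Λ).card * ip M Λ Λ
        ≤ (∑ χ ∈ cls T χ₀, ∑ θ ∈ cls T Λ, ip L χ θ) * ip M Λ Λ := Nat.mul_le_mul_right _ h7
      _ = ∑ χ ∈ cls T χ₀, ip M Λ Λ * ∑ θ ∈ cls T Λ, ip L χ θ := by
        rw [mul_comm, Finset.mul_sum]
      _ ≤ _ := Finset.sum_le_sum h5
  calc (cls T Λ).card * ip M Λ Λ * dg χ₀
      ≤ (∑ χ ∈ cls T χ₀, ip Y χ Λ) * dg χ₀ := Nat.mul_le_mul_right _ h8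
    _ = ∑ χ ∈ cls T χ₀, ip Y χ₀ Λ * dg χ := by
      rw [Finset.sum_mul]
      refine Finset.sum_congr rfl fun χ h => ?_
      exact sim_ip hYT (mem_cls.1 h).1 hχ₀ hΛ (sim_symm (mem_cls.1 h).2)
    _ = _ := by rw [Finset.mul_sum]

end Pool.Agent.RB

end

section

set_option autoImplicit false
set_option linter.unusedSectionVars false

open Module Representation Pool.Agent.DC7914 Pool.Agent.RadIndex

namespace Pool.Agent.RB

namespace UNIx

variable {G : Type} [Group G] {V W : Type} [AddCommGroup V] [Module ℂ V] [AddCommGroup W]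
  [Module ℂ W]

theorem inv_comp (ρ : Representation ℂ G V) (t : G) : ρ t⁻¹ ∘ₗ ρ t = LinearMap.id := by
  have := map_mul ρ t⁻¹ t
  rw [inv_mul_cancel, map_one] at this
  exact this.symm

theorem comp_inv (ρ : Representation ℂ G V) (t : G) : ρ t ∘ₗ ρ t⁻¹ = LinearMap.id := by
  have := map_mul ρ t t⁻¹
  rw [mul_inv_cancel, map_one] at this
  exact this.symm

theorem comp_mul (ρ : Representation ℂ G V) (s t : G) : ρ (s * t) = ρ s ∘ₗ ρ t := map_mul ρ s t

/-- the action preserves the space of `M`-homomorphisms -/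
theorem act_mem {M : Subgroup G} [hM : M.Normal] (ρ : Representation ℂ G V)
    (σ : Representation ℂ G W) {f : V →ₗ[ℂ] W} (hf : f ∈ homs M ρ σ) (g : G) :
    linHom ρ σ g f ∈ homs M ρ σ := by
  intro u hu
  rw [linHom_apply]
  have h1 : g⁻¹ * u * g ∈ M := by
    have := hM.conj_mem u hu g⁻¹
    simpa using this
  have h2 : ρ g⁻¹ ∘ₗ ρ u = ρ (g⁻¹ * u * g) ∘ₗ ρ g⁻¹ := by
    rw [← comp_mul, ← comp_mul]
    congr 1
    group
  have h3 : σ g ∘ₗ σ (g⁻¹ * u * g) = σ u ∘ₗ σ g := by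
    rw [← comp_mul, ← comp_mul]
    congr 1
    group
  calc (σ g ∘ₗ f ∘ₗ ρ g⁻¹) ∘ₗ ρ u = σ g ∘ₗ f ∘ₗ (ρ g⁻¹ ∘ₗ ρ u) := rfl
    _ = σ g ∘ₗ (f ∘ₗ ρ (g⁻¹ * u * g)) ∘ₗ ρ g⁻¹ := by rw [h2]; rfl
    _ = (σ g ∘ₗ σ (g⁻¹ * u * g)) ∘ₗ f ∘ₗ ρ g⁻¹ := by rw [hf _ h1]; rfl
    _ = _ := by rw [h3]; rfl

theorem act_left {T : Subgroup G} (ρ : Representation ℂ G V) (σ : Representation ℂ G W)
    {b : W →ₗ[ℂ] W} (hb : b ∈ homs T σ σ) {t : G} (ht : t ∈ T) (f : V →ₗ[ℂ] W) :
    linHom ρ σ t (b ∘ₗ f) = b ∘ₗ linHom ρ σ t f := by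
  rw [linHom_apply, linHom_apply]
  calc σ t ∘ₗ (b ∘ₗ f) ∘ₗ ρ t⁻¹ = (σ t ∘ₗ b) ∘ₗ f ∘ₗ ρ t⁻¹ := rfl
    _ = (b ∘ₗ σ t) ∘ₗ f ∘ₗ ρ t⁻¹ := by rw [hb t ht]
    _ = _ := rfl

theorem act_right {T : Subgroup G} (ρ : Representation ℂ G V) (σ : Representation ℂ G W)
    {c : V →ₗ[ℂ] V} (hc : c ∈ homs T ρ ρ) {t : G} (ht : t ∈ T) (f : V →ₗ[ℂ] W) :
    linHom ρ σ t (f ∘ₗ c) = (linHom ρ σ t f) ∘ₗ c := by
  rw [linHom_apply, linHom_apply]
  calc σ t ∘ₗ (f ∘ₗ c) ∘ₗ ρ t⁻¹ = σ t ∘ₗ f ∘ₗ (c ∘ₗ ρ t⁻¹) := rfl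
    _ = σ t ∘ₗ f ∘ₗ (ρ t⁻¹ ∘ₗ c) := by rw [hc t⁻¹ (T.inv_mem ht)]
    _ = _ := rfl

/-- compositions of `M`-homomorphisms -/
theorem comp_mem {U : Type} [AddCommGroup U] [Module ℂ U] {M : Subgroup G}
    {ρ : Representation ℂ G V} {σ : Representation ℂ G W} {τ : Representation ℂ G U}
    {f : V →ₗ[ℂ] W} {g : W →ₗ[ℂ] U} (hf : f ∈ homs M ρ σ) (hg : g ∈ homs M σ τ) :
    g ∘ₗ f ∈ homs M ρ τ := by
  intro u hu
  calc (g ∘ₗ f) ∘ₗ ρ u = g ∘ₗ (f ∘ₗ ρ u) := rfl
    _ = (g ∘ₗ σ u) ∘ₗ f := by rw [hf u hu]; rfl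
    _ = _ := by rw [hg u hu]; rfl

/-- von Neumann regularity for linear maps -/
theorem regular_lin (a : V →ₗ[ℂ] W) : ∃ h : W →ₗ[ℂ] V, a ∘ₗ h ∘ₗ a = a := by
  obtain ⟨s, hs⟩ := a.rangeRestrict.exists_rightInverse_of_surjective a.range_rangeRestrict
  obtain ⟨p, hp⟩ := (LinearMap.range a).subtype.exists_leftInverse_of_injective
    (LinearMap.range a).ker_subtype
  refine ⟨s ∘ₗ p, ?_⟩
  ext v
  have h1 : p (a v) = a.rangeRestrict v := by
    have := LinearMap.congr_fun hp (a.rangeRestrict v)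
    simpa using this
  have h2 := LinearMap.congr_fun hs (a.rangeRestrict v)
  have h3 : a (s (a.rangeRestrict v)) = a v := congrArg Subtype.val h2
  simp only [LinearMap.comp_apply, h1]
  exact h3

/-- von Neumann regularity for `M`-homomorphisms -/
theorem regular [Finite G] {M : Subgroup G} {ρ : Representation ℂ G V}
    {σ : Representation ℂ G W} {a : V →ₗ[ℂ] W} (ha : a ∈ homs M ρ σ) :
    ∃ h ∈ homs M σ ρ, a ∘ₗ h ∘ₗ a = a := by
  have := Fintype.ofFinite M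
  obtain ⟨h₀, hh₀⟩ := regular_lin a
  have hM0 : (Nat.card M : ℂ) ≠ 0 := by exact_mod_cast Nat.card_pos.ne'
  refine ⟨(Nat.card M : ℂ)⁻¹ • ∑ m : M, ρ (m : G) ∘ₗ h₀ ∘ₗ σ (m : G)⁻¹, ?_, ?_⟩
  · intro u hu
    rw [LinearMap.smul_comp, LinearMap.comp_smul]
    congr 1
    ext w
    simp only [LinearMap.comp_apply, LinearMap.sum_apply, map_sum]
    refine Fintype.sum_equiv (Equiv.mulLeft (⟨u, hu⟩⁻¹ : M)) _ _ fun m => ?_
    have e1 : ((Equiv.mulLeft (⟨u, hu⟩⁻¹ : M) m : M) : G) = u⁻¹ * m := rfl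
    rw [e1]
    have e2 : ρ u (ρ (u⁻¹ * (m : G)) (h₀ (σ (u⁻¹ * (m : G))⁻¹ w))) =
        (ρ u ∘ₗ ρ (u⁻¹ * (m : G))) (h₀ (σ (u⁻¹ * (m : G))⁻¹ w)) := rfl
    have e3 : σ (m : G)⁻¹ (σ u w) = (σ (m : G)⁻¹ ∘ₗ σ u) w := rfl
    rw [e2, e3, ← comp_mul, ← comp_mul, mul_inv_rev, inv_inv, mul_inv_cancel_left]
  · rw [LinearMap.smul_comp, LinearMap.comp_smul]
    ext v
    simp only [LinearMap.smul_apply, LinearMap.comp_apply, LinearMap.sum_apply, map_sum]
    have h1 : ∀ m : M, a (ρ (m : G) (h₀ (σ (m : G)⁻¹ (a v)))) = a v := by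
      intro m
      have e1 : a (ρ (m : G) (h₀ (σ (m : G)⁻¹ (a v)))) =
          σ (m : G) (a (h₀ (σ (m : G)⁻¹ (a v)))) := LinearMap.congr_fun (ha m m.2) _
      have e2 : σ (m : G)⁻¹ (a v) = a (ρ (m : G)⁻¹ v) :=
        (LinearMap.congr_fun (ha (m : G)⁻¹ (M.inv_mem m.2)) v).symm
      have e3 : a (h₀ (a (ρ (m : G)⁻¹ v))) = a (ρ (m : G)⁻¹ v) := LinearMap.congr_fun hh₀ _
      rw [e1, e2, e3, ← e2]
      exact LinearMap.congr_fun (comp_inv σ (m : G)) (a v)
    simp only [h1, Finset.sum_const, Finset.card_univ, ← Nat.card_eq_fintype_card,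
      ← Nat.cast_smul_eq_nsmul ℂ]
    rw [smul_smul, inv_mul_cancel₀ hM0, one_smul]

end UNIx

open UNIx commutatorElement in
theorem prf_UNI : S_UNI := by
  intro G _ _ M T hMn hTn hMT hperf Λ Λ' hΛ hΛ' h0 h0' hne
  obtain ⟨n, ρ, hρ, rfl⟩ := hΛ
  obtain ⟨m, σ, hσ, rfl⟩ := hΛ'
  have eρ : homs T ρ ρ = homs M ρ ρ := homs_eq hMT ρ ρ h0
  have eσ : homs T σ σ = homs M σ σ := homs_eq hMT σ σ h0'
  -- the operators of `T` commute on `U = homs M σ ρ`
  have hcomm : ∀ x ∈ T, ∀ y ∈ T, ∀ f ∈ homs M σ ρ,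
      linHom σ ρ x (linHom σ ρ y f) = linHom σ ρ y (linHom σ ρ x f) := by
    intro x hx y hy f hf
    set D : (((Fin m → ℂ) →ₗ[ℂ] (Fin n → ℂ)) →ₗ[ℂ] ((Fin m → ℂ) →ₗ[ℂ] (Fin n → ℂ))) :=
      linHom σ ρ x ∘ₗ linHom σ ρ y - linHom σ ρ y ∘ₗ linHom σ ρ x with hD
    have hDmem : D f ∈ homs M σ ρ := by
      rw [hD, LinearMap.sub_apply]
      exact Submodule.sub_mem _ (act_mem σ ρ (act_mem σ ρ hf y) x)
        (act_mem σ ρ (act_mem σ ρ hf x) y)
    obtain ⟨h, hh, hreg⟩ := regular hDmem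
    -- `D` kills `f h g`
    have key : ∀ g ∈ homs M σ ρ, D (f ∘ₗ (h ∘ₗ g)) = 0 := by
      intro g hg
      have c1 : ∀ t ∈ T, ∀ f' ∈ homs M σ ρ, ∀ g' ∈ homs M σ ρ,
          linHom σ ρ t (f' ∘ₗ (h ∘ₗ g')) = (linHom σ ρ t f') ∘ₗ (h ∘ₗ g') := by
        intro t ht f' _ g' hg'
        exact act_right σ ρ (by rw [eσ]; exact comp_mem hg' hh) ht f'
      have c2 : ∀ t ∈ T, ∀ f' ∈ homs M σ ρ, ∀ g' ∈ homs M σ ρ,
          linHom σ ρ t ((f' ∘ₗ h) ∘ₗ g') = (f' ∘ₗ h) ∘ₗ (linHom σ ρ t g') := by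
        intro t ht f' hf' g' _
        exact act_left σ ρ (by rw [eρ]; exact comp_mem hh hf') ht g'
      rw [hD, LinearMap.sub_apply, LinearMap.comp_apply, LinearMap.comp_apply, sub_eq_zero]
      have e1 : linHom σ ρ x (linHom σ ρ y (f ∘ₗ (h ∘ₗ g))) =
          (linHom σ ρ y f ∘ₗ h) ∘ₗ linHom σ ρ x g := by
        rw [c1 y hy f hf g hg]
        exact c2 x hx _ (act_mem σ ρ hf y) g hg
      have e2 : linHom σ ρ y (linHom σ ρ x (f ∘ₗ (h ∘ₗ g))) =
          (linHom σ ρ y f) ∘ₗ (h ∘ₗ linHom σ ρ x g) := by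
        have e3 : linHom σ ρ x (f ∘ₗ (h ∘ₗ g)) = f ∘ₗ (h ∘ₗ linHom σ ρ x g) := c2 x hx f hf g hg
        rw [e3]
        exact c1 y hy f hf _ (act_mem σ ρ hg x)
      rw [e1, e2]
      rfl
    have hDr : ∀ g ∈ homs M σ ρ, D (f ∘ₗ (h ∘ₗ g)) = (D f) ∘ₗ (h ∘ₗ g) := by
      intro g hg
      have hc : h ∘ₗ g ∈ homs T σ σ := by rw [eσ]; exact comp_mem hg hh
      rw [hD, LinearMap.sub_apply, LinearMap.sub_apply, LinearMap.comp_apply,
        LinearMap.comp_apply, LinearMap.comp_apply, LinearMap.comp_apply,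
        act_right σ ρ hc hy, act_right σ ρ hc hx, act_right σ ρ hc hx, act_right σ ρ hc hy,
        LinearMap.sub_comp]
    have h1 := key (D f) hDmem
    rw [hDr (D f) hDmem] at h1
    have h2 : D f = 0 := by
      rw [← hreg]
      exact h1
    rw [hD, LinearMap.sub_apply, sub_eq_zero] at h2
    exact h2
  -- the subgroup acting trivially
  let S : Subgroup G :=
    { carrier := {x | ∀ f ∈ homs M σ ρ, linHom σ ρ x f = f}
      mul_mem' := by
        intro a b ha hb f hf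
        rw [map_mul, Module.End.mul_apply, hb f hf, ha f hf]
      one_mem' := by
        intro f _
        rw [map_one, Module.End.one_apply]
      inv_mem' := by
        intro a ha f hf
        have h1 := ha f hf
        have h2 : linHom σ ρ a⁻¹ (linHom σ ρ a f) = f := by
          rw [← Module.End.mul_apply, ← map_mul, inv_mul_cancel, map_one, Module.End.one_apply]
        rw [h1] at h2
        exact h2 }
  have hMS : M ≤ S := by
    intro u hu f hf
    rw [linHom_apply, ← LinearMap.comp_assoc, ← hf u hu, LinearMap.comp_assoc, comp_inv,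
      LinearMap.comp_id]
  have hTS : ⁅T, T⁆ ≤ S := by
    rw [Subgroup.commutator_le]
    intro x hx y hy f hf
    have e1 : ∀ g ∈ homs M σ ρ, linHom σ ρ (x * y) g = linHom σ ρ (y * x) g := by
      intro g hg
      rw [map_mul, map_mul, Module.End.mul_apply, Module.End.mul_apply]
      exact hcomm x hx y hy g hg
    have e2 : ⁅x, y⁆ = (x * y) * (y * x)⁻¹ := by
      rw [commutatorElement_def]; group
    have e3 : linHom σ ρ (y * x)⁻¹ f ∈ homs M σ ρ := act_mem σ ρ hf _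
    rw [e2, map_mul, Module.End.mul_apply, e1 _ e3, ← Module.End.mul_apply, ← map_mul,
      mul_inv_cancel, map_one, Module.End.one_apply]
  have hT : T ≤ S := hperf.trans (sup_le hMS hTS)
  have hhom : homs T σ ρ = homs M σ ρ := by
    refine le_antisymm (homs_mono hMT σ ρ) ?_
    intro f hf t ht
    have h1 : linHom σ ρ t f = f := hT ht f hf
    rw [linHom_apply] at h1
    calc f ∘ₗ σ t = (ρ t ∘ₗ f ∘ₗ σ t⁻¹) ∘ₗ σ t := by rw [h1]
      _ = ρ t ∘ₗ f ∘ₗ (σ t⁻¹ ∘ₗ σ t) := rfl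
      _ = ρ t ∘ₗ f := by rw [inv_comp, LinearMap.comp_id]
  apply sim_of_ip ⟨n, ρ, hρ, rfl⟩ ⟨m, σ, hσ, rfl⟩
  rw [ip_eq_finrank, hhom, ← ip_eq_finrank]
  exact hne

end Pool.Agent.RB

end

section

set_option autoImplicit false
set_option linter.unusedSectionVars false

open Module Representation Pool.Agent.DC7914 Pool.Agent.RadIndex

namespace Pool.Agent.RB

namespace SQx

open Classical in
/-- sums over a subgroup as sums over a filtered set -/
theorem fsum {G : Type} [Group G] [Fintype G] (U : Subgroup G) (f : G → ℂ) :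
    ∑ᶠ u : U, f (u : G) = ∑ u ∈ Finset.univ.filter (fun g : G => g ∈ U), f u := by
  rw [finsum_eq_sum_of_fintype]
  exact (Finset.sum_subtype (Finset.univ.filter (fun g : G => g ∈ U))
    (fun x => by simp) f).symm

/-- the subgroup `Y ∩ g Y g⁻¹` -/
def V {G : Type} [Group G] (Y : Subgroup G) (g : G) : Subgroup G where
  carrier := {y | y ∈ Y ∧ g⁻¹ * y * g ∈ Y}
  one_mem' := ⟨Y.one_mem, by simp [Y.one_mem]⟩
  mul_mem' := by
    rintro a b ⟨ha, ha'⟩ ⟨hb, hb'⟩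
    refine ⟨Y.mul_mem ha hb, ?_⟩
    have h := Y.mul_mem ha' hb'
    have e : g⁻¹ * (a * b) * g = g⁻¹ * a * g * (g⁻¹ * b * g) := by group
    rw [e]
    exact h
  inv_mem' := by
    rintro a ⟨ha, ha'⟩
    refine ⟨Y.inv_mem ha, ?_⟩
    have h := Y.inv_mem ha'
    have e : g⁻¹ * a⁻¹ * g = (g⁻¹ * a * g)⁻¹ := by group
    rw [e]
    exact h

theorem mem_V {G : Type} [Group G] {Y : Subgroup G} {g y : G} :
    y ∈ V Y g ↔ y ∈ Y ∧ g⁻¹ * y * g ∈ Y := Iff.rfl

theorem card_V {G : Type} [Group G] (Y : Subgroup G) (g : G) : Nat.card (V Y g) = ov Y g := rfl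

theorem cls_fun {G : Type} [Group G] {χ : G → ℂ} (hχ : IsIrrChar χ) (g h : G) :
    χ (h⁻¹ * g * h) = χ g := by
  obtain ⟨n, ρ, hρ, rfl⟩ := hχ
  have := char_conj ρ g h⁻¹
  rwa [inv_inv] at this

end SQx

open Classical SQx in
theorem prf_SQ (hCOL : S_COL) : S_SQ := by
  intro G _ _ M Y T _ _ hMY hYT Λ hΛ hq
  have := Fintype.ofFinite G
  have key : ((∑ χ ∈ irrs G, (ip Y Λ χ : ℂ) ^ 2) * (Nat.card Y : ℂ) ^ 2) =
      (ip M Λ Λ : ℂ) * ∑ g : G, (ov Y g : ℂ) := by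
    have e1 : ∀ χ ∈ irrs G, (ip Y Λ χ : ℂ) ^ 2 * (Nat.card Y : ℂ) ^ 2 =
        ∑ y ∈ Finset.univ.filter (fun g : G => g ∈ Y),
          ∑ y' ∈ Finset.univ.filter (fun g : G => g ∈ Y),
            (Λ y * Λ y'⁻¹) * (χ y' * χ y⁻¹) := by
      intro χ hχ
      have hχ' := mem_irrs.1 hχ
      have a1 := ip_spec Y hΛ hχ'
      have a2 := ip_spec Y hχ' hΛ
      rw [ip_comm Y χ Λ] at a2
      rw [fsum Y (fun u => Λ u * χ u⁻¹)] at a1
      rw [fsum Y (fun u => χ u * Λ u⁻¹)] at a2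
      rw [show (ip Y Λ χ : ℂ) ^ 2 * (Nat.card Y : ℂ) ^ 2 =
        ((ip Y Λ χ : ℂ) * Nat.card Y) * ((ip Y Λ χ : ℂ) * Nat.card Y) by ring]
      nth_rewrite 1 [← a1]
      rw [← a2, Finset.sum_mul_sum]
      refine Finset.sum_congr rfl fun y _ => Finset.sum_congr rfl fun y' _ => ?_
      ring
    rw [Finset.sum_mul, Finset.sum_congr rfl e1, Finset.sum_comm]
    have e2 : ∀ y ∈ Finset.univ.filter (fun g : G => g ∈ Y),
        ∑ χ ∈ irrs G, ∑ y' ∈ Finset.univ.filter (fun g : G => g ∈ Y),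
          (Λ y * Λ y'⁻¹) * (χ y' * χ y⁻¹) =
        ∑ g : G, if g⁻¹ * y * g ∈ Y then Λ y * Λ y⁻¹ else 0 := by
      intro y _
      rw [Finset.sum_comm]
      have e3 : ∀ y' ∈ Finset.univ.filter (fun g : G => g ∈ Y),
          ∑ χ ∈ irrs G, (Λ y * Λ y'⁻¹) * (χ y' * χ y⁻¹) =
            ∑ g : G, if y' = g⁻¹ * y * g then Λ y * Λ y'⁻¹ else 0 := by
        intro y' _
        rw [← Finset.mul_sum, hCOL G y' y, Nat.card_eq_fintype_card, Fintype.card_subtype,
          Finset.card_filter, Nat.cast_sum, Finset.mul_sum]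
        refine Finset.sum_congr rfl fun g _ => ?_
        have hiff : g * y' * g⁻¹ = y ↔ y' = g⁻¹ * y * g := by
          constructor
          · rintro rfl
            group
          · rintro rfl
            group
        simp only [hiff]
        split_ifs with h
        · simp
        · simp
      rw [Finset.sum_congr rfl e3, Finset.sum_comm]
      refine Finset.sum_congr rfl fun g _ => ?_
      rw [Finset.sum_ite_eq']
      simp only [Finset.mem_filter, Finset.mem_univ, true_and]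
      have e4 : Λ (g⁻¹ * y * g)⁻¹ = Λ y⁻¹ := by
        have := cls_fun hΛ y⁻¹ g
        rw [← this]
        congr 1
        group
      rw [e4]
    rw [Finset.sum_congr rfl e2, Finset.sum_comm, Finset.mul_sum]
    refine Finset.sum_congr rfl fun g _ => ?_
    -- the subgroup of `g`
    have hMV : M ≤ V Y g := by
      intro x hx
      refine mem_V.2 ⟨hMY hx, hMY ?_⟩
      have := (inferInstance : M.Normal).conj_mem x hx g⁻¹
      rwa [inv_inv] at this
    have hVT : V Y g ≤ T := fun x hx => hYT (mem_V.1 hx).1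
    have hip : ip (V Y g) Λ Λ = ip M Λ Λ :=
      le_antisymm (ip_mono hMV hΛ hΛ) (hq ▸ ip_mono hVT hΛ hΛ)
    have a1 := ip_spec (V Y g) hΛ hΛ
    rw [fsum (V Y g) (fun u => Λ u * Λ u⁻¹), hip, card_V] at a1
    rw [← a1, ← Finset.sum_filter, Finset.filter_filter]
    refine Finset.sum_congr ?_ fun _ _ => rfl
    ext x
    simp only [Finset.mem_filter, Finset.mem_univ, true_and]
    exact mem_V.symm
  rw [finsum_eq_sum_of_fintype]
  exact_mod_cast key

end Pool.Agent.RB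

end

section

/-! # Item OVG: the sum of the overlaps over `G` -/

set_option autoImplicit false

namespace Pool.Agent.RB

namespace OVGx

theorem bij {G : Type} [Group G] (T : Subgroup G) :
    Function.Bijective (fun z : (G ⧸ T) × T => Quotient.out z.1 * (z.2 : G)) := by
  constructor
  · rintro ⟨q, t⟩ ⟨q', t'⟩ h
    simp only at h
    have h1 : ∀ (q : G ⧸ T) (t : T), ((Quotient.out q * (t : G) : G) : G ⧸ T) = q := by
      intro q t
      rw [QuotientGroup.mk_mul_of_mem _ t.2]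
      exact Quotient.out_eq' q
    have h2 : q = q' := by rw [← h1 q t, h, h1]
    subst h2
    have h3 : (t : G) = t' := mul_left_cancel h
    rw [Subtype.ext h3]
  · intro g
    have h1 : ((Quotient.out (g : G ⧸ T))⁻¹ * g) ∈ T := by
      rw [← QuotientGroup.eq]
      exact Quotient.out_eq' _
    exact ⟨⟨(g : G ⧸ T), ⟨_, h1⟩⟩, by simp⟩

theorem ov_left {G : Type} [Group G] (Y T L : Subgroup G) [hT : T.Normal] (hY : L ⊓ T = Y)
    (l : G) (hl : l ∈ L) (x : G) : ov Y (l * x) = ov Y x := by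
  have hc : ∀ a ∈ L, ∀ y ∈ Y, a * y * a⁻¹ ∈ Y := by
    intro a ha y hy
    rw [← hY] at hy ⊢
    exact ⟨L.mul_mem (L.mul_mem ha hy.1) (L.inv_mem ha), hT.conj_mem _ hy.2 _⟩
  refine Nat.card_congr
    { toFun := fun y => ⟨l⁻¹ * y.1 * l, by simpa using hc l⁻¹ (L.inv_mem hl) y.1 y.2.1, by
        have := y.2.2
        convert this using 1
        group⟩
      invFun := fun y => ⟨l * y.1 * l⁻¹, hc l hl y.1 y.2.1, by
        have := y.2.2
        convert this using 1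
        group⟩
      left_inv := fun y => by
        apply Subtype.ext
        simp only
        group
      right_inv := fun y => by
        apply Subtype.ext
        simp only
        group }

end OVGx

theorem prf_OVG : S_OVG := by
  intro G _ _ Y T L hT hY hLT
  have := Fintype.ofFinite G
  have := Fintype.ofFinite T
  have := Fintype.ofFinite (G ⧸ T)
  rw [finsum_eq_sum_of_fintype, finsum_eq_sum_of_fintype,
    ← Fintype.sum_bijective _ (OVGx.bij T) (fun z => ov Y (Quotient.out z.1 * (z.2 : G))) _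
      (fun z => rfl), Fintype.sum_prod_type]
  have h1 : ∀ q : G ⧸ T, ∑ t : T, ov Y (Quotient.out q * (t : G)) = ∑ t : T, ov Y (t : G) := by
    intro q
    obtain ⟨l, hl, t0, ht0, e⟩ : ∃ l ∈ L, ∃ t0 ∈ T, l * t0 = Quotient.out q := by
      have h2 : Quotient.out q ∈ ((L ⊔ T : Subgroup G) : Set G) := by rw [hLT]; trivial
      rw [Subgroup.mul_normal] at h2
      exact Set.mem_mul.1 h2
    refine Fintype.sum_equiv (Equiv.mulLeft (⟨t0, ht0⟩ : T)) _ _ fun t => ?_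
    rw [← e, mul_assoc, OVGx.ov_left Y T L hY l hl]
    rfl
  rw [Finset.sum_congr rfl (fun q _ => h1 q), Finset.sum_const, Finset.card_univ, smul_eq_mul,
    ← Nat.card_eq_fintype_card]
  rfl

end Pool.Agent.RB

end

section

/-!
# A class with small average degree
-/

set_option autoImplicit false
set_option linter.unusedSectionVars false

open Module Representation Pool.Agent.DC7914 Pool.Agent.RadIndex

namespace Pool.Agent.RB

namespace AVGx

variable {G : Type} [Group G] [Finite G]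

theorem irrs_nonempty : (irrs G).Nonempty := by
  have := Fintype.ofFinite G
  by_contra h
  rw [Finset.not_nonempty_iff_eq_empty] at h
  have h1 := sum_deg (G := G) 1
  rw [h, Finset.sum_empty, if_pos rfl] at h1
  exact Fintype.card_ne_zero (by exact_mod_cast h1.symm)

theorem total {A : ℕ} (hA : acd G ≤ A) : ∑ χ ∈ irrs G, dg χ ≤ A * (irrs G).card := by
  have hne := irrs_nonempty (G := G)
  have hcard : Nat.card {χ : G → ℂ // IsIrrChar χ} = (irrs G).card :=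
    (Nat.card_coe_set_eq {χ : G → ℂ | IsIrrChar χ}).trans
      (Set.ncard_eq_toFinset_card _ (irr_finite (G := G)))
  have hsum : ∑ᶠ χ : {χ : G → ℂ // IsIrrChar χ}, ‖χ.1 1‖ = ∑ χ ∈ irrs G, ‖χ 1‖ := by
    have : Fintype {χ : G → ℂ // IsIrrChar χ} := (irr_finite (G := G)).fintype
    rw [finsum_eq_sum_of_fintype]
    refine (Finset.sum_subtype (irrs G) (fun χ => mem_irrs) (fun χ => ‖χ 1‖)).symm
  have hpos : (0 : ℝ) < (irrs G).card := by exact_mod_cast Finset.card_pos.2 hne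
  have hacd : ∑ χ ∈ irrs G, ‖χ 1‖ = acd G * (irrs G).card := by
    rw [acd, hcard, hsum, div_mul_cancel₀ _ hpos.ne']
  have h1 : ((∑ χ ∈ irrs G, dg χ : ℕ) : ℝ) = ∑ χ ∈ irrs G, ‖χ 1‖ := by
    push_cast
    exact Finset.sum_congr rfl fun χ h => dg_norm (mem_irrs.1 h)
  have h2 : ((∑ χ ∈ irrs G, dg χ : ℕ) : ℝ) ≤ ((A * (irrs G).card : ℕ) : ℝ) := by
    rw [h1, hacd]
    push_cast
    exact mul_le_mul_of_nonneg_right hA hpos.le
  exact_mod_cast h2

open Classical in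
theorem fibre (M : Subgroup G) {θ : G → ℂ} (hθ : IsIrrChar θ) :
    (irrs G).filter (fun χ => cls M χ = cls M θ) = cls M θ := by
  ext χ
  rw [Finset.mem_filter, mem_irrs]
  constructor
  · rintro ⟨h1, h2⟩
    rw [← h2]
    exact self_mem_cls M h1
  · intro h
    obtain ⟨h1, h2⟩ := mem_cls.1 h
    exact ⟨h1, (cls_eq hθ h1 h2).symm⟩

end AVGx

open AVGx in
theorem prf_AVG : S_AVG := by
  intro G _ _ M A hA
  classical
  by_contra hcon
  push Not at hcon
  have htot : A * (irrs G).card < ∑ χ ∈ irrs G, dg χ := by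
    rw [← Finset.sum_fiberwise_of_maps_to (s := irrs G) (t := (irrs G).image (cls M))
      (g := cls M) (fun χ h => Finset.mem_image_of_mem _ h) (fun χ => dg χ),
      Finset.card_eq_sum_card_fiberwise (s := irrs G) (t := (irrs G).image (cls M))
      (f := cls M) (fun χ h => Finset.mem_image_of_mem _ h), Finset.mul_sum]
    refine Finset.sum_lt_sum_of_nonempty (irrs_nonempty.image _) ?_
    intro P hP
    obtain ⟨θ, h1, rfl⟩ := Finset.mem_image.1 hP
    have hθ := mem_irrs.1 h1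
    have h2 := hcon θ hθ
    have h3 := fibre M hθ
    rw [h3]
    exact h2
  exact absurd (total hA) (not_le.2 htot)

end Pool.Agent.RB

end

section

/-!
# The character inequality `S_CB`
-/

set_option autoImplicit false
set_option linter.unusedSectionVars false

open Module Representation Pool.Agent.DC7914 Pool.Agent.RadIndex

namespace Pool.Agent.RB

namespace CBx

/-- the overlap of a normal subgroup with its conjugates -/
theorem ov_normal {G : Type} [Group G] [Finite G] (T : Subgroup G) [hT : T.Normal] (g : G) :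
    ov T g = Nat.card T := by
  unfold ov
  refine Nat.card_congr (Equiv.subtypeEquivRight fun y => ?_)
  constructor
  · intro h
    exact h.1
  · intro h
    refine ⟨h, ?_⟩
    have := hT.conj_mem y h g⁻¹
    rwa [inv_inv] at this

theorem sum_ov_normal {G : Type} [Group G] [Finite G] (T : Subgroup G) [T.Normal] :
    ∑ᶠ g : G, ov T g = Nat.card G * Nat.card T := by
  have := Fintype.ofFinite G
  rw [finsum_eq_sum_of_fintype]
  simp only [ov_normal, Finset.sum_const, Finset.card_univ, smul_eq_mul, Nat.card_eq_fintype_card]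

/-- the choice of the class -/
theorem choose {G : Type} [Group G] [Finite G] (M T : Subgroup G) [M.Normal] [T.Normal]
    (hMT : M ≤ T) (hUNI : S_UNI) (hAVG : S_AVG) (hTM : T ≤ M ⊔ ⁅T, T⁆) (A : ℕ)
    (hA : acd G ≤ A)
    (hbig : ∀ χ : G → ℂ, IsIrrChar χ → ip T χ χ ≠ ip M χ χ → 2 * A < dg χ) :
    ∃ Λ : G → ℂ, IsIrrChar Λ ∧ ip T Λ Λ = ip M Λ Λ ∧ (∀ θ ∈ cls T Λ, dg Λ ≤ dg θ) ∧
      ∃ D1 : Finset (G → ℂ), (∀ χ : G → ℂ, IsIrrChar χ → χ ∉ cls T Λ → sim M Λ χ →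
        cls T χ ⊆ D1) ∧
        ∑ χ ∈ D1, dg χ + 2 * dg Λ * (cls T Λ).card ≤ 2 * A * (cls T Λ).card := by
  classical
  obtain ⟨θ, hθ, hsum⟩ := hAVG G M A hA
  set D := cls M θ with hD
  set D0 := D.filter (fun χ => ip T χ χ = ip M χ χ) with hD0
  set D1 := D.filter (fun χ => ¬ ip T χ χ = ip M χ χ) with hD1
  have hs : ∑ χ ∈ D0, dg χ + ∑ χ ∈ D1, dg χ = ∑ χ ∈ D, dg χ :=
    Finset.sum_filter_add_sum_filter_not D (fun χ => ip T χ χ = ip M χ χ) dg
  have hc : D0.card + D1.card = D.card :=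
    Finset.card_filter_add_card_filter_not (s := D) (fun χ => ip T χ χ = ip M χ χ)
  have h1 : D1.card * (2 * A + 1) ≤ ∑ χ ∈ D1, dg χ := by
    rw [← smul_eq_mul]
    refine Finset.card_nsmul_le_sum D1 dg (2 * A + 1) fun χ hχ => ?_
    rw [hD1, Finset.mem_filter, hD, mem_cls] at hχ
    exact hbig χ hχ.1.1 hχ.2
  rw [← hs, ← hc] at hsum
  have h2 : ∑ χ ∈ D1, dg χ + 2 * ∑ χ ∈ D0, dg χ ≤ 2 * A * D0.card := by nlinarith
  have hne : D0.Nonempty := by
    by_contra hcon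
    rw [Finset.not_nonempty_iff_eq_empty] at hcon
    rw [hcon, Finset.card_empty, Finset.sum_empty] at h2
    have h3 : D1.card = 0 := by
      rcases Nat.eq_zero_or_pos D1.card with h | h
      · exact h
      · nlinarith
    have h4 : D.card = 0 := by rw [← hc, hcon, h3, Finset.card_empty]
    have h5 : θ ∈ D := self_mem_cls M hθ
    rw [Finset.card_eq_zero] at h4
    rw [h4] at h5
    exact absurd h5 (Finset.notMem_empty _)
  obtain ⟨Λ, hΛ, hmin⟩ := Finset.exists_min_image D0 dg hne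
  have hΛ' := hΛ
  rw [hD0, Finset.mem_filter, hD, mem_cls] at hΛ'
  obtain ⟨⟨hΛi, hΛθ⟩, hΛ0⟩ := hΛ'
  have hE : D0 = cls T Λ := by
    ext ψ
    rw [hD0, Finset.mem_filter, hD, mem_cls, mem_cls]
    constructor
    · rintro ⟨⟨h3, h4⟩, h5⟩
      refine ⟨h3, ?_⟩
      have h6 : sim M Λ ψ := sim_trans hθ (sim_symm hΛθ) h4
      exact hUNI G M T hMT hTM Λ ψ hΛi h3 hΛ0 h5 (ip_ne_zero_of_sim hΛi h3 h6)
    · rintro ⟨h3, h4⟩
      exact ⟨⟨h3, sim_trans hΛi hΛθ (sim_mono hMT h4)⟩, (b0_congr hMT hΛi h3 h4).1 hΛ0⟩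
  refine ⟨Λ, hΛi, hΛ0, fun χ hχ => hmin χ (hE ▸ hχ), D1, ?_, ?_⟩
  · intro χ hχ hn hsim ψ hψ
    rw [mem_cls] at hψ
    obtain ⟨hψi, hψs⟩ := hψ
    rw [hD1, Finset.mem_filter, hD, mem_cls]
    refine ⟨⟨hψi, sim_trans hχ (sim_trans hΛi hΛθ hsim) (sim_mono hMT hψs)⟩, fun h0 => hn ?_⟩
    rw [← hE, hD0, Finset.mem_filter, hD, mem_cls]
    exact ⟨⟨hχ, sim_trans hΛi hΛθ hsim⟩, (b0_congr hMT hχ hψi hψs).2 h0⟩
  · rw [← hE]
    have h3 : D0.card * dg Λ ≤ ∑ χ ∈ D0, dg χ := by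
      rw [← smul_eq_mul]
      exact Finset.card_nsmul_le_sum D0 dg (dg Λ) hmin
    nlinarith

/-- the arithmetic of the last step, over the integers -/
theorem arithZ (A l t τ y s q DE SE R : ℤ) (hl : 1 ≤ l) (ht : 0 < t) (hq : 0 < q) (hy : 0 ≤ y)
    (hle : y ≤ τ) (hSE : 0 ≤ SE) (hiis : q * DE + 2 * l * SE ≤ 2 * A * SE)
    (hdY : DE + t * l = s * l) (hcY : y * s = τ * t)
    (hsY : (SE + q * t) * y ^ 2 = q * (t * R)) :
    y * τ + 2 * A * y ^ 2 ≤ y ^ 2 + 2 * A * R := by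
  have k1 : SE * y ^ 2 = q * t * (R - y ^ 2) := by linear_combination hsY
  have k2 : DE * y = t * l * (τ - y) := by linear_combination y * hdY + l * hcY
  have hqt : 0 < q * t := mul_pos hq ht
  have k0 : 0 ≤ R - y ^ 2 := by
    have : 0 ≤ (q * t) * (R - y ^ 2) := by rw [← k1]; positivity
    exact nonneg_of_mul_nonneg_right this hqt
  have k3 : (q * t) * (y * l * (τ - y) + 2 * l * (R - y ^ 2)) ≤
      (q * t) * (2 * A * (R - y ^ 2)) := by
    have h := mul_le_mul_of_nonneg_right hiis (sq_nonneg y)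
    calc (q * t) * (y * l * (τ - y) + 2 * l * (R - y ^ 2))
        = q * y * (t * l * (τ - y)) + 2 * l * (q * t * (R - y ^ 2)) := by ring
      _ = q * y * (DE * y) + 2 * l * (SE * y ^ 2) := by rw [k1, k2]
      _ = (q * DE + 2 * l * SE) * y ^ 2 := by ring
      _ ≤ 2 * A * SE * y ^ 2 := h
      _ = 2 * A * (SE * y ^ 2) := by ring
      _ = _ := by rw [k1]; ring
  have k4 := le_of_mul_le_mul_left k3 hqt
  have k5 : y * (τ - y) ≤ y * l * (τ - y) := by
    have h1 : 0 ≤ y * (τ - y) := mul_nonneg hy (sub_nonneg.2 hle)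
    nlinarith
  have k6 : 0 ≤ 2 * l * (R - y ^ 2) := mul_nonneg (by linarith) k0
  nlinarith

theorem arith (A l t τ y s q DE SE R : ℕ) (hl : 0 < l) (ht : 0 < t) (hq : 0 < q)
    (hle : y ≤ τ) (hiis : q * DE + 2 * l * SE ≤ 2 * A * SE)
    (hdY : DE + t * l = s * l) (hcY : y * s = τ * t)
    (hsY : (SE + q * t) * y ^ 2 = q * (t * R)) :
    y * τ + 2 * A * y ^ 2 ≤ y ^ 2 + 2 * A * R := by
  have := arithZ A l t τ y s q DE SE R (by exact_mod_cast hl) (by exact_mod_cast ht)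
    (by exact_mod_cast hq) (by positivity) (by exact_mod_cast hle) (by positivity)
    (by exact_mod_cast hiis) (by exact_mod_cast hdY) (by exact_mod_cast hcY)
    (by exact_mod_cast hsY)
  exact_mod_cast this

end CBx

theorem prf_CB (hLB : S_LB) (hUNI : S_UNI) (hSQ : S_SQ) (hOVG : S_OVG) (hDEG : S_DEG)
    (hAVG : S_AVG) : S_CB := by
  classical
  intro G _ _ M Y T L _ _ hMY hYT hLT hLT' hTM A hA hbig
  have hMT : M ≤ T := hMY.trans hYT
  obtain ⟨Λ, hΛ, h0, hmin, D1, hD1, hi⟩ := CBx.choose M T hMT hUNI hAVG hTM A hA hbig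
  set c := (cls T Λ).card with hc
  have hcpos : 0 < c := Finset.card_pos.2 ⟨Λ, self_mem_cls T hΛ⟩
  set q := ip M Λ Λ with hq
  have hqpos : 0 < q := ip_self_pos M hΛ
  have hlpos : 0 < dg Λ := dg_pos hΛ
  -- (ii)
  have hii : ∀ χ ∈ irrs G \ cls T Λ,
      q * (ip Y Λ χ * dg χ) + 2 * dg Λ * ip Y Λ χ ^ 2 ≤ 2 * A * ip Y Λ χ ^ 2 := by
    intro χ hχ
    rw [Finset.mem_sdiff, mem_irrs] at hχ
    obtain ⟨hχi, hn⟩ := hχ
    rcases Nat.eq_zero_or_pos (ip Y Λ χ) with hz | hz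
    · rw [hz]; simp
    have hM : ip M Λ χ ≠ 0 := by
      have := ip_mono hMY hΛ hχi
      omega
    have hsim : sim M Λ χ := sim_of_ip hΛ hχi hM
    have hsub := hD1 χ hχi hn hsim
    have hlb := hLB G M Y T L hMY hYT hLT hLT' Λ χ hΛ hχi h0 hmin
      (by rw [ip_comm]; exact hz.ne')
    rw [ip_comm Y χ Λ, ← hc, ← hq] at hlb
    have hle : ∑ ψ ∈ cls T χ, dg ψ ≤ ∑ ψ ∈ D1, dg ψ :=
      Finset.sum_le_sum_of_subset hsub
    have h1 : c * q * dg χ ≤ ip Y Λ χ * ∑ ψ ∈ D1, dg ψ :=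
      hlb.trans (Nat.mul_le_mul_left _ hle)
    have h2 : ip Y Λ χ * (∑ ψ ∈ D1, dg ψ + 2 * dg Λ * c) ≤ ip Y Λ χ * (2 * A * c) :=
      Nat.mul_le_mul_left _ hi
    have h3 : c * (q * dg χ + 2 * dg Λ * ip Y Λ χ) ≤ c * (2 * A * ip Y Λ χ) := by nlinarith
    have h4 := Nat.le_of_mul_le_mul_left h3 hcpos
    have h5 := Nat.mul_le_mul_left (ip Y Λ χ) h4
    calc q * (ip Y Λ χ * dg χ) + 2 * dg Λ * ip Y Λ χ ^ 2
        = ip Y Λ χ * (q * dg χ + 2 * dg Λ * ip Y Λ χ) := by ring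
      _ ≤ ip Y Λ χ * (2 * A * ip Y Λ χ) := h5
      _ = _ := by ring
  have hiis := Finset.sum_le_sum hii
  rw [Finset.sum_add_distrib, ← Finset.mul_sum, ← Finset.mul_sum, ← Finset.mul_sum] at hiis
  set DE := ∑ χ ∈ irrs G \ cls T Λ, ip Y Λ χ * dg χ with hDE
  set SE := ∑ χ ∈ irrs G \ cls T Λ, ip Y Λ χ ^ 2 with hSE
  have hsub : cls T Λ ⊆ irrs G := fun χ hχ => mem_irrs.2 (mem_cls.1 hχ).1
  have hin : ∀ χ ∈ cls T Λ, ip Y Λ χ = ip T Λ χ := fun χ hχ =>
    b0_ip hMY hYT hΛ (mem_cls.1 hχ).1 (mem_cls.1 hχ).2 h0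
  have hout : ∀ χ ∈ irrs G \ cls T Λ, ip T Λ χ = 0 := by
    intro χ hχ
    rw [Finset.mem_sdiff, mem_irrs] at hχ
    by_contra hcon
    exact hχ.2 (mem_cls.2 ⟨hχ.1, sim_of_ip hΛ hχ.1 hcon⟩)
  -- degrees
  have hdY := hDEG G Y Λ hΛ
  have hdT := hDEG G T Λ hΛ
  rw [← Finset.sum_sdiff hsub] at hdY hdT
  have e1 : ∑ χ ∈ irrs G \ cls T Λ, ip T Λ χ * dg χ = 0 :=
    Finset.sum_eq_zero fun χ hχ => by rw [hout χ hχ, zero_mul]
  have e2 : ∑ χ ∈ cls T Λ, ip Y Λ χ * dg χ = ∑ χ ∈ cls T Λ, ip T Λ χ * dg χ :=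
    Finset.sum_congr rfl fun χ hχ => by rw [hin χ hχ]
  rw [e1, zero_add] at hdT
  rw [e2, hdT, ← hDE] at hdY
  -- squares
  have hsY := hSQ G M Y T hMY hYT Λ hΛ h0
  have hsT := hSQ G M T T hMT le_rfl Λ hΛ h0
  rw [← Finset.sum_sdiff hsub] at hsY hsT
  have e3 : ∑ χ ∈ irrs G \ cls T Λ, ip T Λ χ ^ 2 = 0 :=
    Finset.sum_eq_zero fun χ hχ => by rw [hout χ hχ]; simp
  have e4 : ∑ χ ∈ cls T Λ, ip Y Λ χ ^ 2 = ∑ χ ∈ cls T Λ, ip T Λ χ ^ 2 :=
    Finset.sum_congr rfl fun χ hχ => by rw [hin χ hχ]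
  rw [e3, zero_add, CBx.sum_ov_normal, ← hq] at hsT
  rw [e4, ← hSE, hOVG G Y T L hLT hLT', ← hq] at hsY
  set ST := ∑ χ ∈ cls T Λ, ip T Λ χ ^ 2 with hST
  set R := ∑ᶠ t : T, ov Y (t : G) with hR
  have hcT : Nat.card T * T.index = Nat.card G := T.card_mul_index
  have hcY : Nat.card Y * Y.index = Nat.card G := Y.card_mul_index
  have hTpos : 0 < Nat.card T := Nat.card_pos
  have hYpos : 0 < Nat.card Y := Nat.card_pos
  have hGpos : 0 < Nat.card G := Nat.card_pos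
  have hTi : 0 < T.index := Nat.pos_of_ne_zero T.index_ne_zero_of_finite
  have hle : Nat.card Y ≤ Nat.card T := Subgroup.card_le_of_le hYT
  generalize Nat.card T = τ at *
  generalize Nat.card Y = y at *
  generalize T.index = t at *
  generalize Y.index = s at *
  generalize dg Λ = l at *
  -- `ST = q t`
  have hST' : ST = q * t := by
    rw [← hcT] at hsT
    have : ST * τ ^ 2 = (q * t) * τ ^ 2 := by rw [hsT]; ring
    exact Nat.eq_of_mul_eq_mul_right (pow_pos hTpos 2) this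
  rw [hST'] at hsY
  rw [← hcT] at hcY
  exact CBx.arith A l t τ y s q DE SE R hlpos hTi hqpos hle hiis hdY hcY hsY

end Pool.Agent.RB

end
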